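import Pool.Agent.Work.MP_817c3f_lc.Core2
import Pool.Agent.Work.PT.Clock
import Pool.Agent.Work.PT.Auto

/-!
# Module M2: the labelling algorithm is polynomial-time
-/

set_option autoImplicit false

namespace Pool.Agent.Work.MP_817c3f_lc

open Pool.Agent.PT Turing Function

namespace AlgPtfAux

variable {α : Type} [Enc α]

theorem mem_ptf {β : Type} [Enc β] [DecidableEq β] {f : α → β} {l : α → List β}
    [DecidablePred (fun a => f a ∈ l a)] (hf : PTF f) (hl : PTF l) :
    PTF (fun a => decide (f a ∈ l a)) :=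
  (PTF.mem hf hl).congr (fun a => decide_eq_decide.2 Iff.rfl)

theorem decN_ptf {x : α → List Bool} (hx : PTF x) : PTF (fun a => decN (x a)) := by
  unfold decN
  fun_prop

attribute [local fun_prop] decN_ptf PTF.set

theorem matE_ptf {x : α → List Bool} {k u v : α → ℕ} (hx : PTF x) (hk : PTF k) (hu : PTF u)
    (hv : PTF v) : PTF (fun a => matE (x a) (k a) (u a) (v a)) := by
  unfold matE
  fun_prop

attribute [local fun_prop] matE_ptf

theorem occL_ptf {x : α → List Bool} (hx : PTF x) : PTF (fun a => occL (x a)) := by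
  unfold occL
  fun_prop

theorem leftB_ptf {x : α → List Bool} (hx : PTF x) : PTF (fun a => leftB (x a)) := by
  unfold leftB
  fun_prop

attribute [local fun_prop] occL_ptf leftB_ptf

theorem valid_ptf {x : α → List Bool} (hx : PTF x) : PTF (fun a => valid (x a)) := by
  unfold valid
  fun_prop

attribute [local fun_prop] valid_ptf

theorem half_ptf {i j : α → ℕ} (hi : PTF i) (hj : PTF j) :
    PTF (fun a => (fun m => m / 2)^[j a] (i a)) :=
  PTF.nat_iterate_add (n := j) (init := i) (step := fun p : α × ℕ => p.2 / 2) hj hi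
    (PTF.snd.div (PTF.const 2)) (fun _ => 0) (PB.const 0) (fun a s => by
      show sz (s / 2) ≤ _
      rw [sz_nat, sz_nat]; omega)

attribute [local fun_prop] half_ptf

theorem digits_ptf {n i : α → ℕ} (hn : PTF n) (hi : PTF i) :
    PTF (fun a => digits (n a) (i a)) := by
  unfold digits
  have h : PTF (fun p : α × ℕ => decide (((fun m => m / 2)^[p.2] (i p.1)) % 2 = 1)) :=
    ((half_ptf (hi.comp PTF.fst) PTF.snd).mod (PTF.const 2)).eq (PTF.const 1)
  exact PTF.map' (f := fun a j => decide (((fun m => m / 2)^[j] (i a)) % 2 = 1)) h hn.range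

attribute [local fun_prop] digits_ptf

theorem allS_ptf {n N : α → ℕ} (hn : PTF n) (hN : PTF N) : PTF (fun a => allS (n a) (N a)) := by
  unfold allS
  fun_prop

attribute [local fun_prop] allS_ptf

theorem movesL_ptf {x : α → List Bool} {s : α → Bool × List Bool} (hx : PTF x) (hs : PTF s) :
    PTF (fun a => movesL (x a) (s a)) := by
  unfold movesL
  fun_prop

attribute [local fun_prop] movesL_ptf

theorem stepW_ptf {x : α → List Bool} {N : α → ℕ} {W : α → List (Bool × List Bool)}
    (hx : PTF x) (hN : PTF N) (hW : PTF W) : PTF (fun a => stepW (x a) (N a) (W a)) := by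
  unfold stepW
  have h1 : PTF (fun p : (α × (Bool × List Bool)) × (Bool × List Bool) =>
      (movesL (x p.1.1) p.2).all (fun s'' => decide (s'' ∈ W p.1.1))) :=
    PTF.all' (f := fun (p : (α × (Bool × List Bool)) × (Bool × List Bool)) s'' =>
      decide (s'' ∈ W p.1.1))
      (mem_ptf PTF.snd (hW.comp (PTF.fst.comp (PTF.fst.comp PTF.fst))))
      (movesL_ptf (hx.comp (PTF.fst.comp PTF.fst)) PTF.snd)
  have h2 : PTF (fun p : α × (Bool × List Bool) => (movesL (x p.1) p.2).any (fun s' =>
      (movesL (x p.1) s').all (fun s'' => decide (s'' ∈ W p.1)))) :=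
    PTF.any' (f := fun (p : α × (Bool × List Bool)) s' =>
      (movesL (x p.1) s').all (fun s'' => decide (s'' ∈ W p.1))) h1
      (movesL_ptf (hx.comp PTF.fst) PTF.snd)
  exact PTF.filter' (f := fun a s => (movesL (x a) s).any (fun s' =>
      (movesL (x a) s').all (fun s'' => decide (s'' ∈ W a)))) h2 (allS_ptf (decN_ptf hx) hN)

theorem sz_filter_le {β : Type} [Enc β] (p : β → Bool) (l : List β) :
    sz (l.filter p) ≤ sz l := by
  induction l with
  | nil => simp
  | cons b l ih =>
    rw [List.filter_cons, sz_cons]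
    split_ifs
    · rw [sz_cons]; omega
    · omega

theorem winL_ptf {x : α → List Bool} {N : α → ℕ} (hx : PTF x) (hN : PTF N) :
    PTF (fun a => winL (x a) (N a)) := by
  unfold winL
  refine PTF.nat_iterate (n := fun a => 2 * N a + 1) (init := fun _ => [])
    (step := fun p : α × List (Bool × List Bool) => stepW (x p.1) (N p.1) p.2)
    (by fun_prop) (PTF.const []) (stepW_ptf (by fun_prop) (by fun_prop) PTF.snd)
    (fun a => sz (allS (decN (x a)) (N a)) + 1) ?_ (fun a i _ => ?_)
  · have h : PTF (fun a => allS (decN (x a)) (N a)) := by fun_prop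
    exact h.size.add (PB.const 1)
  · cases i with
    | zero => rw [iterate_zero, id, sz_nil]; omega
    | succ i =>
      rw [iterate_succ_apply']
      exact (sz_filter_le _ _).trans (Nat.le_succ _)

attribute [local fun_prop] winL_ptf

end AlgPtfAux

open AlgPtfAux in
/-- **Module M2**. -/
theorem claimAlgPtf : ClaimAlgPtf := by
  have h1 : PTF (fun q : List Bool × ℕ => (leftB q.1, occL q.1)) :=
    (leftB_ptf PTF.fst).pair (occL_ptf PTF.fst)
  have h2 : PTF (fun q : List Bool × ℕ => winL q.1 q.2) := winL_ptf PTF.fst PTF.snd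
  have h3 : PTF (fun q : List Bool × ℕ => (movesL q.1 (leftB q.1, occL q.1)).all
      (fun s => decide (s ∈ winL q.1 q.2))) :=
    PTF.all' (f := fun (q : List Bool × ℕ) s => decide (s ∈ winL q.1 q.2))
      (mem_ptf PTF.snd (h2.comp PTF.fst)) (movesL_ptf PTF.fst h1)
  unfold ClaimAlgPtf alg
  refine PTF.cond (valid_ptf PTF.fst) ?_ (PTF.const _)
  exact PTF.ite (mem_ptf h1 h2) (PTF.const _) (PTF.cond h3 (PTF.const _) (PTF.const _))

end Pool.Agent.Work.MP_817c3f_lc
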