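import Pool.Agent.Work.MP_817c3f_lc.Core2

/-!
# Module N: binary numbers of fixed length
-/

set_option autoImplicit false

namespace Pool.Agent.Work.MP_817c3f_lc

open Pool.Agent.PT Turing Function

theorem bin_length_inc : ∀ l : List Bool, (inc l).length = l.length
  | [] => rfl
  | false :: l => rfl
  | true :: l => by simp [inc, bin_length_inc l]

theorem bin_val_lt : ∀ l : List Bool, val l < 2 ^ l.length
  | [] => by simp [val]
  | b :: l => by
    have h := bin_val_lt l
    simp only [val, List.length_cons, pow_succ]
    cases b <;> simp only [cond_true, cond_false] <;> omega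

theorem bin_val_inc : ∀ l : List Bool, val l + 1 < 2 ^ l.length → val (inc l) = val l + 1
  | [], h => by simp [val] at h
  | false :: l, _ => by simp [val, inc]; omega
  | true :: l, h => by
    simp only [val, List.length_cons, pow_succ, cond_true] at h
    have h2 := bin_val_inc l (by omega)
    simp only [val, inc, cond_true, cond_false, h2]
    omega

theorem bin_val_inj : ∀ l l' : List Bool, l.length = l'.length → val l = val l' → l = l'
  | [], [], _, _ => rfl
  | [], _ :: _, h, _ => by simp at h
  | _ :: _, [], h, _ => by simp at h
  | a :: l, b :: l', h, h' => by
    simp only [List.length_cons, Nat.add_right_cancel_iff] at h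
    simp only [val] at h'
    have hab : a = b := by
      cases a <;> cases b <;> simp only [cond_true, cond_false] at h' <;> first | rfl | omega
    subst hab
    rw [bin_val_inj l l' h (by omega)]

theorem bin_val_zero : ∀ q, val (List.replicate q false) = 0
  | 0 => rfl
  | q + 1 => by simp [List.replicate_succ, val, bin_val_zero q]

theorem bin_val_top : ∀ q, val (List.replicate q true) = 2 ^ q - 1
  | 0 => rfl
  | q + 1 => by
    have h := bin_val_top q
    have h1 : 0 < 2 ^ q := by positivity
    simp only [List.replicate_succ, val, cond_true, h, pow_succ]
    omega

theorem bin_exists_val : ∀ q n, n < 2 ^ q → ∃ l : List Bool, l.length = q ∧ val l = n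
  | 0, n, h => ⟨[], rfl, by simp at h; simp [val, h]⟩
  | q + 1, n, h => by
    obtain ⟨l, h1, h2⟩ := bin_exists_val q (n / 2) (by rw [pow_succ] at h; omega)
    refine ⟨decide (n % 2 = 1) :: l, by simp [h1], ?_⟩
    simp only [val, h2]
    by_cases h3 : n % 2 = 1
    · simp only [h3, decide_true, cond_true]; omega
    · simp only [h3, decide_false, cond_false]; omega

theorem bin_inc_eq (l : List Bool) : inc l = if l.idxOf false < l.length then
    List.replicate (l.idxOf false) false ++ (true :: l.drop (l.idxOf false + 1))
    else List.replicate l.length false := by
  induction l with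
  | nil => rfl
  | cons b l ih =>
    cases b with
    | false => simp [inc]
    | true =>
      have h : (true :: l).idxOf false = l.idxOf false + 1 := List.idxOf_cons_ne _ (by decide)
      rw [h]
      simp only [inc, ih, List.length_cons, Nat.add_lt_add_iff_right]
      split_ifs <;> simp [List.replicate_succ]

theorem bin_ptf_inc : PTF inc := by
  have h : PTF (fun l : List Bool => if l.idxOf false < l.length then
      List.replicate (l.idxOf false) false ++ (true :: l.drop (l.idxOf false + 1))
      else List.replicate l.length false) := by fun_prop
  exact h.congr (fun l => (bin_inc_eq l).symm)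

theorem bin_iter_length (l : List Bool) (r : ℕ) : (inc^[r] l).length = l.length := by
  induction r with
  | zero => rfl
  | succ r ih => rw [iterate_succ_apply', bin_length_inc, ih]

theorem bin_iter_val (q r : ℕ) (h : r < 2 ^ q) : val (inc^[r] (List.replicate q false)) = r := by
  induction r with
  | zero => exact bin_val_zero q
  | succ r ih =>
    have h1 := ih (by omega)
    rw [iterate_succ_apply', bin_val_inc, h1]
    rw [h1, bin_iter_length, List.length_replicate]
    exact h

theorem bin_find_range (P : ℕ → Bool) (v : ℕ) (hv : P v = true) (hr : ∀ r < v, P r = false) :
    ∀ n, (List.range n).find? P = if v < n then some v else none := by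
  intro n
  induction n with
  | zero => simp
  | succ n ih =>
    rw [List.range_succ, List.find?_append, ih]
    rcases lt_trichotomy v n with h | h | h
    · simp [h, Nat.lt_succ_of_lt h]
    · subst h
      simp [hv]
    · have h1 : ¬ v < n := by omega
      have h2 : ¬ v < n + 1 := by omega
      simp [h1, h2, hr n h]

theorem bin_sz (l : List Bool) : sz l ≤ 4 * l.length + 1 := by
  induction l with
  | nil => simp [sz_nil]
  | cons b x ih =>
    rw [sz_cons]
    have := sz_bool b
    simp only [List.length_cons]
    omega

theorem bin_look (w j : List Bool) : ((List.range w.length).find?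
    (fun r => decide (inc^[r] (List.replicate j.length false) = j))).bind (fun r => w[r]?) =
      w[val j]? := by
  have hv := bin_val_lt j
  rw [bin_find_range (fun r => decide (inc^[r] (List.replicate j.length false) = j)) (val j)]
  · by_cases h : val j < w.length
    · simp [h]
    · simp only [h, if_false, Option.bind_none]
      exact (List.getElem?_eq_none (by omega)).symm
  · simp only [decide_eq_true_eq]
    apply bin_val_inj
    · rw [bin_iter_length, List.length_replicate]
    · exact bin_iter_val _ _ hv
  · intro r hr
    simp only [decide_eq_false_iff_not]
    intro h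
    have h1 := bin_iter_val j.length r (by omega)
    rw [h] at h1
    omega

theorem bin_ptf_look : PTF (fun p : List Bool × List Bool => p.1[val p.2]?) := by
  have hs : PTF (fun p : ((List Bool × List Bool) × ℕ) × List Bool => inc p.2) :=
    bin_ptf_inc.comp PTF.snd
  have h1 : PTF (fun p : (List Bool × List Bool) × ℕ =>
      inc^[p.2] (List.replicate p.1.2.length false)) := by
    have h := PTF.nat_iterate (n := fun p : (List Bool × List Bool) × ℕ => p.2)
      (init := fun p => List.replicate p.1.2.length false)
      (step := fun p : ((List Bool × List Bool) × ℕ) × List Bool => inc p.2)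
      PTF.snd (by fun_prop) hs (fun p => 4 * sz p + 1)
      (((PB.const 4).mul PB.sz).add (PB.const 1)) (fun p i hi => by
        have h2 := bin_sz (inc^[i] (List.replicate p.1.2.length false))
        rw [bin_iter_length, List.length_replicate] at h2
        have h3 := length_le_sz p.1.2
        have h4 : sz p = sz p.1 + sz p.2 + 1 := sz_pair p.1 p.2
        have h5 : sz p.1 = sz p.1.1 + sz p.1.2 + 1 := sz_pair p.1.1 p.1.2
        exact h2.trans (by omega))
    exact h
  have h2 : PTF (fun p : List Bool × List Bool => ((List.range p.1.length).find?
      (fun r => decide (inc^[r] (List.replicate p.2.length false) = p.2))).bind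
        (fun r => p.1[r]?)) := by
    have h3 : PTF (fun p : (List Bool × List Bool) × ℕ =>
        decide (inc^[p.2] (List.replicate p.1.2.length false) = p.1.2)) :=
      h1.eq (by fun_prop)
    have h4 : PTF (fun p : List Bool × List Bool => (List.range p.1.length).find?
        (fun r => decide (inc^[r] (List.replicate p.2.length false) = p.2))) :=
      PTF.find' (f := fun (p : List Bool × List Bool) r =>
        decide (inc^[r] (List.replicate p.2.length false) = p.2)) h3 (by fun_prop)
    exact PTF.optionBind' (f := fun (p : List Bool × List Bool) r => p.1[r]?) (by fun_prop) h4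
  exact h2.congr (fun p => bin_look p.1 p.2)

theorem claimBin : ClaimBin :=
  ⟨bin_ptf_inc, bin_length_inc, bin_val_lt, bin_val_inc, bin_val_inj, bin_val_zero, bin_val_top,
    bin_exists_val, bin_ptf_look⟩

end Pool.Agent.Work.MP_817c3f_lc
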