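import Pool.Agent.Work.MP_817c3f_lc.Core

/-!
# The flip game simulates the dialogue game (module C2)
-/

set_option autoImplicit false

namespace Pool.Agent.Work.MP_817c3f_lc

open Pool.Agent.PT Turing Function

section chain

variable {l D M : ℕ} {chk : ℕ → ℕ → List (List (Bool × Vr))}

/-! ### Stages -/

lemma chain_next0 {s : Sg} (hs : s.1 = 0) : (dfg l D M chk).next s = [(0, 1 - s.2.1, 0)] := by
  simp [dfg, dnext, hs]

lemma chain_lits0 {s : Sg} (hs : s.1 = 0) : (dfg l D M chk).lits s = [] := by
  simp [dfg, dlits, hs]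

lemma chain_nextC {s : Sg} (hs : 4 ≤ s.1) : (dfg l D M chk).next s = [(0, 0, 0)] := by
  have h0 : s.1 ≠ 0 := by omega
  have h1 : s.1 ≠ 1 := by omega
  have h2 : ¬ (s.1 = 2 ∨ s.1 = 3) := by omega
  simp [dfg, dnext, h0, h1, h2]

lemma chain_lits1 (p : ℕ) : (dfg l D M chk).lits (1, p, 0) = [(true, (1 + 2 * p, 0))] := by
  simp [dfg, dlits]

lemma chain_lits2 {p : ℕ} (hp : p < 2) (d r : ℕ) : (dfg l D M chk).lits (2 + p, d, r) = [] := by
  interval_cases p <;> simp [dfg, dlits]

lemma chain_lits4 {p : ℕ} (hp : p < 2) (d i : ℕ) :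
    (dfg l D M chk).lits (4 + p, d, i) = (chk p d).getD i [] := by
  interval_cases p <;> simp [dfg, dlits]

lemma chain_lits6 {p : ℕ} (hp : p < 2) (i : ℕ) :
    (dfg l D M chk).lits (6 + p, 0, i) = (prot l p).getD i [] := by
  interval_cases p <;> simp [dfg, dlits]

lemma chain_next1 (p : ℕ) : (dfg l D M chk).next (1, p, 0) =
    (List.range (prot l p).length).map (fun i => (6 + p, 0, i)) ++
      (List.range D).map (fun d => (2 + p, d, 0)) := by
  simp [dfg, dnext]

lemma chain_next2 {p : ℕ} (hp : p < 2) (d r : ℕ) (hr : r + 1 < drounds l M) :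
    (dfg l D M chk).next (2 + p, d, r) =
    (List.range (prot l p).length).map (fun i => (6 + p, 0, i)) ++ [(2 + p, d, r + 1)] := by
  interval_cases p <;> simp [dfg, dnext, hr]

lemma chain_next3 {p : ℕ} (hp : p < 2) (d r : ℕ) (hr : ¬ (r + 1 < drounds l M)) :
    (dfg l D M chk).next (2 + p, d, r) =
    (List.range (prot l p).length).map (fun i => (6 + p, 0, i)) ++
      ((List.range (chk p d).length).map (fun i => (4 + p, d, i)) ++ [(1, 1 - p, 0)]) := by
  interval_cases p <;> simp [dfg, dnext, hr]

/-! ### Formulas -/

lemma chain_sat_of {φ : List (List (Bool × Vr))} {v : Vr → Bool}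
    (h : ∀ i < φ.length, ∃ x ∈ φ.getD i [], v x.2 = x.1) : SatBy v φ := by
  intro c hc
  obtain ⟨i, hi, rfl⟩ := List.getElem_of_mem hc
  have := h i hi
  rwa [List.getD_eq_getElem _ _ hi] at this

lemma chain_of_sat {φ : List (List (Bool × Vr))} {v : Vr → Bool} (h : SatBy v φ) {i : ℕ}
    (hi : i < φ.length) : ∃ x ∈ φ.getD i [], v x.2 = x.1 := by
  rw [List.getD_eq_getElem _ _ hi]
  exact h _ (List.getElem_mem hi)

lemma chain_reg_eq {p q : ℕ} {v w : Vr → Bool} : 
    (List.range l).map (fun j => v (p, j)) = (List.range l).map (fun j => w (q, j)) ↔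
      ∀ j < l, v (p, j) = w (q, j) := by
  constructor
  · intro h j hj
    have := congrArg (fun L => L.getD j false) h
    simpa [List.getD_eq_getElem?_getD, List.getElem?_map, List.getElem?_range hj] using this
  · intro h
    apply List.map_congr_left
    intro j hj
    exact h j (List.mem_range.1 hj)

lemma chain_prot {p : ℕ} {v : Vr → Bool} : SatBy v (prot l p) ↔ regv l p v = cpv l p v := by
  unfold regv cpv
  rw [chain_reg_eq]
  constructor
  · intro h j hj
    have h1 := h [(false, (1 + 2 * p, j)), (true, (2 + 2 * p, j))] (by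
      simp only [prot, eqcl, List.mem_flatMap, List.mem_range]
      exact ⟨j, hj, by simp⟩)
    have h2 := h [(true, (1 + 2 * p, j)), (false, (2 + 2 * p, j))] (by
      simp only [prot, eqcl, List.mem_flatMap, List.mem_range]
      exact ⟨j, hj, by simp⟩)
    simp only [List.mem_cons, List.not_mem_nil, or_false, exists_eq_or_imp, exists_eq_left] at h1 h2
    cases hx : v (1 + 2 * p, j) <;> cases hy : v (2 + 2 * p, j) <;> simp_all
  · intro h c hc
    simp only [prot, eqcl, List.mem_flatMap, List.mem_range] at hc
    obtain ⟨j, hj, hc⟩ := hc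
    have := h j hj
    simp only [List.mem_cons, List.not_mem_nil, or_false] at hc
    rcases hc with rfl | rfl
    · cases hx : v (1 + 2 * p, j)
      · exact ⟨(false, (1 + 2 * p, j)), by simp, hx⟩
      · exact ⟨(true, (2 + 2 * p, j)), by simp, by rw [← this, hx]⟩
    · cases hx : v (1 + 2 * p, j)
      · exact ⟨(false, (2 + 2 * p, j)), by simp, by rw [← this, hx]⟩
      · exact ⟨(true, (1 + 2 * p, j)), by simp, hx⟩

/-! ### Soundness -/

lemma chain_sink {v : Vr → Bool} {s : Sg} (h : (dfg l D M chk).Win v s) : s.1 ≠ 0 := by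
  induction h with
  | lit v s x hx h =>
    intro hs
    rw [chain_lits0 hs] at hx
    simp at hx
  | flip v s x hx h ih =>
    intro hs
    rw [chain_next0 hs] at ih
    exact ih _ (List.mem_singleton.2 rfl) rfl

lemma chain_clause {v : Vr → Bool} {s : Sg} (hs : 4 ≤ s.1) (h : (dfg l D M chk).Win v s) :
    ∃ x ∈ (dfg l D M chk).lits s, v x.2 = x.1 := by
  cases h with
  | lit _ _ x hx h => exact ⟨x, hx, h⟩
  | flip _ _ x hx h =>
    rw [chain_nextC hs] at h
    exact absurd rfl (chain_sink (h _ (List.mem_singleton.2 rfl)))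

lemma chain_flip_ne {v : Vr → Bool} {x z : Vr} (h : z ≠ x) : flipAt v x z = v z :=
  update_of_ne h _ _

lemma chain_regv_flip {p : ℕ} {v : Vr → Bool} {x : Vr} (h : regv l p v = cpv l p v)
    (h' : regv l p (flipAt v x) = cpv l p (flipAt v x)) : regv l p (flipAt v x) = regv l p v := by
  by_cases hx : x.1 = 1 + 2 * p
  · rw [h', h]
    unfold cpv
    rw [chain_reg_eq]
    intro j _
    apply chain_flip_ne
    intro hc
    have h1 := congrArg Prod.fst hc
    simp only at h1
    omega
  · unfold regv
    rw [chain_reg_eq]
    intro j _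
    apply chain_flip_ne
    intro hc
    rw [← hc] at hx
    simp at hx

lemma chain_sound {Rel : ℕ → List Bool → List Bool → Prop} (hl : 0 < l)
    (hC : ChkOK l D M chk Rel) {v : Vr → Bool} {s : Sg} (h : (dfg l D M chk).Win v s) :
    (∀ p < 2, s = (1, p, 0) → regv l p v = cpv l p v → Dlg D Rel (regv l p v)) ∧
    (∀ p < 2, ∀ d < D, ∀ r < drounds l M, s = (2 + p, d, r) → regv l p v = cpv l p v →
      ∃ y, Rel d (regv l p v) y ∧ Dlg D Rel y) := by
  induction h with
  | lit v s x hx h =>
    constructor
    · rintro p hp rfl hr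
      rw [chain_lits1, List.mem_singleton] at hx
      subst hx
      apply Dlg.acc
      simp only at h
      unfold regv
      obtain ⟨m, rfl⟩ : ∃ m, l = m + 1 := ⟨l - 1, by omega⟩
      rw [List.range_succ_eq_map]
      simpa using h
    · rintro p hp d hd r hr rfl h'
      rw [chain_lits2 hp] at hx
      simp at hx
  | flip v s x hx h ih =>
    constructor
    · rintro p hp rfl hr
      rw [chain_next1] at h ih
      have hprot : regv l p (flipAt v x) = cpv l p (flipAt v x) := by
        rw [← chain_prot]
        apply chain_sat_of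
        intro i hi
        have := chain_clause (by simp; omega) (h (6 + p, 0, i) (by simp [hi]))
        rwa [chain_lits6 hp] at this
      have e := chain_regv_flip hr hprot
      have hq : ∀ d < D, ∃ y, Rel d (regv l p (flipAt v x)) y ∧ Dlg D Rel y := fun d hd =>
        (ih (2 + p, d, 0) (by simp [hd])).2 p hp d hd 0 (by unfold drounds; omega) rfl hprot
      choose! y hy using hq
      rw [e] at hy
      exact Dlg.step _ y (fun d hd => (hy d hd).1) (fun d hd => (hy d hd).2)
    · rintro p hp d hd r hr rfl h'
      by_cases hr1 : r + 1 < drounds l M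
      · rw [chain_next2 hp d r hr1] at h ih
        have hprot : regv l p (flipAt v x) = cpv l p (flipAt v x) := by
          rw [← chain_prot]
          apply chain_sat_of
          intro i hi
          have := chain_clause (by simp; omega) (h (6 + p, 0, i) (by simp [hi]))
          rwa [chain_lits6 hp] at this
        have e := chain_regv_flip h' hprot
        have := (ih (2 + p, d, r + 1) (by simp)).2 p hp d hd (r + 1) hr1 rfl hprot
        rwa [e] at this
      · rw [chain_next3 hp d r hr1] at h ih
        have hprot : regv l p (flipAt v x) = cpv l p (flipAt v x) := by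
          rw [← chain_prot]
          apply chain_sat_of
          intro i hi
          have := chain_clause (by simp; omega) (h (6 + p, 0, i) (by simp [hi]))
          rwa [chain_lits6 hp] at this
        have hchk : SatBy (flipAt v x) (chk p d) := by
          apply chain_sat_of
          intro i hi
          have := chain_clause (by simp) (h (4 + p, d, i) (by simp [hi]))
          rwa [chain_lits4 hp] at this
        have e := chain_regv_flip h' hprot
        obtain ⟨s1, s2⟩ := hC.sound p hp d hd _ hchk
        rw [e] at s2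
        exact ⟨_, s2, (ih (1, 1 - p, 0) (by simp)).1 (1 - p) (by omega) rfl s1⟩

/-! ### Completeness -/

lemma chain_mem_dvars {t j : ℕ} (ht1 : 1 ≤ t) (ht : t ≤ 4) (hj : j < l) : (t, j) ∈ dvars l M := by
  unfold dvars
  refine List.mem_cons_of_mem _ (List.mem_append_left _ ?_)
  rw [List.mem_flatMap]
  refine ⟨t - 1, List.mem_range.2 (by omega), ?_⟩
  rw [List.mem_map]
  exact ⟨j, List.mem_range.2 hj, by simp; omega⟩

/-- The variables, without the dummy, where `v` and `w` differ. -/
def chainS (l M : ℕ) (v w : Vr → Bool) : Finset Vr :=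
  ((dvars l M).toFinset.erase (0, 0)).filter (fun z => v z ≠ w z)

lemma chain_card_le (v w : Vr → Bool) : (chainS l M v w).card ≤ 4 * l + M := by
  unfold chainS
  refine (Finset.card_filter_le _ _).trans ?_
  have h1 : (dvars l M).toFinset.erase (0, 0) ⊆
      ((List.range 4).flatMap (fun t => (List.range l).map (fun j => (t + 1, j))) ++
        (List.range M).map (fun k => (5, k))).toFinset := by
    intro z hz
    rw [Finset.mem_erase, List.mem_toFinset] at hz
    rw [List.mem_toFinset]
    obtain ⟨hz1, hz2⟩ := hz
    unfold dvars at hz2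
    rcases List.mem_cons.1 hz2 with h | h
    · exact absurd h hz1
    · exact h
  refine (Finset.card_le_card h1).trans ((List.toFinset_card_le _).trans ?_)
  simp [List.length_flatMap]
  omega

lemma chain_mem_vars {x : Vr} : x ∈ (dfg l D M chk).vars ↔ x ∈ dvars l M := Iff.rfl

lemma chain_zero_mem : ((0, 0) : Vr) ∈ (dfg l D M chk).vars := by
  rw [chain_mem_vars]; unfold dvars; exact List.mem_cons_self

lemma chain_flip_S {v w : Vr → Bool} {z : Vr} (hz : z ∈ chainS l M v w) :
    chainS l M (flipAt v z) w = (chainS l M v w).erase z := by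
  ext u
  unfold chainS at hz ⊢
  rw [Finset.mem_filter] at hz
  simp only [Finset.mem_filter, Finset.mem_erase]
  by_cases huz : u = z
  · subst huz
    have h1 : flipAt v u u = !(v u) := by simp [flipAt]
    rw [h1]
    have h2 : (!(v u)) = w u := by
      cases h3 : v u <;> cases h4 : w u <;> simp_all
    simp [h2]
  · rw [chain_flip_ne huz]
    tauto

lemma chain_flip_S0 {v w : Vr → Bool} : chainS l M (flipAt v (0, 0)) w = chainS l M v w := by
  ext u
  unfold chainS
  simp only [Finset.mem_filter, Finset.mem_erase]
  by_cases hu : u = (0, 0)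
  · simp [hu]
  · rw [chain_flip_ne hu]

lemma chain_win_prot {p : ℕ} (hp : p < 2) {v : Vr → Bool} (h : regv l p v = cpv l p v) {i : ℕ}
    (hi : i < (prot l p).length) : (dfg l D M chk).Win v (6 + p, 0, i) := by
  obtain ⟨x, hx, hv⟩ := chain_of_sat (chain_prot.2 h) hi
  exact FG.Win.lit _ _ x (by rw [chain_lits6 hp]; exact hx) hv

lemma chain_win_chk {p : ℕ} (hp : p < 2) {v : Vr → Bool} {d : ℕ} (h : SatBy v (chk p d)) {i : ℕ}
    (hi : i < (chk p d).length) : (dfg l D M chk).Win v (4 + p, d, i) := by
  obtain ⟨x, hx, hv⟩ := chain_of_sat h hi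
  exact FG.Win.lit _ _ x (by rw [chain_lits4 hp]; exact hx) hv

/-- The chain lemma. -/
lemma chain_chain {Rel : ℕ → List Bool → List Bool → Prop} 
    (hC : ChkOK l D M chk Rel) {p d : ℕ} (hp : p < 2) (hd : d < D) {w : Vr → Bool}
    {x y : List Bool} (w1 : regv l p w = x) (w2 : cpv l p w = x) (w3 : regv l (1 - p) w = y)
    (w4 : cpv l (1 - p) w = y) (w5 : SatBy w (chk p d))
    (hfin : ∀ v : Vr → Bool, regv l (1 - p) v = y → cpv l (1 - p) v = y →
      (dfg l D M chk).Win v (1, 1 - p, 0)) (k : ℕ) :
    ∀ (r : ℕ) (v : Vr → Bool), r + (k + 1) = drounds l M → regv l p v = x → cpv l p v = x →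
      (chainS l M v w).card ≤ k + 1 → (dfg l D M chk).Win v (2 + p, d, r) := by
  induction k with
  | zero =>
    intro r v hr h1 h2 hcard
    -- choose the variable to flip
    obtain ⟨z, hz, e1, e2, e3⟩ : ∃ z ∈ (dfg l D M chk).vars, regv l p (flipAt v z) = x ∧
        cpv l p (flipAt v z) = x ∧ (chainS l M (flipAt v z) w).card ≤ 0 := by
      rcases (chainS l M v w).eq_empty_or_nonempty with h0 | ⟨z, hz⟩
      · refine ⟨(0, 0), chain_zero_mem, ?_, ?_, ?_⟩
        · rw [← h1]; unfold regv; rw [chain_reg_eq]
          intro j _; exact chain_flip_ne (by simp)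
        · rw [← h2]; unfold cpv; rw [chain_reg_eq]
          intro j _; exact chain_flip_ne (by simp)
        · rw [chain_flip_S0, h0]; simp
      · have hz' := hz
        unfold chainS at hz'
        rw [Finset.mem_filter, Finset.mem_erase, List.mem_toFinset] at hz'
        refine ⟨z, hz'.1.2, ?_, ?_, ?_⟩
        · rw [← h1]; unfold regv; rw [chain_reg_eq]
          intro j hj; apply chain_flip_ne
          rintro rfl
          have := h1.trans w1.symm
          unfold regv at this
          rw [chain_reg_eq] at this
          exact hz'.2 (this j hj)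
        · rw [← h2]; unfold cpv; rw [chain_reg_eq]
          intro j hj; apply chain_flip_ne
          rintro rfl
          have := h2.trans w2.symm
          unfold cpv at this
          rw [chain_reg_eq] at this
          exact hz'.2 (this j hj)
        · rw [chain_flip_S hz, Finset.card_erase_of_mem hz]; omega
    have hagree : ∀ u ∈ dvars l M, u ≠ (0, 0) → flipAt v z u = w u := by
      intro u hu hu0
      by_contra hne
      have : u ∈ chainS l M (flipAt v z) w := by
        unfold chainS
        rw [Finset.mem_filter, Finset.mem_erase, List.mem_toFinset]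
        exact ⟨⟨hu0, hu⟩, hne⟩
      have := Finset.card_pos.2 ⟨u, this⟩
      omega
    refine FG.Win.flip _ _ z hz ?_
    intro s' hs'
    rw [chain_next3 hp d r (by omega)] at hs'
    rcases List.mem_append.1 hs' with h | h
    · obtain ⟨i, hi, rfl⟩ := List.mem_map.1 h
      exact chain_win_prot hp (e1.trans e2.symm) (List.mem_range.1 hi)
    rcases List.mem_append.1 h with h | h
    · obtain ⟨i, hi, rfl⟩ := List.mem_map.1 h
      refine chain_win_chk hp ?_ (List.mem_range.1 hi)
      intro c hc
      obtain ⟨x, hx, hv⟩ := w5 c hc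
      obtain ⟨m1, m2⟩ := hC.vars p hp d hd c hc x hx
      exact ⟨x, hx, by rw [hagree _ m1 m2, hv]⟩
    · rw [List.mem_singleton] at h
      subst h
      apply hfin
      · rw [← w3]; unfold regv; rw [chain_reg_eq]
        intro j hj
        exact hagree _ (chain_mem_dvars (by omega) (by omega) hj) (by simp)
      · rw [← w4]; unfold cpv; rw [chain_reg_eq]
        intro j hj
        exact hagree _ (chain_mem_dvars (by omega) (by omega) hj) (by simp)
  | succ k ih =>
    intro r v hr h1 h2 hcard
    obtain ⟨z, hz, e1, e2, e3⟩ : ∃ z ∈ (dfg l D M chk).vars, regv l p (flipAt v z) = x ∧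
        cpv l p (flipAt v z) = x ∧ (chainS l M (flipAt v z) w).card ≤ k + 1 := by
      rcases (chainS l M v w).eq_empty_or_nonempty with h0 | ⟨z, hz⟩
      · refine ⟨(0, 0), chain_zero_mem, ?_, ?_, ?_⟩
        · rw [← h1]; unfold regv; rw [chain_reg_eq]
          intro j _; exact chain_flip_ne (by simp)
        · rw [← h2]; unfold cpv; rw [chain_reg_eq]
          intro j _; exact chain_flip_ne (by simp)
        · rw [chain_flip_S0, h0]; simp
      · have hz' := hz
        unfold chainS at hz'
        rw [Finset.mem_filter, Finset.mem_erase, List.mem_toFinset] at hz'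
        refine ⟨z, hz'.1.2, ?_, ?_, ?_⟩
        · rw [← h1]; unfold regv; rw [chain_reg_eq]
          intro j hj; apply chain_flip_ne
          rintro rfl
          have := h1.trans w1.symm
          unfold regv at this
          rw [chain_reg_eq] at this
          exact hz'.2 (this j hj)
        · rw [← h2]; unfold cpv; rw [chain_reg_eq]
          intro j hj; apply chain_flip_ne
          rintro rfl
          have := h2.trans w2.symm
          unfold cpv at this
          rw [chain_reg_eq] at this
          exact hz'.2 (this j hj)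
        · rw [chain_flip_S hz, Finset.card_erase_of_mem hz]; omega
    refine FG.Win.flip _ _ z hz ?_
    intro s' hs'
    rw [chain_next2 hp d r (by omega)] at hs'
    rcases List.mem_append.1 hs' with h | h
    · obtain ⟨i, hi, rfl⟩ := List.mem_map.1 h
      exact chain_win_prot hp (e1.trans e2.symm) (List.mem_range.1 hi)
    · rw [List.mem_singleton] at h
      subst h
      exact ih (r + 1) _ (by omega) e1 e2 e3

lemma chain_complete {Rel : ℕ → List Bool → List Bool → Prop} (hl : 0 < l)
    (hC : ChkOK l D M chk Rel) {x : List Bool} (h : Dlg D Rel x) :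
    ∀ p < 2, ∀ v : Vr → Bool, regv l p v = x → cpv l p v = x →
      (dfg l D M chk).Win v (1, p, 0) := by
  induction h with
  | acc x h =>
    intro p hp v h1 h2
    refine FG.Win.lit _ _ (true, (1 + 2 * p, 0)) (by rw [chain_lits1]; simp) ?_
    rw [← h1] at h
    unfold regv at h
    obtain ⟨m, rfl⟩ : ∃ m, l = m + 1 := ⟨l - 1, by omega⟩
    rw [List.range_succ_eq_map] at h
    simpa using h
  | step x y hR hD ih =>
    intro p hp v h1 h2
    have e1 : regv l p (flipAt v (0, 0)) = x := by
      rw [← h1]; unfold regv; rw [chain_reg_eq]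
      intro j _; exact chain_flip_ne (by simp)
    have e2 : cpv l p (flipAt v (0, 0)) = x := by
      rw [← h2]; unfold cpv; rw [chain_reg_eq]
      intro j _; exact chain_flip_ne (by simp)
    refine FG.Win.flip _ _ (0, 0) chain_zero_mem ?_
    intro s' hs'
    rw [chain_next1] at hs'
    rcases List.mem_append.1 hs' with h | h
    · obtain ⟨i, hi, rfl⟩ := List.mem_map.1 h
      exact chain_win_prot hp (e1.trans e2.symm) (List.mem_range.1 hi)
    · obtain ⟨d, hd, rfl⟩ := List.mem_map.1 h
      rw [List.mem_range] at hd
      have hR' : Rel d (regv l p (flipAt v (0, 0))) (y d) := by rw [e1]; exact hR d hd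
      obtain ⟨w, w1, w2, w3, w4, w5⟩ := hC.complete p hp d hd _ (y d) (e1.trans e2.symm) hR'
      rw [e1] at w1
      rw [e2] at w2
      refine chain_chain hC hp hd w1 w2 w3 w4 w5 (fun v' a b => ih d hd (1 - p) (by omega) v' a b)
        (4 * l + M) 0 _ (by unfold drounds; omega) e1 e2 ((chain_card_le _ _).trans (by omega))

end chain

theorem claimChain : ClaimChain := by
  intro l D M chk Rel hl hC
  have e1 : regv l 0 (fun _ => false) = List.replicate l false := by
    unfold regv; simp
  have e2 : cpv l 0 (fun _ => false) = List.replicate l false := by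
    unfold cpv; simp
  constructor
  · intro h
    have := (chain_sound hl hC h).1 0 (by norm_num) rfl (e1.trans e2.symm)
    rwa [e1] at this
  · intro h
    exact chain_complete hl hC h 0 (by norm_num) _ e1 e2

end Pool.Agent.Work.MP_817c3f_lc
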