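import Pool.Agent.Work.MP_817c3f_lc.Core

/-!
# Module B: the check formulas of a polynomial-time relation
-/

set_option autoImplicit false

namespace Pool.Agent.Work.MP_817c3f_lc

open Pool.Agent.PT Turing Function

namespace CheckAux

theorem satBy_eqcl {ν : Type} (v : ν → Bool) (a b : ν) :
    SatBy v [[(false, a), (true, b)], [(true, a), (false, b)]] ↔ v a = v b := by
  unfold SatBy
  cases ha : v a <;> cases hb : v b <;> simp [ha, hb]

theorem satBy_eqcl' (v : Vr → Bool) (a b : Vr) : SatBy v (eqcl a b) ↔ v a = v b :=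
  satBy_eqcl v a b

theorem satBy_prot (v : Vr → Bool) (l p : ℕ) : SatBy v (prot l p) ↔ regv l p v = cpv l p v := by
  unfold prot regv cpv
  rw [satBy_flatMap]
  constructor
  · intro h
    refine List.map_congr_left fun j hj => ?_
    exact (satBy_eqcl' v _ _).1 (h j hj)
  · intro h j hj
    refine (satBy_eqcl' v _ _).2 ?_
    exact (List.map_inj_left.1 h) j hj

theorem mem_dvars_reg {l M t j : ℕ} (ht : t < 4) (hj : j < l) : (t + 1, j) ∈ dvars l M := by
  unfold dvars
  refine List.mem_cons_of_mem _ (List.mem_append_left _ ?_)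
  exact List.mem_flatMap.2 ⟨t, List.mem_range.2 ht, List.mem_map.2 ⟨j, List.mem_range.2 hj, rfl⟩⟩

theorem mem_dvars_aux {l M k : ℕ} (hk : k < M) : (5, k) ∈ dvars l M := by
  unfold dvars
  refine List.mem_cons_of_mem _ (List.mem_append_right _ ?_)
  exact List.mem_map.2 ⟨k, List.mem_range.2 hk, rfl⟩

/-- The check formulas. -/
def chkF (l : ℕ) (φ : List (List (Bool × ℕ))) (inp : ℕ → ℕ) (p : ℕ) :
    List (List (Bool × Vr)) :=
  prot l (1 - p) ++ ((List.range l).flatMap (fun j =>
    eqcl (5, inp j) (1 + 2 * p, j) ++ eqcl (5, inp (l + j)) (1 + 2 * (1 - p), j)) ++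
    φ.map (fun c => c.map (fun x => (x.1, ((5 : ℕ), x.2)))))

theorem satBy_rename (v : Vr → Bool) (φ : List (List (Bool × ℕ))) :
    SatBy v (φ.map (fun c => c.map (fun x => (x.1, ((5 : ℕ), x.2))))) ↔
      SatBy (fun k => v (5, k)) φ := by
  unfold SatBy
  simp [List.mem_map]

theorem satBy_chkF (v : Vr → Bool) (l : ℕ) (φ : List (List (Bool × ℕ))) (inp : ℕ → ℕ) (p : ℕ) :
    SatBy v (chkF l φ inp p) ↔ regv l (1 - p) v = cpv l (1 - p) v ∧
      (∀ j < l, v (5, inp j) = v (1 + 2 * p, j) ∧ v (5, inp (l + j)) = v (1 + 2 * (1 - p), j)) ∧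
      SatBy (fun k => v (5, k)) φ := by
  unfold chkF
  rw [satBy_append, satBy_append, satBy_prot, satBy_flatMap, satBy_rename]
  simp only [satBy_append, satBy_eqcl', List.mem_range]

/-- Bound of the names. -/
def bnd (D l : ℕ) (φ : ℕ → List (List (Bool × ℕ))) (inp : ℕ → ℕ → ℕ) : ℕ :=
  1 + ((List.range D).map (fun d => ((φ d).flatten.map (fun x => x.2)).sum +
    ((List.range (2 * l)).map (fun j => inp d j)).sum)).sum

theorem le_sum_of_mem {L : List ℕ} {x : ℕ} (h : x ∈ L) : x ≤ L.sum :=
  List.single_le_sum (fun _ _ => Nat.zero_le _) x h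

theorem lt_bnd {D l : ℕ} {φ : ℕ → List (List (Bool × ℕ))} {inp : ℕ → ℕ → ℕ} {d : ℕ}
    (hd : d < D) {y : ℕ} (hy : y ≤ ((φ d).flatten.map (fun x => x.2)).sum +
      ((List.range (2 * l)).map (fun j => inp d j)).sum) : y < bnd D l φ inp := by
  have h := le_sum_of_mem (List.mem_map.2 ⟨d, List.mem_range.2 hd, rfl⟩ :
    (fun d => ((φ d).flatten.map (fun x => x.2)).sum +
    ((List.range (2 * l)).map (fun j => inp d j)).sum) d ∈ (List.range D).map
    (fun d => ((φ d).flatten.map (fun x => x.2)).sum +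
    ((List.range (2 * l)).map (fun j => inp d j)).sum))
  unfold bnd
  simp only at h
  omega

theorem inp_lt_bnd {D l : ℕ} {φ : ℕ → List (List (Bool × ℕ))} {inp : ℕ → ℕ → ℕ} {d j : ℕ}
    (hd : d < D) (hj : j < 2 * l) : inp d j < bnd D l φ inp := by
  refine lt_bnd hd (le_trans ?_ (Nat.le_add_left _ _))
  exact le_sum_of_mem (List.mem_map.2 ⟨j, List.mem_range.2 hj, rfl⟩)

theorem name_lt_bnd {D l : ℕ} {φ : ℕ → List (List (Bool × ℕ))} {inp : ℕ → ℕ → ℕ} {d : ℕ}
    (hd : d < D) {c : List (Bool × ℕ)} (hc : c ∈ φ d) {x : Bool × ℕ} (hx : x ∈ c) :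
    x.2 < bnd D l φ inp := by
  refine lt_bnd hd (le_trans ?_ (Nat.le_add_right _ _))
  exact le_sum_of_mem (List.mem_map.2 ⟨x, List.mem_flatten.2 ⟨c, hc, hx⟩, rfl⟩)

theorem getD_append_reg (l p q : ℕ) (v : Vr → Bool) (j : ℕ) (hj : j < l) :
    (regv l p v ++ regv l q v).getD j false = v (1 + 2 * p, j) := by
  unfold regv
  rw [List.getD_append _ _ _ _ (by simpa using hj), List.getD_eq_getElem _ _ (by simpa using hj)]
  simp

theorem length_regv (l p : ℕ) (v : Vr → Bool) : (regv l p v).length = l := by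
  simp [regv]

theorem getD_append_right' (x y : List Bool) (l j : ℕ) (hx : x.length = l) :
    (x ++ y).getD (l + j) false = y.getD j false := by
  rw [List.getD_append_right _ _ _ _ (by omega)]
  congr 1
  omega

theorem getD_append_left' (x y : List Bool) (l j : ℕ) (hx : x.length = l) (hj : j < l) :
    (x ++ y).getD j false = x.getD j false :=
  List.getD_append _ _ _ _ (by omega)

theorem getD_regv (l p : ℕ) (v : Vr → Bool) (j : ℕ) (hj : j < l) :
    (regv l p v).getD j false = v (1 + 2 * p, j) := by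
  unfold regv
  rw [List.getD_eq_getElem _ _ (by simpa using hj)]
  simp

theorem regv_eq_of (l p : ℕ) (v : Vr → Bool) (y : List Bool) (hy : y.length = l)
    (h : ∀ j < l, v (1 + 2 * p, j) = y.getD j false) : regv l p v = y := by
  refine List.ext_getElem (by rw [length_regv, hy]) fun j h1 h2 => ?_
  have hj : j < l := by rw [length_regv] at h1; exact h1
  have h3 := h j hj
  rw [← getD_regv l p v j hj, List.getD_eq_getElem _ _ h1, List.getD_eq_getElem _ _ h2] at h3
  exact h3

theorem cpv_eq_of (l p : ℕ) (v : Vr → Bool) (y : List Bool) (hy : y.length = l)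
    (h : ∀ j < l, v (2 + 2 * p, j) = y.getD j false) : cpv l p v = y := by
  have hl : (cpv l p v).length = l := by simp [cpv]
  refine List.ext_getElem (by rw [hl, hy]) fun j h1 h2 => ?_
  have hj : j < l := by rw [hl] at h1; exact h1
  have h3 := h j hj
  rw [List.getD_eq_getElem _ _ h2] at h3
  rw [← h3]
  simp [cpv]

theorem prot_vars (l M p : ℕ) (hp : p < 2) : ∀ c ∈ prot l p, ∀ x ∈ c,
    x.2 ∈ dvars l M ∧ x.2 ≠ (0, 0) := by
  intro c hc x hx
  unfold prot at hc
  obtain ⟨j, hj, hc⟩ := List.mem_flatMap.1 hc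
  have hj' := List.mem_range.1 hj
  have h1 : ((1 + 2 * p, j) : Vr) ∈ dvars l M := by
    have := mem_dvars_reg (l := l) (M := M) (t := 2 * p) (j := j) (by omega) hj'
    rwa [Nat.add_comm] at this
  have h2 : ((2 + 2 * p, j) : Vr) ∈ dvars l M := by
    have := mem_dvars_reg (l := l) (M := M) (t := 1 + 2 * p) (j := j) (by omega) hj'
    rwa [show 1 + 2 * p + 1 = 2 + 2 * p by omega] at this
  unfold eqcl at hc
  simp only [List.mem_cons, List.not_mem_nil, or_false] at hc
  rcases hc with rfl | rfl <;> simp only [List.mem_cons, List.not_mem_nil, or_false] at hx <;>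
    rcases hx with rfl | rfl
  · exact ⟨h1, by simp⟩
  · exact ⟨h2, by simp⟩
  · exact ⟨h1, by simp⟩
  · exact ⟨h2, by simp⟩

end CheckAux

open CheckAux

theorem claimCheck (h : ClaimCirc) : ClaimCheck := by
  intro α _ l D R hl hD hR hpos
  have hm : PTF (fun q : α × ℕ => 2 * l q.1) := by
    have := hl.comp (PTF.fst (α := α) (β := ℕ))
    exact (PTF.const 2).mul this
  obtain ⟨φ, inp, hφ, hinp, hinj, hcirc⟩ := h (α × ℕ) inferInstance R
    (fun q => 2 * l q.1) hR hm
  refine ⟨fun a => bnd (D a) (l a) (fun d => φ (a, d)) (fun d j => inp (a, d) j),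
    fun a p d => chkF (l a) (φ (a, d)) (fun j => inp (a, d) j) p, ?_, ?_, ?_⟩
  · unfold bnd
    have h1 : PTF (fun z : α × ℕ => ((φ z).flatten.map (fun x => x.2)).sum) := by fun_prop
    have h2 : PTF (fun z : α × ℕ => ((List.range (2 * l z.1)).map (fun j => inp z j)).sum) := by
      fun_prop
    have h3 : PTF (fun z : α × ℕ => ((φ z).flatten.map (fun x => x.2)).sum +
      ((List.range (2 * l z.1)).map (fun j => inp z j)).sum) := h1.add h2
    have h4 : PTF (fun a : α => (List.range (D a)).map (fun d =>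
        ((φ (a, d)).flatten.map (fun x => x.2)).sum +
      ((List.range (2 * l a)).map (fun j => inp (a, d) j)).sum)) :=
      PTF.map' (f := fun (a : α) (d : ℕ) => ((φ (a, d)).flatten.map (fun x => x.2)).sum +
      ((List.range (2 * l a)).map (fun j => inp (a, d) j)).sum) h3 hD.range
    exact (PTF.const 1).add h4.sum
  · unfold chkF prot eqcl
    have hl' : PTF (fun q : α × ℕ × ℕ => l q.1) := hl.comp PTF.fst
    have hφ' : PTF (fun q : α × ℕ × ℕ => φ (q.1, q.2.2)) :=
      hφ.comp (PTF.fst.pair (PTF.snd.comp PTF.snd))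
    have hinp1 : PTF (fun q : (α × ℕ × ℕ) × ℕ => inp (q.1.1, q.1.2.2) q.2) :=
      hinp.comp (g := fun q : (α × ℕ × ℕ) × ℕ => ((q.1.1, q.1.2.2), q.2)) (by fun_prop)
    have hinp2 : PTF (fun q : (α × ℕ × ℕ) × ℕ => inp (q.1.1, q.1.2.2) (l q.1.1 + q.2)) :=
      hinp.comp (g := fun q : (α × ℕ × ℕ) × ℕ => ((q.1.1, q.1.2.2), l q.1.1 + q.2)) (by fun_prop)
    refine PTF.append ?_ (PTF.append ?_ ?_)
    · fun_prop
    · refine PTF.flatMap' (f := fun (q : α × ℕ × ℕ) (j : ℕ) =>
        [[(false, (5, inp (q.1, q.2.2) j)), (true, (1 + 2 * q.2.1, j))],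
        [(true, (5, inp (q.1, q.2.2) j)), (false, (1 + 2 * q.2.1, j))]] ++
        [[(false, (5, inp (q.1, q.2.2) (l q.1 + j))), (true, (1 + 2 * (1 - q.2.1), j))],
        [(true, (5, inp (q.1, q.2.2) (l q.1 + j))), (false, (1 + 2 * (1 - q.2.1), j))]]) ?_
        hl'.range
      fun_prop
    · fun_prop
  · intro a
    refine ⟨?_, ?_, ?_, ?_⟩
    · -- variables
      intro p hp d hd c hc x hx
      unfold chkF at hc
      rcases List.mem_append.1 hc with hc | hc
      · exact prot_vars _ _ _ (by omega) c hc x hx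
      rcases List.mem_append.1 hc with hc | hc
      · obtain ⟨j, hj, hc⟩ := List.mem_flatMap.1 hc
        have hj' := List.mem_range.1 hj
        have e1 : ((5, inp (a, d) j) : Vr) ∈ dvars (l a) (bnd (D a) (l a) (fun d => φ (a, d))
            (fun d j => inp (a, d) j)) :=
          mem_dvars_aux (inp_lt_bnd (inp := fun d j => inp (a, d) j) hd (by omega))
        have e2 : ((5, inp (a, d) (l a + j)) : Vr) ∈ dvars (l a) (bnd (D a) (l a)
            (fun d => φ (a, d)) (fun d j => inp (a, d) j)) :=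
          mem_dvars_aux (inp_lt_bnd (inp := fun d j => inp (a, d) j) hd (by omega))
        have e3 : ∀ p < 2, ((1 + 2 * p, j) : Vr) ∈ dvars (l a) (bnd (D a) (l a)
            (fun d => φ (a, d)) (fun d j => inp (a, d) j)) := by
          intro p hp
          have := mem_dvars_reg (l := l a) (M := bnd (D a) (l a)
            (fun d => φ (a, d)) (fun d j => inp (a, d) j)) (t := 2 * p) (j := j) (by omega) hj'
          rwa [Nat.add_comm] at this
        unfold eqcl at hc
        simp only [List.mem_append, List.mem_cons, List.not_mem_nil, or_false] at hc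
        rcases hc with (rfl | rfl) | (rfl | rfl) <;>
          simp only [List.mem_cons, List.not_mem_nil, or_false] at hx <;>
          rcases hx with rfl | rfl
        · exact ⟨e1, by simp⟩
        · exact ⟨e3 p hp, by simp⟩
        · exact ⟨e1, by simp⟩
        · exact ⟨e3 p hp, by simp⟩
        · exact ⟨e2, by simp⟩
        · exact ⟨e3 (1 - p) (by omega), by simp⟩
        · exact ⟨e2, by simp⟩
        · exact ⟨e3 (1 - p) (by omega), by simp⟩
      · obtain ⟨c', hc', rfl⟩ := List.mem_map.1 hc
        obtain ⟨x', hx', rfl⟩ := List.mem_map.1 hx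
        exact ⟨mem_dvars_aux (name_lt_bnd (φ := fun d => φ (a, d)) hd hc' hx'), by simp⟩
    · -- soundness
      intro p hp d hd v hv
      rw [satBy_chkF] at hv
      obtain ⟨h1, h2, h3⟩ := hv
      refine ⟨h1, length_regv _ _ _, length_regv _ _ _, ?_⟩
      refine (hcirc (a, d) (regv (l a) p v ++ regv (l a) (1 - p) v) (by
        rw [List.length_append, length_regv, length_regv]; show l a + l a = 2 * l a; omega)).2
        ⟨fun k => v (5, k), h3, fun j hj => ?_⟩
      show v (5, inp (a, d) j) = _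
      rcases Nat.lt_or_ge j (l a) with hj' | hj'
      · rw [getD_append_left' _ _ _ _ (length_regv _ _ _) hj', getD_regv _ _ _ _ hj']
        exact (h2 j hj').1
      · obtain ⟨i, rfl⟩ := Nat.exists_eq_add_of_le hj'
        have hj2 : l a + i < 2 * l a := hj
        have hi : i < l a := by omega
        rw [getD_append_right' _ _ _ _ (length_regv _ _ _), getD_regv _ _ _ _ hi]
        exact (h2 i hi).2
    · intro d x y hxy
      exact hxy.2.1
    · -- completeness
      intro p hp d hd v y hv hrel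
      obtain ⟨-, hy, hR'⟩ := hrel
      obtain ⟨v', h3, h4⟩ := (hcirc (a, d) (regv (l a) p v ++ y) (by
        rw [List.length_append, length_regv, hy]; show _ = 2 * l a; omega)).1 hR'
      let w : Vr → Bool := fun z => if z.1 = 5 then v' z.2
        else if z.1 = 1 + 2 * (1 - p) ∨ z.1 = 2 + 2 * (1 - p) then y.getD z.2 false else v z
      have w5 : ∀ k, w (5, k) = v' k := fun k => by simp [w]
      have wr : ∀ j, w (1 + 2 * (1 - p), j) = y.getD j false := fun j => by
        show (if 1 + 2 * (1 - p) = 5 then v' j else if 1 + 2 * (1 - p) = 1 + 2 * (1 - p) ∨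
          1 + 2 * (1 - p) = 2 + 2 * (1 - p) then y.getD j false else v (1 + 2 * (1 - p), j)) = _
        rw [if_neg (by omega), if_pos (Or.inl rfl)]
      have wc : ∀ j, w (2 + 2 * (1 - p), j) = y.getD j false := fun j => by
        show (if 2 + 2 * (1 - p) = 5 then v' j else if 2 + 2 * (1 - p) = 1 + 2 * (1 - p) ∨
          2 + 2 * (1 - p) = 2 + 2 * (1 - p) then y.getD j false else v (2 + 2 * (1 - p), j)) = _
        rw [if_neg (by omega), if_pos (Or.inr rfl)]
      have wr' : ∀ j, w (1 + 2 * p, j) = v (1 + 2 * p, j) := fun j => by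
        simp only [w]
        rw [if_neg (by omega), if_neg (by omega)]
      have wc' : ∀ j, w (2 + 2 * p, j) = v (2 + 2 * p, j) := fun j => by
        simp only [w]
        rw [if_neg (by omega), if_neg (by omega)]
      have e1 : regv (l a) (1 - p) w = y := regv_eq_of _ _ _ _ hy fun j _ => wr j
      have e2 : cpv (l a) (1 - p) w = y := cpv_eq_of _ _ _ _ hy fun j _ => wc j
      refine ⟨w, ?_, ?_, e1, e2, ?_⟩
      · unfold regv
        exact List.map_congr_left fun j _ => wr' j
      · unfold cpv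
        exact List.map_congr_left fun j _ => wc' j
      · rw [satBy_chkF]
        refine ⟨e1.trans e2.symm, fun j hj => ⟨?_, ?_⟩, ?_⟩
        · rw [w5, wr', h4 j (by show j < 2 * l a; omega),
            getD_append_left' _ _ _ _ (length_regv _ _ _) hj, getD_regv _ _ _ _ hj]
        · rw [w5, wr, h4 (l a + j) (by show l a + j < 2 * l a; omega),
            getD_append_right' _ _ _ _ (length_regv _ _ _)]
        · have : (fun k => w (5, k)) = v' := funext w5
          rw [this]
          exact h3

end Pool.Agent.Work.MP_817c3f_lc
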