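import Mathlib

/-!
# Edge Blocking: the game, its encoding, and the class EXPTIME

A position is a finite directed graph `(V, E)` on `V = {0, ..., n-1}`, subsets `EL`, `ER` of the
edges (Left's and Right's), the set of occupied vertices and the player to move. Edge sets are
given by their adjacency matrices.
-/

set_option autoImplicit false

namespace Pool.Agent.Work.MP_817c3f_lc

open Turing

/-- A finite directed graph with edge set `E` and two specified subsets `EL`, `ER` of it. -/
structure Board where
  /-- the number of vertices -/
  n : ℕ
  /-- the edges -/
  E : Fin n → Fin n → Bool
  /-- the edges which Left may use -/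
  EL : Fin n → Fin n → Bool
  /-- the edges which Right may use -/
  ER : Fin n → Fin n → Bool
  subL : ∀ u v, EL u v = true → E u v = true
  subR : ∀ u v, ER u v = true → E u v = true

/-- The player `b` (`true` is Left, `false` is Right) may move the token on `u` to `v`. -/
def Board.Legal (B : Board) (b : Bool) (occ : Fin B.n → Bool) (u v : Fin B.n) : Prop :=
  (bif b then B.EL u v else B.ER u v) = true ∧ occ u = true ∧ occ v = false

/-- The occupied vertices after the token on `u` has moved to `v`. -/
def moveTok {n : ℕ} (occ : Fin n → Bool) (u v : Fin n) : Fin n → Bool :=
  Function.update (Function.update occ u false) v true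

/-- Player `b`, who is to move, can force a win (in finitely many moves): there is a legal move
after which every legal reply of the opponent leads again to such a situation. In particular a
move after which the opponent has no legal reply wins at once. -/
inductive Board.Wins (B : Board) : Bool → (Fin B.n → Bool) → Prop
  | intro (b : Bool) (occ : Fin B.n → Bool) (u v : Fin B.n) (hl : B.Legal b occ u v)
      (h : ∀ u' v', B.Legal (!b) (moveTok occ u v) u' v' →
        B.Wins b (moveTok (moveTok occ u v) u' v')) : B.Wins b occ

/-- A position of Edge Blocking. -/
structure Position extends Board where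
  /-- the occupied vertices -/
  occ : Fin n → Bool
  /-- `true` if Left is to move -/
  left : Bool

/-- The player to move wins. -/
def Position.MoverWins (P : Position) : Prop := P.toBoard.Wins P.left P.occ

/-- The other player wins: after every legal move (if there is any) the opponent, who is then to
move, can force a win. -/
def Position.OtherWins (P : Position) : Prop :=
  ∀ u v, P.toBoard.Legal P.left P.occ u v → P.toBoard.Wins (!P.left) (moveTok P.occ u v)

/-- The three possible results. -/
inductive Outcome
  | mover
  | other
  | draw
  deriving DecidableEq

open Classical in
/-- The result under optimal play. -/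
noncomputable def Position.outcome (P : Position) : Outcome :=
  if P.MoverWins then .mover else if P.OtherWins then .other else .draw

/-! ### Encoding -/

/-- The rows of an adjacency matrix. -/
def matBits {n : ℕ} (M : Fin n → Fin n → Bool) : List Bool :=
  (List.finRange n).flatMap (fun u => (List.finRange n).map (fun v => M u v))

/-- The encoding of a position as a bit string: the number of vertices in unary, the adjacency
matrices of `E`, `EL` and `ER`, the occupied vertices, the player to move. -/
def Position.encode (P : Position) : List Bool :=
  List.replicate P.n true ++ (false :: (matBits P.E ++ (matBits P.EL ++ (matBits P.ER ++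
    ((List.finRange P.n).map P.occ ++ [P.left])))))

/-- Code of a result. -/
def Outcome.code : Outcome → List Bool
  | .mover => [true, false]
  | .other => [false, true]
  | .draw => [false, false]

open Classical in
/-- The outcome problem as a function on bit strings (the empty string for a string which is not
the code of a position). -/
noncomputable def outcomeFun (x : List Bool) : List Bool :=
  if h : ∃ P : Position, P.encode = x then h.choose.outcome.code else []

/-- The decision version: codes of the positions in which the player to move wins. -/
def MoverWinsLang : Set (List Bool) := {x | ∃ P : Position, P.encode = x ∧ P.MoverWins}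

/-! ### Complexity classes (Mathlib's multi-stack Turing machines) -/

/-- The function on bit strings is computed in time `2 ^ p(n)` for a polynomial `p`. -/
def ExpTimeFun (f : List Bool → List Bool) : Prop :=
  ∃ (p : Polynomial ℕ)
    (M : TM2ComputableInTime (fun x : List Bool => x) (fun y : List Bool => y) f),
    ∀ n, M.time n ≤ 2 ^ p.eval n

/-- The class EXPTIME of languages decided in time `2 ^ p(n)` for a polynomial `p`. -/
def EXPTIME : Set (Set (List Bool)) :=
  {L | ∃ (p : Polynomial ℕ) (f : List Bool → Bool)
    (M : TM2ComputableInTime (fun x : List Bool => x) (fun b : Bool => [b]) f),
    (∀ x, x ∈ L ↔ f x = true) ∧ ∀ n, M.time n ≤ 2 ^ p.eval n}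

/-- `f` is computed in polynomial time. -/
def PolyTimeFun (f : List Bool → List Bool) : Prop :=
  Nonempty (TM2ComputableInPolyTime (fun x : List Bool => x) (fun y : List Bool => y) f)

/-- Polynomial-time many-one reducibility. -/
def Reduces (L L' : Set (List Bool)) : Prop :=
  ∃ f : List Bool → List Bool, PolyTimeFun f ∧ ∀ x, x ∈ L ↔ f x ∈ L'

/-- EXPTIME-completeness under polynomial-time many-one reductions. -/
def ExpTimeComplete (L : Set (List Bool)) : Prop :=
  L ∈ EXPTIME ∧ ∀ L' ∈ EXPTIME, Reduces L' L

/-! ### Main statements -/

/-- Hardness in a strong form. -/
def Hardness : Prop :=
  ∀ L ∈ EXPTIME, ∃ f : List Bool → List Bool, PolyTimeFun f ∧ ∀ x, ∃ P : Position,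
    f x = P.encode ∧ P.left = true ∧ (x ∈ L → P.outcome = .mover) ∧ (x ∉ L → P.outcome = .draw)

/-- Membership. -/
def Membership : Prop := ExpTimeFun outcomeFun ∧ MoverWinsLang ∈ EXPTIME

end Pool.Agent.Work.MP_817c3f_lc
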