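import Pool.Agent.Work.PT.Auto
import Pool.Agent.Work.PT.Tableau
import Pool.Agent.Work.PT.Clock
import Pool.Agent.Work.PT.Bridge
import Pool.Agent.Work.PT.Fpt
import Pool.Agent.Work.MP_817c3f_lc.Defs

/-!
# Core definitions of the hardness proof, and the statements of the modules
-/

set_option autoImplicit false

namespace Pool.Agent.Work.MP_817c3f_lc

open Pool.Agent.PT Turing Function

/-! ### Flip games -/

/-- Change the value of the variable `x`. -/
def flipAt {ν : Type} [DecidableEq ν] (v : ν → Bool) (x : ν) : ν → Bool := update v x (!(v x))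

/-- A flip game: Boolean variables, stages, for each stage the literals and the next stages. -/
structure FG (ν σ : Type) where
  /-- the variables which Left may flip -/
  vars : List ν
  /-- the stages -/
  stages : List σ
  /-- literals of a stage: if one of them is true, Left wins -/
  lits : σ → List (Bool × ν)
  /-- the stages to which Right may go -/
  next : σ → List σ

/-- Left, who is to move, wins: some literal of the stage is true, or Left flips one variable and
wins at every next stage. -/
inductive FG.Win {ν σ : Type} [DecidableEq ν] (G : FG ν σ) : (ν → Bool) → σ → Prop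
  | lit (v : ν → Bool) (s : σ) (l : Bool × ν) (hl : l ∈ G.lits s) (h : v l.2 = l.1) : G.Win v s
  | flip (v : ν → Bool) (s : σ) (x : ν) (hx : x ∈ G.vars)
      (h : ∀ s' ∈ G.next s, G.Win (flipAt v x) s') : G.Win v s

/-- Well-formed flip games. -/
structure FG.WF {ν σ : Type} (G : FG ν σ) : Prop where
  vars_nodup : G.vars.Nodup
  vars_ne : G.vars ≠ []
  stages_nodup : G.stages.Nodup
  lits_vars : ∀ s ∈ G.stages, ∀ l ∈ G.lits s, l.2 ∈ G.vars
  next_stages : ∀ s ∈ G.stages, ∀ s' ∈ G.next s, s' ∈ G.stages
  next_ne : ∀ s ∈ G.stages, s ∉ G.next s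

/-! ### The position of a flip game -/

/-- Names of vertices: `(some (x, b), none)` is the memory vertex of `x` for the value `b`,
`(none, some s)` is the control vertex of the stage `s`. -/
abbrev Vtx (ν σ : Type) := Option (ν × Bool) × Option σ

section pos

variable {ν σ : Type} [DecidableEq ν] [DecidableEq σ]

/-- The list of the vertices. -/
def FG.verts (G : FG ν σ) : List (Vtx ν σ) :=
  G.vars.flatMap (fun x => [(some (x, false), none), (some (x, true), none)]) ++
    G.stages.map (fun s => (none, some s))

/-- Left's edges: between the two memory vertices of a variable, and from the control vertex of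
`s` to the memory vertex `(x, !b)` for each literal `(b, x)` of `s`. -/
def FG.eL (G : FG ν σ) (a b : Vtx ν σ) : Bool :=
  match b.1 with
  | none => false
  | some y => match a.1 with
    | some x => decide (x.1 = y.1) && (x.2 != y.2)
    | none => match a.2 with
      | none => false
      | some s => decide ((!y.2, y.1) ∈ G.lits s)

/-- Right's edges: from the control vertex of `s` to those of the next stages. -/
def FG.eR (G : FG ν σ) (a b : Vtx ν σ) : Bool :=
  match a.2 with
  | none => false
  | some s => match b.2 with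
    | none => false
    | some s' => decide (s' ∈ G.next s)

/-- The occupied vertices at the valuation `v` and the stage `s`. -/
def FG.occV (v : ν → Bool) (s : σ) (a : Vtx ν σ) : Bool :=
  match a.1 with
  | some x => v x.1 == x.2
  | none => decide (a.2 = some s)

/-- The position of Edge Blocking. -/
def FG.toPos (G : FG ν σ) (v : ν → Bool) (s : σ) : Position where
  n := G.verts.length
  E i j := G.eL (G.verts.get i) (G.verts.get j) || G.eR (G.verts.get i) (G.verts.get j)
  EL i j := G.eL (G.verts.get i) (G.verts.get j)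
  ER i j := G.eR (G.verts.get i) (G.verts.get j)
  subL := fun _ _ h => Bool.or_eq_true_iff.2 (Or.inl h)
  subR := fun _ _ h => Bool.or_eq_true_iff.2 (Or.inr h)
  occ i := FG.occV v s (G.verts.get i)
  left := true

end pos

/-- **Module G1**. The gadget. -/
def ClaimGadget : Prop :=
  ∀ (ν σ : Type) (_ : DecidableEq ν) (_ : DecidableEq σ) (G : FG ν σ), G.WF →
    ∀ (v : ν → Bool) (s : σ), s ∈ G.stages →
      ((G.toPos v s).MoverWins ↔ G.Win v s) ∧ ¬ (G.toPos v s).OtherWins

/-- **Module G2**. The code of the position is computed in polynomial time. -/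
def ClaimCode : Prop :=
  ∀ (α ν σ : Type) (_ : Enc α) (_ : Enc ν) (_ : Enc σ) (_ : DecidableEq ν) (_ : DecidableEq σ)
    (G : α → FG ν σ) (v : α → ν → Bool) (s : α → σ),
    PTF (fun a => (G a).vars) → PTF (fun a => (G a).stages) →
    PTF (fun p : α × σ => (G p.1).lits p.2) → PTF (fun p : α × σ => (G p.1).next p.2) →
    PTF (fun p : α × ν => v p.1 p.2) → PTF s →
      PTF (fun a => ((G a).toPos (v a) (s a)).encode)

/-! ### Dialogues -/

/-- The dialogue game: Right chooses a question `d < D` about the claim `x`, Left answers with a new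
claim `y` such that `Rel d x y`; Left wins when the claim starts with `true`. -/
inductive Dlg (D : ℕ) (Rel : ℕ → List Bool → List Bool → Prop) : List Bool → Prop
  | acc (x : List Bool) (h : x.headD false = true) : Dlg D Rel x
  | step (x : List Bool) (y : ℕ → List Bool) (h : ∀ d < D, Rel d x (y d))
      (h' : ∀ d < D, Dlg D Rel (y d)) : Dlg D Rel x

/-- Names of variables. -/
abbrev Vr := ℕ × ℕ

/-- Names of stages. -/
abbrev Sg := ℕ × ℕ × ℕ

/-- Two variables have the same value. -/
def eqcl (a b : Vr) : List (List (Bool × Vr)) := [[(false, a), (true, b)], [(true, a), (false, b)]]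

/-- The register `p` is equal to its copy. -/
def prot (l p : ℕ) : List (List (Bool × Vr)) :=
  (List.range l).flatMap (fun j => eqcl (1 + 2 * p, j) (2 + 2 * p, j))

/-- The variables: the dummy `(0, 0)`, register `p` at `(1 + 2 * p, j)`, its copy at
`(2 + 2 * p, j)`, auxiliary variables `(5, k)`. -/
def dvars (l M : ℕ) : List Vr :=
  (0, 0) :: ((List.range 4).flatMap (fun t => (List.range l).map (fun j => (t + 1, j))) ++
    (List.range M).map (fun k => (5, k)))

/-- The number of rounds. -/
def drounds (l M : ℕ) : ℕ := 4 * l + M + 1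

/-- The stages of the dialogue flip game (registers of length `l`, `D` questions, auxiliary
variables up to `M`, check formulas `chk p d`):
* `(0, b, 0)`, `b < 2`: sinks;
* `(1, p, 0)`, `p < 2`: the claim is in register `p`, Right is going to choose a question;
* `(2 + p, d, r)`: question `d` about register `p`, round `r`;
* `(4 + p, d, i)`: clause `i` of `chk p d`;
* `(6 + p, 0, i)`: clause `i` of `prot l p`. -/
def dstages (l D M : ℕ) (chk : ℕ → ℕ → List (List (Bool × Vr))) : List Sg :=
  [(0, 0, 0), (0, 1, 0), (1, 0, 0), (1, 1, 0)] ++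
  ((List.range 2).flatMap (fun p => (List.range D).flatMap (fun d =>
    (List.range (drounds l M)).map (fun r => (2 + p, d, r)))) ++
  ((List.range 2).flatMap (fun p => (List.range D).flatMap (fun d =>
    (List.range (chk p d).length).map (fun i => (4 + p, d, i)))) ++
  (List.range 2).flatMap (fun p => (List.range (prot l p).length).map (fun i => (6 + p, 0, i)))))

/-- Literals of a stage. -/
def dlits (l : ℕ) (chk : ℕ → ℕ → List (List (Bool × Vr))) (s : Sg) : List (Bool × Vr) :=
  if s.1 = 1 then [(true, (1 + 2 * s.2.1, 0))]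
  else if s.1 = 4 ∨ s.1 = 5 then (chk (s.1 - 4) s.2.1).getD s.2.2 []
  else if s.1 = 6 ∨ s.1 = 7 then (prot l (s.1 - 6)).getD s.2.2 []
  else []

/-- Next stages. -/
def dnext (l D M : ℕ) (chk : ℕ → ℕ → List (List (Bool × Vr))) (s : Sg) : List Sg :=
  if s.1 = 0 then [(0, 1 - s.2.1, 0)]
  else if s.1 = 1 then
    (List.range (prot l s.2.1).length).map (fun i => (6 + s.2.1, 0, i)) ++
      (List.range D).map (fun d => (2 + s.2.1, d, 0))
  else if s.1 = 2 ∨ s.1 = 3 then
    (List.range (prot l (s.1 - 2)).length).map (fun i => (6 + (s.1 - 2), 0, i)) ++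
      (if s.2.2 + 1 < drounds l M then [(s.1, s.2.1, s.2.2 + 1)]
      else (List.range (chk (s.1 - 2) s.2.1).length).map (fun i => (4 + (s.1 - 2), s.2.1, i)) ++
        [(1, 1 - (s.1 - 2), 0)])
  else [(0, 0, 0)]

/-- The dialogue flip game. -/
def dfg (l D M : ℕ) (chk : ℕ → ℕ → List (List (Bool × Vr))) : FG Vr Sg where
  vars := dvars l M
  stages := dstages l D M chk
  lits := dlits l chk
  next := dnext l D M chk

/-- Contents of the register `p`. -/
def regv (l p : ℕ) (v : Vr → Bool) : List Bool := (List.range l).map (fun j => v (1 + 2 * p, j))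

/-- Contents of the copy of the register `p`. -/
def cpv (l p : ℕ) (v : Vr → Bool) : List Bool := (List.range l).map (fun j => v (2 + 2 * p, j))

/-- The check formulas describe the relation `Rel`. -/
structure ChkOK (l D M : ℕ) (chk : ℕ → ℕ → List (List (Bool × Vr)))
    (Rel : ℕ → List Bool → List Bool → Prop) : Prop where
  /-- the variables of the formulas, the dummy does not occur -/
  vars : ∀ p < 2, ∀ d < D, ∀ c ∈ chk p d, ∀ x ∈ c, x.2 ∈ dvars l M ∧ x.2 ≠ (0, 0)
  sound : ∀ p < 2, ∀ d < D, ∀ v, SatBy v (chk p d) →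
    regv l (1 - p) v = cpv l (1 - p) v ∧ Rel d (regv l p v) (regv l (1 - p) v)
  len : ∀ d x y, Rel d x y → y.length = l
  complete : ∀ p < 2, ∀ d < D, ∀ (v : Vr → Bool) (y : List Bool), regv l p v = cpv l p v →
    Rel d (regv l p v) y → ∃ w : Vr → Bool, regv l p w = regv l p v ∧ cpv l p w = cpv l p v ∧
      regv l (1 - p) w = y ∧ cpv l (1 - p) w = y ∧ SatBy w (chk p d)

/-- **Module C1**. The dialogue flip game is well-formed. -/
def ClaimWF : Prop :=
  ∀ (l D M : ℕ) (chk : ℕ → ℕ → List (List (Bool × Vr))), 0 < l →
    (∀ p < 2, ∀ d < D, ∀ c ∈ chk p d, ∀ x ∈ c, x.2 ∈ dvars l M) → (dfg l D M chk).WF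

/-- **Module C2**. The dialogue flip game simulates the dialogue game. -/
def ClaimChain : Prop :=
  ∀ (l D M : ℕ) (chk : ℕ → ℕ → List (List (Bool × Vr)))
    (Rel : ℕ → List Bool → List Bool → Prop), 0 < l → ChkOK l D M chk Rel →
    ((dfg l D M chk).Win (fun _ => false) (1, 0, 0) ↔ Dlg D Rel (List.replicate l false))

/-- **Module C3**. The dialogue flip game is computed in polynomial time. -/
def ClaimDfgPtf : Prop :=
  ∀ (α : Type) (_ : Enc α) (l D M : α → ℕ) (chk : α → ℕ → ℕ → List (List (Bool × Vr))),
    PTF l → PTF D → PTF M → PTF (fun q : α × ℕ × ℕ => chk q.1 q.2.1 q.2.2) →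
    PTF (fun a => (dfg (l a) (D a) (M a) (chk a)).vars) ∧
    PTF (fun a => (dfg (l a) (D a) (M a) (chk a)).stages) ∧
    PTF (fun p : α × Sg => (dfg (l p.1) (D p.1) (M p.1) (chk p.1)).lits p.2) ∧
    PTF (fun p : α × Sg => (dfg (l p.1) (D p.1) (M p.1) (chk p.1)).next p.2)

/-! ### Circuits (a version of the Cook-Levin theorem with input variables) -/

/-- **Module A**. Formulas for polynomial-time predicates on strings of given length: `inp a j` is
the name of the variable which holds the input bit `j`. -/
def ClaimCirc : Prop :=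
  ∀ (α : Type) (_ : Enc α) (R : α × List Bool → Bool) (m : α → ℕ), PTF R → PTF m →
    ∃ (φ : α → List (List (Bool × ℕ))) (inp : α → ℕ → ℕ), PTF φ ∧
      PTF (fun p : α × ℕ => inp p.1 p.2) ∧ (∀ a i j, inp a i = inp a j → i = j) ∧
      ∀ a u, u.length = m a → (R (a, u) = true ↔
        ∃ v : ℕ → Bool, SatBy v (φ a) ∧ ∀ j < m a, v (inp a j) = u.getD j false)

/-- **Module B**. The check formulas of a polynomial-time relation. -/
def ClaimCheck : Prop :=
  ∀ (α : Type) (_ : Enc α) (l D : α → ℕ) (R : (α × ℕ) × List Bool → Bool),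
    PTF l → PTF D → PTF R → (∀ a, 0 < l a) →
    ∃ (M : α → ℕ) (chk : α → ℕ → ℕ → List (List (Bool × Vr))), PTF M ∧
      PTF (fun q : α × ℕ × ℕ => chk q.1 q.2.1 q.2.2) ∧
      ∀ a, ChkOK (l a) (D a) (M a) (chk a) (fun d x y => x.length = l a ∧ y.length = l a ∧
        R ((a, d), x ++ y) = true)

/-! ### Exponential time machines -/

/-- **Module E**. A language in EXPTIME is decided by a stack program within `2 ^ q - 1` small steps
(the program stays at the empty continuation at the end). -/
def ClaimExp : Prop :=
  ∀ L ∈ EXPTIME, ∃ (K : Type) (_ : Fintype K) (_ : DecidableEq K) (p : Prog K) (i o : K)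
    (q : List Bool → ℕ), PTF q ∧ ∀ x, ∃ S : Mem K,
      sstep^[2 ^ (q x) - 1] ([p], single i x) = ([], S) ∧ (x ∈ L ↔ (S o).head? = some true)

/-- **Module R**. The dialogue game of a stack program. -/
def ClaimDialogue : Prop :=
  ∀ (K : Type) (_ : Fintype K) (_ : DecidableEq K) (p : Prog K) (i o : K) (q : List Bool → ℕ),
    PTF q → ∃ (D : ℕ) (l : List Bool → ℕ) (R : (List Bool × ℕ) × List Bool → Bool),
      PTF l ∧ (∀ x, 0 < l x) ∧ PTF R ∧ ∀ x,
        (Dlg D (fun d a b => a.length = l x ∧ b.length = l x ∧ R ((x, d), a ++ b) = true)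
          (List.replicate (l x) false) ↔
        ((sstep^[2 ^ (q x) - 1] ([p], single i x)).2 o).head? = some true)

end Pool.Agent.Work.MP_817c3f_lc
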