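import Pool.Agent.Work.PT.CookLevin
import Pool.Agent.Work.MP_817c3f_lc.Core

/-!
# Module A: the Cook-Levin theorem with input variables
-/

set_option autoImplicit false
set_option linter.unusedSectionVars false
set_option linter.unusedSimpArgs false

namespace Pool.Agent.Work.MP_817c3f_lc

open Pool.Agent.PT Pool.Agent.Work.MP_46935e_lc Function

section tableau

variable {K : Type} [DecidableEq K]

theorem circ_inic_mono {Kl : List K} {p : Prog K} {i o : K} {T H : ℕ}
    {tpl tpl' : List (Option Bool)} {v : Nm → Bool}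
    (h : ∀ j < H, SatBy v (inic Kl tpl i j) → SatBy v (inic Kl tpl' i j))
    (hs : SatBy v (tab Kl p i o T H tpl)) : SatBy v (tab Kl p i o T H tpl') := by
  unfold tab at hs ⊢
  rw [satBy_append, satBy_append, satBy_append] at hs ⊢
  obtain ⟨h0, h1, h2, h3⟩ := hs
  refine ⟨h0, h1, ?_, h3⟩
  rw [satBy_flatMap] at h2 ⊢
  intro j hj
  have h4 := h2 j hj
  rw [satBy_flatMap] at h4 ⊢
  intro k hk
  have h5 := h4 k hk
  by_cases hki : k = i
  · rw [if_pos hki] at h5 ⊢
    exact h j (List.mem_range.1 hj) h5
  · rw [if_neg hki] at h5 ⊢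
    exact h5

/-- The template given by the values of the variables. -/
def circ_fill (Kl : List K) (i : K) (v : Nm → Bool) (n : ℕ) : List (Option Bool) :=
  (List.range n).map (fun j => some (v (vB Kl 0 i j)))

theorem circ_fill_length (Kl : List K) (i : K) (v : Nm → Bool) (n : ℕ) :
    (circ_fill Kl i v n).length = n := by simp [circ_fill]

theorem circ_fill_get (Kl : List K) (i : K) (v : Nm → Bool) {n j : ℕ} (hj : j < n) :
    (circ_fill Kl i v n)[j]? = some (some (v (vB Kl 0 i j))) := by
  unfold circ_fill
  rw [List.getElem?_map, List.getElem?_range hj]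
  rfl

theorem circ_sound {Kl : List K} (hKl : ∀ k, k ∈ Kl) {p : Prog K} {i o : K} {T H : ℕ}
    {tpl : List (Option Bool)} (hH : tpl.length + T < H) {v : Nm → Bool}
    (h : SatBy v (tab Kl p i o T H tpl)) :
    ∃ z, Match tpl z ∧ (∀ j < tpl.length, z.getD j false = v (vB Kl 0 i j)) ∧
      ((sstep^[T] ([p], single i z)).2 o).head? = some true := by
  have h1 : SatBy v (tab Kl p i o T H (circ_fill Kl i v tpl.length)) := by
    refine circ_inic_mono (fun j _ hin => ?_) h
    unfold inic at hin ⊢
    cases hb : tpl[j]? with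
    | none =>
      have hj' : tpl.length ≤ j := List.getElem?_eq_none_iff.1 hb
      rw [hb] at hin
      rw [List.getElem?_eq_none (by rw [circ_fill_length]; exact hj')]
      exact hin
    | some ob =>
      have hj' : j < tpl.length := by
        by_contra hcon
        rw [List.getElem?_eq_none (by omega)] at hb
        cases hb
      rw [hb] at hin
      rw [circ_fill_get Kl i v hj']
      cases ob with
      | none =>
        simp only [satBy_unitc] at hin
        simp only [satBy_append, satBy_unitc]
        exact ⟨hin, trivial⟩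
      | some b =>
        simp only [satBy_append, satBy_unitc] at hin ⊢
        exact ⟨hin.1, trivial⟩
  obtain ⟨z, hz, hacc⟩ := tab_sound hKl (by rw [circ_fill_length]; exact hH) h1
  rw [Match, circ_fill_length] at hz
  have hzj : ∀ j < tpl.length, z.getD j false = v (vB Kl 0 i j) := fun j hj =>
    hz.2 j _ (circ_fill_get Kl i v hj)
  refine ⟨z, ⟨hz.1, fun j b hb => ?_⟩, hzj, hacc⟩
  have hj' : j < tpl.length := by
    by_contra hcon
    rw [List.getElem?_eq_none (by omega)] at hb
    cases hb
  rw [hzj j hj']
  -- the template forces the value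
  unfold tab at h
  rw [satBy_append, satBy_append, satBy_append] at h
  have h2 := satBy_flatMap.1 (satBy_flatMap.1 h.2.2.1 j (List.mem_range.2 (by omega))) i (hKl i)
  rw [if_pos rfl] at h2
  unfold inic at h2
  rw [hb] at h2
  simp only [satBy_append, satBy_unitc] at h2
  exact h2.2

theorem circ_complete {Kl : List K} (hKl : ∀ k, k ∈ Kl) {p : Prog K} {i o : K} {T H : ℕ}
    {tpl : List (Option Bool)} (hH : tpl.length + T < H) {z : List Bool} (hz : Match tpl z)
    (hacc : ((sstep^[T] ([p], single i z)).2 o).head? = some true) :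
    ∃ v, SatBy v (tab Kl p i o T H tpl) ∧ ∀ j < tpl.length, v (vB Kl 0 i j) = z.getD j false := by
  have hlen := hz.1
  have hm : Match (z.map some) z := by
    refine ⟨by simp, fun j b hb => ?_⟩
    rw [List.getElem?_map] at hb
    cases hzj : z[j]? with
    | none => rw [hzj] at hb; cases hb
    | some c =>
      rw [hzj] at hb
      simp only [Option.map_some, Option.some.injEq] at hb
      rw [List.getD_eq_getElem?_getD, hzj, ← hb]
      rfl
  obtain ⟨v, hv⟩ := tab_complete hKl (tpl := z.map some)
    (by rw [List.length_map, hlen]; exact hH) hm hacc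
  have hval : ∀ j < tpl.length, v (vV Kl 0 i j) = true ∧ v (vB Kl 0 i j) = z.getD j false := by
    intro j hj
    have h := hv
    unfold tab at h
    rw [satBy_append, satBy_append, satBy_append] at h
    have h2 := satBy_flatMap.1 (satBy_flatMap.1 h.2.2.1 j (List.mem_range.2 (by omega))) i (hKl i)
    rw [if_pos rfl] at h2
    unfold inic at h2
    have hj2 : j < z.length := by omega
    have e : (z.map some)[j]? = some (some z[j]) := by
      rw [List.getElem?_map, List.getElem?_eq_getElem hj2]
      rfl
    rw [e] at h2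
    simp only [satBy_append, satBy_unitc] at h2
    rw [List.getD_eq_getElem _ _ hj2]
    exact h2
  refine ⟨v, circ_inic_mono (fun j hjH hin => ?_) hv, fun j hj => (hval j hj).2⟩
  by_cases hj : j < tpl.length
  · obtain ⟨a1, a2⟩ := hval j hj
    unfold inic
    cases hb : tpl[j]? with
    | none =>
      have hj' : tpl.length ≤ j := List.getElem?_eq_none_iff.1 hb
      omega
    | some ob =>
      cases ob with
      | none =>
        simp only [satBy_unitc]
        exact a1
      | some b =>
        simp only [satBy_append, satBy_unitc]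
        exact ⟨a1, by rw [a2]; exact hz.2 j b hb⟩
  · unfold inic at hin ⊢
    rw [List.getElem?_eq_none (by rw [List.length_map]; omega)] at hin
    rw [List.getElem?_eq_none (by omega)]
    exact hin

end tableau

theorem circ_rename {ν ν' : Type} {f : ν → ν'} (φ : List (List (Bool × ν))) (v : ν' → Bool) :
    SatBy v (rename f φ) ↔ SatBy (fun x => v (f x)) φ := by
  unfold SatBy rename
  simp only [List.mem_map, forall_exists_index, and_imp, forall_apply_eq_imp_iff₂]
  refine forall₂_congr fun c _ => ?_
  constructor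
  · rintro ⟨_, ⟨l, hl, rfl⟩, h⟩
    exact ⟨l, hl, h⟩
  · rintro ⟨l, hl, h⟩
    exact ⟨_, ⟨l, hl, rfl⟩, h⟩

/-- The tree read from a raw input. -/
def circ_inner (z : List Bool) : D := D.cons (parse (dec2 z).1) (Enc.enc (dec2 z).2)

theorem circ_inner_rawz {α : Type} [Enc α] (a : α) (u : List Bool) :
    circ_inner (rawz a u) = Enc.enc (a, u) := by
  unfold circ_inner rawz
  rw [dec2_dl]
  simp only [parse_enc]
  rfl

theorem circ_ptf_inner : PTF circ_inner := by
  have h1 : PTF (fun z : List Bool => dec2 z) := ptf_dec2 PTF.id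
  have h2 : PTF (fun z : List Bool => parse (dec2 z).1) := ptf_parse.comp h1.fst'
  exact PTF.Dcons h2 h1.snd'.code

theorem circ_ptf_nmc : PTF nmc := by
  unfold nmc
  fun_prop

/-- **Module A**. -/
theorem claimCirc : ClaimCirc := by
  intro α inst R m hR hm
  obtain ⟨BR, ⟨g, Tg, g1, g2, g3⟩, hBR⟩ := hR
  have hg : TimeF g Tg := ⟨g, Tg, g1, fun _ => rfl, fun _ => le_refl _⟩
  obtain ⟨Bi, i1, i2⟩ := circ_ptf_inner
  obtain ⟨Bo, o1, o2⟩ := ptf_outp
  have hf := o1.comp (hg.comp i1)
  obtain ⟨K, inst1, inst2, p, i, o, hp⟩ := hf.raw_prog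
  -- sizes
  have hmP : PB m := hm.size.mono (fun a => by rw [sz_nat]; omega)
  obtain ⟨ki, hki⟩ := i2
  obtain ⟨kR, hkR⟩ := hBR
  obtain ⟨ko, hko⟩ := o2
  let Z : α → ℕ := fun a => 4 * (2 * sz a + 1 + (m a + 1)) + 1
  have hZ : PB Z := (((PB.const 4).mul ((((PB.const 2).mul PB.sz).add (PB.const 1)).add
    (hmP.add (PB.const 1)))).add (PB.const 1))
  let W : α → ℕ := fun a => sz a + (4 * m a + 1) + 1
  have hW : PB W := (PB.sz.add (((PB.const 4).mul hmP).add (PB.const 1))).add (PB.const 1)
  let BT : α → ℕ := fun a => 20 * ((((Z a + 2) ^ ki + (W a + 2) ^ kR + 4 * Z a + 8 * W a + 20 + 8) +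
    5 ^ ko + 4 * Z a + 40 + 40 + 8)) + 100 * Z a + 100
  have hBT : PB BT := by
    refine PB.add (PB.add (PB.mul (PB.const 20) ?_) (PB.mul (PB.const 100) hZ)) (PB.const 100)
    exact (((((((((((hZ.add (PB.const 2)).pow ki).add ((hW.add (PB.const 2)).pow kR)).add
      ((PB.const 4).mul hZ)).add ((PB.const 8).mul hW)).add (PB.const 20)).add (PB.const 8)).add
      (PB.const _)).add ((PB.const 4).mul hZ)).add (PB.const 40)).add (PB.const 40)).add
      (PB.const 8)
  have hbound : ∀ a (u : List Bool), u.length = m a →
      Runs p (single i (rawz a u)) (single o (outp (g (circ_inner (rawz a u))))) (BT a) := by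
    intro a u hu
    refine (hp (rawz a u)).mono ?_
    have e1 : circ_inner (rawz a u) = Enc.enc (a, u) := circ_inner_rawz a u
    have hz : sz (rawz a u) ≤ Z a := by
      have h5 := sz_bits (rawz a u)
      have h6 : (rawz a u).length = 2 * sz a + 1 + m a := by
        unfold rawz
        rw [List.length_append, hu, dl, N487b59b3.length_delimit, D.length_enc]
        rfl
      rw [h6] at h5
      show _ ≤ 4 * (2 * sz a + 1 + (m a + 1)) + 1
      omega
    have hw : sz (circ_inner (rawz a u)) ≤ W a := by
      rw [e1]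
      show sz (a, u) ≤ _
      rw [sz_pair]
      have h5 := sz_bits u
      show _ ≤ sz a + (4 * m a + 1) + 1
      omega
    have hTg : Tg (circ_inner (rawz a u)) ≤ (W a + 2) ^ kR := by
      rw [e1]
      refine (g3 _).trans ((hkR _).trans (Nat.pow_le_pow_left ?_ _))
      rw [e1] at hw
      have : sz (a, u) ≤ W a := hw
      omega
    have hgi : sz (g (circ_inner (rawz a u))) ≤ 3 := by
      rw [e1, g2]
      exact sz_bool (R (a, u))
    have hgi' : sz (g (circ_inner (rawz a u))) ≤ 5 := hgi.trans (by norm_num)
    have hBi : Bi (rawz a u) ≤ (Z a + 2) ^ ki :=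
      (hki _).trans (Nat.pow_le_pow_left (by omega) _)
    have hBo : Bo (g (circ_inner (rawz a u))) ≤ 5 ^ ko :=
      (hko _).trans (Nat.pow_le_pow_left (by omega) _)
    have hout : sz (outp (g (circ_inner (rawz a u)))) ≤ 5 := by
      unfold outp
      split_ifs
      · rw [sz_cons, sz_nil]; have := sz_bool true; omega
      · rw [sz_cons, sz_nil]; have := sz_bool false; omega
    show _ ≤ 20 * ((((Z a + 2) ^ ki + (W a + 2) ^ kR + 4 * Z a + 8 * W a + 20 + 8) +
      5 ^ ko + 4 * Z a + 40 + 40 + 8)) + 100 * Z a + 100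
    generalize (Z a + 2) ^ ki = A1 at *
    generalize (W a + 2) ^ kR = A2 at *
    generalize 5 ^ ko = A3 at *
    omega
  obtain ⟨T, hT, hBT'⟩ := ((hBT.add (PB.const 1)).mul (PB.const p.psize)).exists_ptf
  have hrun : ∀ a (u : List Bool), u.length = m a →
      (sstep^[T a] ([p], single i (rawz a u))).2 = single o (outp (g (circ_inner (rawz a u)))) := by
    intro a u hu
    obtain ⟨t, ht, e⟩ := hbound a u hu
    obtain ⟨n, hn, e2⟩ := e.small
    have hnT : n ≤ T a := by
      refine hn.trans (le_trans ?_ (hBT' a))
      exact Nat.mul_le_mul_right _ (by omega)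
    obtain ⟨d, hd⟩ := Nat.exists_eq_add_of_le hnT
    rw [hd, Nat.add_comm, iterate_add_apply, e2, iterate_nil]
  let H : α → ℕ := fun a => (rtpl a (m a)).length + T a + 1
  have htpl : PTF (fun a => rtpl a (m a)) := by
    unfold rtpl
    refine PTF.append (PTF.map' (by fun_prop) (ptf_dl (ptf_ser PTF.id))) ?_
    exact PTF.replicate hm (PTF.const none)
  have hH : PTF H := (htpl.length.add hT).add (PTF.const 1)
  let Kl : List K := (@Finset.univ K inst1).toList
  have hKl : ∀ k, k ∈ Kl := fun k => by simp [Kl]
  have hhead : ∀ a (u : List Bool), u.length = m a →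
      (((sstep^[T a] ([p], single i (rawz a u))).2 o).head? = some true ↔ R (a, u) = true) := by
    intro a u hu
    rw [hrun a u hu, circ_inner_rawz, g2]
    simp only [single, update_self, outp]
    cases R (a, u) with
    | true => simp [enc_true]
    | false =>
      have : (Enc.enc false : D) ≠ D.tt := by
        rw [← enc_true]
        intro e
        exact Bool.false_ne_true (Enc.inj e)
      simp [this]
  have hlen : ∀ a, (rtpl a (m a)).length = (dl (Enc.enc a).enc).length + m a := by
    intro a
    unfold rtpl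
    simp
  refine ⟨fun a => rename nmc (tab Kl p i o (T a) (H a) (rtpl a (m a))),
    fun a j => nmc (vB Kl 0 i ((dl (Enc.enc a).enc).length + j)), ptf_rename (ptf_tab hT hH htpl),
    ?_, ?_, ?_⟩
  · refine circ_ptf_nmc.comp (ptf_vB (PTF.const 0) ?_)
    exact ((ptf_dl (ptf_ser PTF.id)).length.comp PTF.fst).add PTF.snd
  · intro a j k hjk
    have h1 := nmc_inj hjk
    simp only [vB, Prod.mk.injEq] at h1
    omega
  · intro a u hu
    have hHa : (rtpl a (m a)).length + T a < H a := Nat.lt_succ_self _
    constructor
    · intro hRu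
      obtain ⟨v, hv, hv2⟩ := circ_complete hKl hHa ((match_rtpl a (m a) (rawz a u)).2 ⟨u, hu, rfl⟩)
        ((hhead a u hu).2 hRu)
      have hext : (fun x => Function.extend nmc v (fun _ => false) (nmc x)) = v := by
        funext x
        exact nmc_inj.extend_apply _ _ _
      refine ⟨Function.extend nmc v (fun _ => false), ?_, fun j hj => ?_⟩
      · rw [circ_rename, hext]
        exact hv
      · rw [nmc_inj.extend_apply, hv2 _ (by rw [hlen]; omega)]
        unfold rawz
        rw [List.getD_append_right _ _ _ _ (by omega), Nat.add_sub_cancel_left]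
    · rintro ⟨v, hv, hv2⟩
      rw [circ_rename] at hv
      obtain ⟨z, hz, hz2, hacc⟩ := circ_sound hKl hHa hv
      obtain ⟨u', hu', rfl⟩ := (match_rtpl a (m a) z).1 hz
      have huu : u' = u := by
        refine List.ext_getElem (by rw [hu, hu']) fun j h1 h2 => ?_
        have h3 := hz2 ((dl (Enc.enc a).enc).length + j) (by rw [hlen]; omega)
        have h4 := hv2 j (by omega)
        dsimp only at h3 h4
        rw [h4] at h3
        unfold rawz at h3
        rw [List.getD_append_right _ _ _ _ (by omega), Nat.add_sub_cancel_left,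
          List.getD_eq_getElem _ _ h1, List.getD_eq_getElem _ _ h2] at h3
        exact h3
      rw [huu] at hacc
      exact (hhead a u hu).1 hacc

end Pool.Agent.Work.MP_817c3f_lc
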