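import Pool.Agent.Work.MP_817c3f_lc.Core

/-!
# The code of the position of a flip game is computed in polynomial time
-/

set_option autoImplicit false

namespace Pool.Agent.Work.MP_817c3f_lc

open Pool.Agent.PT Turing Function

/-- Adjacency bits of a relation on the entries of a list. -/
def lbits {β : Type} (l : List β) (f : β → β → Bool) : List Bool :=
  l.flatMap (fun a => l.map (fun b => f a b))

theorem map_finRange_get {β γ : Type} (l : List β) (f : β → γ) :
    (List.finRange l.length).map (fun i => f (l.get i)) = l.map f := by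
  refine List.ext_getElem (by simp) (fun i h1 h2 => ?_)
  simp

theorem flatMap_finRange_get {β γ : Type} (l : List β) (f : β → List γ) :
    (List.finRange l.length).flatMap (fun i => f (l.get i)) = l.flatMap f := by
  rw [List.flatMap_def, List.flatMap_def, map_finRange_get]

theorem matBits_get {β : Type} (l : List β) (f : β → β → Bool) :
    matBits (fun i j : Fin l.length => f (l.get i) (l.get j)) = lbits l f := by
  unfold matBits lbits
  rw [← flatMap_finRange_get l (fun a => l.map (fun b => f a b))]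
  congr 1
  funext i
  exact map_finRange_get l (fun b => f (l.get i) b)

theorem encode_toPos {ν σ : Type} [DecidableEq ν] [DecidableEq σ] (G : FG ν σ) (v : ν → Bool)
    (s : σ) : (G.toPos v s).encode = List.replicate G.verts.length true ++
      (false :: (lbits G.verts (fun a b => G.eL a b || G.eR a b) ++ (lbits G.verts G.eL ++
        (lbits G.verts G.eR ++ (G.verts.map (FG.occV v s) ++ [true]))))) := by
  unfold Position.encode
  have h1 := matBits_get G.verts (fun a b => G.eL a b || G.eR a b)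
  have h2 := matBits_get G.verts G.eL
  have h3 := matBits_get G.verts G.eR
  have h4 := map_finRange_get G.verts (FG.occV v s)
  rw [← h1, ← h2, ← h3, ← h4]
  rfl

theorem ptf_lbits {α β : Type} [Enc α] [Enc β] {l : α → List β} {f : α → β → β → Bool}
    (hl : PTF l) (hf : PTF (fun q : α × β × β => f q.1 q.2.1 q.2.2)) :
    PTF (fun a => lbits (l a) (f a)) := by
  unfold lbits
  refine PTF.flatMap' ?_ hl
  refine PTF.map' ?_ (hl.comp PTF.fst)
  have h : PTF (fun p : (α × β) × β => (p.1.1, p.1.2, p.2)) := by fun_prop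
  exact hf.comp h

section

variable {α ν σ : Type} [Enc α] [Enc ν] [Enc σ] [DecidableEq ν] [DecidableEq σ]
  {G : α → FG ν σ}

omit [DecidableEq ν] [DecidableEq σ] in
theorem ptf_verts (h1 : PTF (fun a => (G a).vars)) (h2 : PTF (fun a => (G a).stages)) :
    PTF (fun a => (G a).verts) := by
  unfold FG.verts
  refine PTF.append (PTF.flatMap' ?_ h1) (PTF.map' ?_ h2)
  · fun_prop
  · fun_prop

omit [DecidableEq σ] in
theorem ptf_eL (h : PTF (fun p : α × σ => (G p.1).lits p.2)) :
    PTF (fun q : α × Vtx ν σ × Vtx ν σ => (G q.1).eL q.2.1 q.2.2) := by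
  have hb : PTF (fun q : α × Vtx ν σ × Vtx ν σ => q.2.2.1) := by fun_prop
  -- the case `a.1 = none`, `a.2 = some s`
  have h3 : PTF (fun r : ((α × Vtx ν σ × Vtx ν σ) × (ν × Bool)) × σ =>
      decide ((!r.1.2.2, r.1.2.1) ∈ (G r.1.1.1).lits r.2)) := by
    have e1 : PTF (fun r : ((α × Vtx ν σ × Vtx ν σ) × (ν × Bool)) × σ =>
        (!r.1.2.2, r.1.2.1)) := by fun_prop
    have e2 : PTF (fun r : ((α × Vtx ν σ × Vtx ν σ) × (ν × Bool)) × σ =>
        (r.1.1.1, r.2)) := by fun_prop
    exact (PTF.mem e1 (h.comp e2)).congr (fun _ => decide_eq_decide.2 Iff.rfl)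
  have h2 : PTF (fun r : (α × Vtx ν σ × Vtx ν σ) × (ν × Bool) =>
      (match r.1.2.1.2 with
      | none => false
      | some s => decide ((!r.2.2, r.2.1) ∈ (G r.1.1).lits s) : Bool)) :=
    PTF.option_case (o := fun r : (α × Vtx ν σ × Vtx ν σ) × (ν × Bool) => r.1.2.1.2)
      (f := fun _ => false) (by fun_prop) (PTF.const false) h3
  have h1 : PTF (fun r : (α × Vtx ν σ × Vtx ν σ) × (ν × Bool) =>
      (match r.1.2.1.1 with
      | none => (match r.1.2.1.2 with
        | none => false
        | some s => decide ((!r.2.2, r.2.1) ∈ (G r.1.1).lits s))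
      | some x => decide (x.1 = r.2.1) && (x.2 != r.2.2) : Bool)) := by
    refine (PTF.option_case (o := fun r : (α × Vtx ν σ × Vtx ν σ) × (ν × Bool) => r.1.2.1.1)
      (g := fun t : ((α × Vtx ν σ × Vtx ν σ) × (ν × Bool)) × (ν × Bool) =>
        decide (t.2.1 = t.1.2.1) && (t.2.2 != t.1.2.2)) (by fun_prop) h2 (by
          unfold bne
          fun_prop)).congr ?_
    rintro ⟨⟨a, ⟨a1, a2⟩, b⟩, y⟩
    cases a1 <;> rfl
  refine (PTF.option_case hb (PTF.const false) h1).congr ?_
  rintro ⟨a, ⟨a1, a2⟩, ⟨b1, b2⟩⟩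
  cases b1 <;> cases a1 <;> rfl

omit [DecidableEq ν] in
theorem ptf_eR (h : PTF (fun p : α × σ => (G p.1).next p.2)) :
    PTF (fun q : α × Vtx ν σ × Vtx ν σ => (G q.1).eR q.2.1 q.2.2) := by
  have h2 : PTF (fun r : ((α × Vtx ν σ × Vtx ν σ) × σ) × σ =>
      decide (r.2 ∈ (G r.1.1.1).next r.1.2)) := by
    have e2 : PTF (fun r : ((α × Vtx ν σ × Vtx ν σ) × σ) × σ => (r.1.1.1, r.1.2)) := by fun_prop
    exact PTF.mem PTF.snd (h.comp e2)
  have h1 : PTF (fun r : (α × Vtx ν σ × Vtx ν σ) × σ =>
      (match r.1.2.2.2 with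
      | none => false
      | some s' => decide (s' ∈ (G r.1.1).next r.2) : Bool)) :=
    PTF.option_case (o := fun r : (α × Vtx ν σ × Vtx ν σ) × σ => r.1.2.2.2)
      (f := fun _ => false) (by fun_prop) (PTF.const false) h2
  refine (PTF.option_case (o := fun q : α × Vtx ν σ × Vtx ν σ => q.2.1.2) (f := fun _ => false)
    (by fun_prop) (PTF.const false) h1).congr ?_
  rintro ⟨a, ⟨a1, a2⟩, ⟨b1, b2⟩⟩
  cases a2 <;> cases b2 <;> rfl

omit [DecidableEq ν] in
theorem ptf_occV {v : α → ν → Bool} {s : α → σ} (hv : PTF (fun p : α × ν => v p.1 p.2))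
    (hs : PTF s) : PTF (fun q : α × Vtx ν σ => FG.occV (v q.1) (s q.1) q.2) := by
  have h2 : PTF (fun q : α × Vtx ν σ => decide (q.2.2 = some (s q.1))) :=
    PTF.eq (by fun_prop) (hs.comp PTF.fst).some
  have h1 : PTF (fun r : (α × Vtx ν σ) × (ν × Bool) => v r.1.1 r.2.1 == r.2.2) := by
    have e2 : PTF (fun r : (α × Vtx ν σ) × (ν × Bool) => (r.1.1, r.2.1)) := by fun_prop
    exact PTF.beq (hv.comp e2) (by fun_prop)
  refine (PTF.option_case (o := fun q : α × Vtx ν σ => q.2.1) (by fun_prop) h2 h1).congr ?_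
  rintro ⟨a, a1, a2⟩
  cases a1 <;> rfl

end

theorem claimCode : ClaimCode := by
  intro α ν σ _ _ _ _ _ G v s hvars hst hlits hnext hv hs
  have hverts := ptf_verts hvars hst
  have hL := ptf_eL hlits
  have hR := ptf_eR hnext
  have hO := ptf_occV hv hs
  refine PTF.congr ?_ (fun a => (encode_toPos (G a) (v a) (s a)).symm)
  refine PTF.append (PTF.replicate hverts.length (PTF.const true)) (PTF.cons (PTF.const false) ?_)
  refine PTF.append (ptf_lbits hverts (hL.or hR)) (PTF.append (ptf_lbits hverts hL)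
    (PTF.append (ptf_lbits hverts hR) (PTF.append (PTF.map' hO hverts) (PTF.const _))))

end Pool.Agent.Work.MP_817c3f_lc
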