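import Pool.Agent.Work.MP_817c3f_lc.Core

/-!
# Module C3: the dialogue flip game is computed in polynomial time
-/

set_option autoImplicit false

namespace Pool.Agent.Work.MP_817c3f_lc

open Pool.Agent.PT Turing Function

namespace DfgPtfAux

variable {α : Type} [Enc α]

theorem eqcl_ptf {a b : α → Vr} (ha : PTF a) (hb : PTF b) : PTF (fun x => eqcl (a x) (b x)) := by
  unfold eqcl
  fun_prop

theorem prot_ptf {l p : α → ℕ} (hl : PTF l) (hp : PTF p) : PTF (fun x => prot (l x) (p x)) := by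
  unfold prot eqcl
  fun_prop

theorem dvars_ptf {l M : α → ℕ} (hl : PTF l) (hM : PTF M) : PTF (fun x => dvars (l x) (M x)) := by
  unfold dvars
  fun_prop

theorem drounds_ptf {l M : α → ℕ} (hl : PTF l) (hM : PTF M) :
    PTF (fun x => drounds (l x) (M x)) := by
  unfold drounds
  fun_prop

attribute [fun_prop] eqcl_ptf prot_ptf dvars_ptf drounds_ptf

theorem chk_ptf {β : Type} [Enc β] {chk : α → ℕ → ℕ → List (List (Bool × Vr))}
    (hc : PTF (fun q : α × ℕ × ℕ => chk q.1 q.2.1 q.2.2)) {a : β → α} {p d : β → ℕ}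
    (ha : PTF a) (hp : PTF p) (hd : PTF d) : PTF (fun x => chk (a x) (p x) (d x)) :=
  hc.comp (ha.pair (hp.pair hd))

theorem dstages_ptf {l D M : α → ℕ} {chk : α → ℕ → ℕ → List (List (Bool × Vr))} (hl : PTF l)
    (hD : PTF D) (hM : PTF M) (hc : PTF (fun q : α × ℕ × ℕ => chk q.1 q.2.1 q.2.2)) :
    PTF (fun a => dstages (l a) (D a) (M a) (chk a)) := by
  have h1 : PTF (fun q : (α × ℕ) × ℕ => chk q.1.1 q.1.2 q.2) :=
    chk_ptf hc PTF.fst.fst' PTF.fst.snd' PTF.snd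
  unfold dstages
  fun_prop

theorem dlits_ptf {l : α → ℕ} {chk : α → ℕ → ℕ → List (List (Bool × Vr))} (hl : PTF l)
    (hc : PTF (fun q : α × ℕ × ℕ => chk q.1 q.2.1 q.2.2)) :
    PTF (fun p : α × Sg => dlits (l p.1) (chk p.1) p.2) := by
  have h1 : PTF (fun p : α × Sg => chk p.1 (p.2.1 - 4) p.2.2.1) :=
    chk_ptf hc (by fun_prop) (by fun_prop) (by fun_prop)
  unfold dlits
  fun_prop

theorem dnext_ptf {l D M : α → ℕ} {chk : α → ℕ → ℕ → List (List (Bool × Vr))} (hl : PTF l)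
    (hD : PTF D) (hM : PTF M) (hc : PTF (fun q : α × ℕ × ℕ => chk q.1 q.2.1 q.2.2)) :
    PTF (fun p : α × Sg => dnext (l p.1) (D p.1) (M p.1) (chk p.1) p.2) := by
  have h1 : PTF (fun p : α × Sg => chk p.1 (p.2.1 - 2) p.2.2.1) :=
    chk_ptf hc (by fun_prop) (by fun_prop) (by fun_prop)
  unfold dnext
  fun_prop

end DfgPtfAux

open DfgPtfAux in
theorem claimDfgPtf : ClaimDfgPtf := by
  intro α _ l D M chk hl hD hM hc
  exact ⟨dvars_ptf hl hM, dstages_ptf hl hD hM hc, dlits_ptf hl hc, dnext_ptf hl hD hM hc⟩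

end Pool.Agent.Work.MP_817c3f_lc
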