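import Pool.Agent.Work.MP_817c3f_lc.Core

/-!
# The dialogue flip game is well-formed
-/

set_option autoImplicit false

namespace Pool.Agent.Work.MP_817c3f_lc

open Pool.Agent.PT Turing Function

theorem DfgWF_mem_dvars (l M : ℕ) (x : Vr) :
    x ∈ dvars l M ↔ x = (0, 0) ∨ (∃ t < 4, ∃ j < l, x = (t + 1, j)) ∨ ∃ k < M, x = (5, k) := by
  simp only [dvars, List.mem_cons, List.mem_append, List.mem_flatMap, List.mem_map,
    List.mem_range]
  constructor
  · rintro (h | ⟨t, ht, j, hj, h⟩ | ⟨k, hk, h⟩)
    · exact Or.inl h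
    · exact Or.inr (Or.inl ⟨t, ht, j, hj, h.symm⟩)
    · exact Or.inr (Or.inr ⟨k, hk, h.symm⟩)
  · rintro (h | ⟨t, ht, j, hj, h⟩ | ⟨k, hk, h⟩)
    · exact Or.inl h
    · exact Or.inr (Or.inl ⟨t, ht, j, hj, h.symm⟩)
    · exact Or.inr (Or.inr ⟨k, hk, h.symm⟩)

theorem DfgWF_dvars_nodup (l M : ℕ) : (dvars l M).Nodup := by
  rw [dvars, List.nodup_cons]
  refine ⟨?_, ?_⟩
  · simp
  · rw [List.nodup_append]
    refine ⟨?_, ?_, ?_⟩
    · rw [List.nodup_flatMap]
      refine ⟨fun t _ => ?_, ?_⟩
      · exact List.Nodup.map (fun a b h => by simpa using h) List.nodup_range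
      · refine List.Pairwise.imp ?_ List.nodup_range
        intro a b hab x hx hy
        simp only [List.mem_map] at hx hy
        obtain ⟨j, _, rfl⟩ := hx
        obtain ⟨j', _, h⟩ := hy
        simp only [Prod.mk.injEq] at h
        omega
    · exact List.Nodup.map (fun a b h => by simpa using h) List.nodup_range
    · intro a ha b hb hab
      subst hab
      simp only [List.mem_flatMap, List.mem_map, List.mem_range] at ha hb
      obtain ⟨t, ht, j, _, rfl⟩ := ha
      obtain ⟨k, _, h⟩ := hb
      simp only [Prod.mk.injEq] at h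
      omega

theorem DfgWF_mem_dstages (l D M : ℕ) (chk : ℕ → ℕ → List (List (Bool × Vr))) (s : Sg) :
    s ∈ dstages l D M chk ↔
      (s = (0, 0, 0) ∨ s = (0, 1, 0) ∨ s = (1, 0, 0) ∨ s = (1, 1, 0)) ∨
      (∃ p < 2, ∃ d < D, ∃ r < drounds l M, s = (2 + p, d, r)) ∨
      (∃ p < 2, ∃ d < D, ∃ i < (chk p d).length, s = (4 + p, d, i)) ∨
      (∃ p < 2, ∃ i < (prot l p).length, s = (6 + p, 0, i)) := by
  simp only [dstages, List.mem_cons, List.mem_append, List.mem_flatMap, List.mem_map,
    List.mem_range, List.not_mem_nil, or_false]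
  constructor
  · rintro (h | ⟨p, hp, d, hd, r, hr, h⟩ | ⟨p, hp, d, hd, r, hr, h⟩ | ⟨p, hp, i, hi, h⟩)
    · exact Or.inl h
    · exact Or.inr (Or.inl ⟨p, hp, d, hd, r, hr, h.symm⟩)
    · exact Or.inr (Or.inr (Or.inl ⟨p, hp, d, hd, r, hr, h.symm⟩))
    · exact Or.inr (Or.inr (Or.inr ⟨p, hp, i, hi, h.symm⟩))
  · rintro (h | ⟨p, hp, d, hd, r, hr, h⟩ | ⟨p, hp, d, hd, r, hr, h⟩ | ⟨p, hp, i, hi, h⟩)
    · exact Or.inl h
    · exact Or.inr (Or.inl ⟨p, hp, d, hd, r, hr, h.symm⟩)
    · exact Or.inr (Or.inr (Or.inl ⟨p, hp, d, hd, r, hr, h.symm⟩))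
    · exact Or.inr (Or.inr (Or.inr ⟨p, hp, i, hi, h.symm⟩))

/-- A family of triples with tags `c + p` is without repetition. -/
theorem DfgWF_nodup_tag (c D : ℕ) (m : ℕ → ℕ → ℕ) :
    ((List.range 2).flatMap (fun p => (List.range D).flatMap (fun d =>
      (List.range (m p d)).map (fun r => ((c + p, d, r) : Sg))))).Nodup := by
  rw [List.nodup_flatMap]
  refine ⟨fun p _ => ?_, ?_⟩
  · rw [List.nodup_flatMap]
    refine ⟨fun d _ => ?_, ?_⟩
    · exact List.Nodup.map (fun a b h => by simpa using h) List.nodup_range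
    · refine List.Pairwise.imp ?_ List.nodup_range
      intro a b hab x hx hy
      simp only [List.mem_map] at hx hy
      obtain ⟨j, _, rfl⟩ := hx
      obtain ⟨j', _, h⟩ := hy
      simp only [Prod.mk.injEq] at h
      omega
  · refine List.Pairwise.imp ?_ List.nodup_range
    intro a b hab x hx hy
    simp only [List.mem_flatMap, List.mem_map] at hx hy
    obtain ⟨d, _, j, _, rfl⟩ := hx
    obtain ⟨d', _, j', _, h⟩ := hy
    simp only [Prod.mk.injEq] at h
    omega

theorem DfgWF_dstages_nodup (l D M : ℕ) (chk : ℕ → ℕ → List (List (Bool × Vr))) :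
    (dstages l D M chk).Nodup := by
  rw [dstages, List.nodup_append]
  refine ⟨by decide, ?_, ?_⟩
  · rw [List.nodup_append]
    refine ⟨DfgWF_nodup_tag 2 D (fun _ _ => drounds l M), ?_, ?_⟩
    · rw [List.nodup_append]
      refine ⟨DfgWF_nodup_tag 4 D (fun p d => (chk p d).length), ?_, ?_⟩
      · have h := DfgWF_nodup_tag 6 1 (fun p _ => (prot l p).length)
        simpa using h
      · intro a ha b hb hab
        subst hab
        simp only [List.mem_flatMap, List.mem_map, List.mem_range] at ha hb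
        obtain ⟨p, hp, d, _, r, _, rfl⟩ := ha
        obtain ⟨p', hp', k, _, h⟩ := hb
        simp only [Prod.mk.injEq] at h
        omega
    · intro a ha b hb hab
      subst hab
      simp only [List.mem_append, List.mem_flatMap, List.mem_map, List.mem_range] at ha hb
      obtain ⟨p, hp, d, _, r, _, rfl⟩ := ha
      rcases hb with ⟨p', hp', d', _, k, _, h⟩ | ⟨p', hp', k, _, h⟩
      · simp only [Prod.mk.injEq] at h
        omega
      · simp only [Prod.mk.injEq] at h
        omega
  · intro a ha b hb hab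
    subst hab
    simp only [List.mem_append, List.mem_flatMap, List.mem_map, List.mem_range, List.mem_cons,
      List.not_mem_nil, or_false] at ha hb
    rcases hb with ⟨p', hp', d', _, k, _, h⟩ | ⟨p', hp', d', _, k, _, h⟩ | ⟨p', hp', k, _, h⟩
    all_goals
      rcases ha with rfl | rfl | rfl | rfl <;> simp only [Prod.mk.injEq] at h <;> omega

theorem DfgWF_prot_vars (l M p : ℕ) (hp : p < 2) (c : List (Bool × Vr)) (hc : c ∈ prot l p)
    (x : Bool × Vr) (hx : x ∈ c) : x.2 ∈ dvars l M := by
  simp only [prot, eqcl, List.mem_flatMap, List.mem_range] at hc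
  obtain ⟨j, hj, hc⟩ := hc
  rw [DfgWF_mem_dvars]
  right
  left
  simp only [List.mem_cons, List.not_mem_nil, or_false] at hc
  rcases hc with rfl | rfl <;> simp only [List.mem_cons, List.not_mem_nil, or_false] at hx <;>
    rcases hx with rfl | rfl
  · exact ⟨2 * p, by omega, j, hj, by simp [add_comm]⟩
  · exact ⟨1 + 2 * p, by omega, j, hj, by simp; omega⟩
  · exact ⟨2 * p, by omega, j, hj, by simp [add_comm]⟩
  · exact ⟨1 + 2 * p, by omega, j, hj, by simp; omega⟩

theorem DfgWF_getD_mem {α : Type} (L : List (List α)) (i : ℕ) (x : α) (hx : x ∈ L.getD i []) :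
    ∃ c ∈ L, x ∈ c := by
  by_cases hi : i < L.length
  · rw [List.getD_eq_getElem _ _ hi] at hx
    exact ⟨_, List.getElem_mem hi, hx⟩
  · rw [List.getD_eq_default _ _ (by omega)] at hx
    simp at hx

/-- **Module C1**. -/
theorem claimWF : ClaimWF := by
  intro l D M chk hl hchk
  refine ⟨DfgWF_dvars_nodup l M, by simp [dfg, dvars], DfgWF_dstages_nodup l D M chk, ?_, ?_, ?_⟩
  · intro s hs x hx
    change s ∈ dstages l D M chk at hs
    change x ∈ dlits l chk s at hx
    change x.2 ∈ dvars l M
    rw [DfgWF_mem_dstages] at hs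
    rcases hs with (rfl | rfl | rfl | rfl) | ⟨p, hp, d, hd, r, hr, rfl⟩ |
      ⟨p, hp, d, hd, i, hi, rfl⟩ | ⟨p, hp, i, hi, rfl⟩
    · simp [dlits] at hx
    · simp [dlits] at hx
    · simp only [dlits, if_true, List.mem_cons, List.not_mem_nil, or_false] at hx
      subst hx
      rw [DfgWF_mem_dvars]
      exact Or.inr (Or.inl ⟨0, by omega, 0, hl, rfl⟩)
    · simp only [dlits, if_true, List.mem_cons, List.not_mem_nil, or_false] at hx
      subst hx
      rw [DfgWF_mem_dvars]
      exact Or.inr (Or.inl ⟨2, by omega, 0, hl, rfl⟩)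
    · have h1 : ¬ (2 + p = 1) := by omega
      have h2 : ¬ (2 + p = 4 ∨ 2 + p = 5) := by omega
      have h3 : ¬ (2 + p = 6 ∨ 2 + p = 7) := by omega
      simp [dlits, h1, h2, h3] at hx
    · have h1 : ¬ (4 + p = 1) := by omega
      have h2 : (4 + p = 4 ∨ 4 + p = 5) := by omega
      have h4 : 4 + p - 4 = p := by omega
      simp only [dlits, h1, h2, if_true, if_false, h4] at hx
      obtain ⟨c, hc, hxc⟩ := DfgWF_getD_mem _ _ _ hx
      exact hchk p hp d hd c hc x hxc
    · have h1 : ¬ (6 + p = 1) := by omega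
      have h2 : ¬ (6 + p = 4 ∨ 6 + p = 5) := by omega
      have h3 : (6 + p = 6 ∨ 6 + p = 7) := by omega
      have h4 : 6 + p - 6 = p := by omega
      simp only [dlits, h1, h2, h3, if_true, if_false, h4] at hx
      obtain ⟨c, hc, hxc⟩ := DfgWF_getD_mem _ _ _ hx
      exact DfgWF_prot_vars l M p hp c hc x hxc
  · intro s hs s' hs'
    change s ∈ dstages l D M chk at hs
    change s' ∈ dnext l D M chk s at hs'
    change s' ∈ dstages l D M chk
    have hN : 0 < drounds l M := by unfold drounds; omega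
    rw [DfgWF_mem_dstages] at hs ⊢
    rcases hs with (rfl | rfl | rfl | rfl) | ⟨p, hp, d, hd, r, hr, rfl⟩ |
      ⟨p, hp, d, hd, i, hi, rfl⟩ | ⟨p, hp, i, hi, rfl⟩
    · simp only [dnext, if_true, List.mem_cons, List.not_mem_nil, or_false] at hs'
      subst hs'
      simp
    · simp only [dnext, if_true, List.mem_cons, List.not_mem_nil, or_false] at hs'
      subst hs'
      simp
    · simp only [dnext, one_ne_zero, if_true, if_false, List.mem_append, List.mem_map,
        List.mem_range] at hs'
      rcases hs' with ⟨i, hi, rfl⟩ | ⟨d, hd, rfl⟩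
      · exact Or.inr (Or.inr (Or.inr ⟨0, by omega, i, hi, rfl⟩))
      · exact Or.inr (Or.inl ⟨0, by omega, d, hd, 0, hN, rfl⟩)
    · simp only [dnext, one_ne_zero, if_true, if_false, List.mem_append, List.mem_map,
        List.mem_range] at hs'
      rcases hs' with ⟨i, hi, rfl⟩ | ⟨d, hd, rfl⟩
      · exact Or.inr (Or.inr (Or.inr ⟨1, by omega, i, hi, rfl⟩))
      · exact Or.inr (Or.inl ⟨1, by omega, d, hd, 0, hN, rfl⟩)
    · have h0 : ¬ (2 + p = 0) := by omega
      have h1 : ¬ (2 + p = 1) := by omega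
      have h2 : (2 + p = 2 ∨ 2 + p = 3) := by omega
      have h4 : 2 + p - 2 = p := by omega
      simp only [dnext, h0, h1, h2, if_true, if_false, h4, List.mem_append, List.mem_map,
        List.mem_range] at hs'
      rcases hs' with ⟨i, hi, rfl⟩ | hs'
      · exact Or.inr (Or.inr (Or.inr ⟨p, hp, i, hi, rfl⟩))
      · split_ifs at hs' with hlt
        · simp only [List.mem_cons, List.not_mem_nil, or_false] at hs'
          subst hs'
          exact Or.inr (Or.inl ⟨p, hp, d, hd, r + 1, hlt, rfl⟩)
        · simp only [List.mem_append, List.mem_map, List.mem_range, List.mem_cons,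
            List.not_mem_nil, or_false] at hs'
          rcases hs' with ⟨i, hi, rfl⟩ | rfl
          · exact Or.inr (Or.inr (Or.inl ⟨p, hp, d, hd, i, hi, rfl⟩))
          · rcases (by omega : p = 0 ∨ p = 1) with rfl | rfl <;> simp
    · have h0 : ¬ (4 + p = 0) := by omega
      have h1 : ¬ (4 + p = 1) := by omega
      have h2 : ¬ (4 + p = 2 ∨ 4 + p = 3) := by omega
      simp only [dnext, h0, h1, h2, if_false, List.mem_cons, List.not_mem_nil, or_false] at hs'
      subst hs'
      simp
    · have h0 : ¬ (6 + p = 0) := by omega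
      have h1 : ¬ (6 + p = 1) := by omega
      have h2 : ¬ (6 + p = 2 ∨ 6 + p = 3) := by omega
      simp only [dnext, h0, h1, h2, if_false, List.mem_cons, List.not_mem_nil, or_false] at hs'
      subst hs'
      simp
  · intro s hs hs'
    change s ∈ dstages l D M chk at hs
    change s ∈ dnext l D M chk s at hs'
    rw [DfgWF_mem_dstages] at hs
    rcases hs with (rfl | rfl | rfl | rfl) | ⟨p, hp, d, hd, r, hr, rfl⟩ |
      ⟨p, hp, d, hd, i, hi, rfl⟩ | ⟨p, hp, i, hi, rfl⟩
    · simp [dnext] at hs'
    · simp [dnext] at hs'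
    · simp only [dnext, one_ne_zero, if_true, if_false, List.mem_append, List.mem_map,
        List.mem_range] at hs'
      rcases hs' with ⟨i, hi, h⟩ | ⟨d, hd, h⟩ <;> simp only [Prod.mk.injEq] at h <;> omega
    · simp only [dnext, one_ne_zero, if_true, if_false, List.mem_append, List.mem_map,
        List.mem_range] at hs'
      rcases hs' with ⟨i, hi, h⟩ | ⟨d, hd, h⟩ <;> simp only [Prod.mk.injEq] at h <;> omega
    · have h0 : ¬ (2 + p = 0) := by omega
      have h1 : ¬ (2 + p = 1) := by omega
      have h2 : (2 + p = 2 ∨ 2 + p = 3) := by omega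
      have h4 : 2 + p - 2 = p := by omega
      simp only [dnext, h0, h1, h2, if_true, if_false, h4, List.mem_append, List.mem_map,
        List.mem_range] at hs'
      rcases hs' with ⟨i, hi, h⟩ | hs'
      · simp only [Prod.mk.injEq] at h
        omega
      · split_ifs at hs' with hlt
        · simp only [List.mem_cons, List.not_mem_nil, or_false, Prod.mk.injEq] at hs'
          omega
        · simp only [List.mem_append, List.mem_map, List.mem_range, List.mem_cons,
            List.not_mem_nil, or_false] at hs'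
          rcases hs' with ⟨i, hi, h⟩ | h <;> simp only [Prod.mk.injEq] at h <;> omega
    · have h0 : ¬ (4 + p = 0) := by omega
      have h1 : ¬ (4 + p = 1) := by omega
      have h2 : ¬ (4 + p = 2 ∨ 4 + p = 3) := by omega
      simp only [dnext, h0, h1, h2, if_false, List.mem_cons, List.not_mem_nil, or_false] at hs'
      simp only [Prod.mk.injEq] at hs'
      omega
    · have h0 : ¬ (6 + p = 0) := by omega
      have h1 : ¬ (6 + p = 1) := by omega
      have h2 : ¬ (6 + p = 2 ∨ 6 + p = 3) := by omega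
      simp only [dnext, h0, h1, h2, if_false, List.mem_cons, List.not_mem_nil, or_false] at hs'
      simp only [Prod.mk.injEq] at hs'
      omega

end Pool.Agent.Work.MP_817c3f_lc
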