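import Pool.Agent.Work.MP_817c3f_lc.Core2

/-!
# The dialogue relation of a stack program

Bit strings of length `2 + (q + (q + c0))` code claims about the run of the program; the relation
between a claim, a question and an answer is computed in polynomial time.
-/

set_option autoImplicit false

namespace Pool.Agent.Work.MP_817c3f_lc

open Pool.Agent.PT Turing Function

/-! ### Codes of finite types -/

theorem fin_code (F : Type) [Finite F] [Enc F] (f0 : F) :
    ∃ (c0 : ℕ) (code : F → List Bool) (dec : List Bool → F), PTF dec ∧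
      (∀ f, (code f).length = c0) ∧ ∀ f, dec (code f) = f := by
  classical
  let e : F ≃ Fin (Nat.card F) := Finite.equivFin F
  refine ⟨Nat.card F, fun f => (List.range (Nat.card F)).map (fun i => decide (i = (e f : ℕ))),
    fun l => (List.ofFn e.symm).getD (l.idxOf true) f0, ?_, ?_, ?_⟩
  · exact PTF.getD (PTF.const _) (PTF.idxOf (PTF.const true) PTF.id) (PTF.const _)
  · intro f; simp
  · intro f
    have h : ((List.range (Nat.card F)).map (fun i => decide (i = (e f : ℕ)))).idxOf true =
        (e f : ℕ) := by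
      have hlt : (e f : ℕ) < Nat.card F := (e f).2
      have hex : (true) ∈ (List.range (Nat.card F)).map (fun i => decide (i = (e f : ℕ))) := by
        rw [List.mem_map]; exact ⟨e f, List.mem_range.2 hlt, by simp⟩
      have h1 := List.getElem_idxOf (x := true) (List.idxOf_lt_length_iff.2 hex)
      rw [List.getElem_map, List.getElem_range] at h1
      simpa using h1
    simp only [h]
    rw [List.getD_eq_getElem _ _ (by simp)]
    simp

/-! ### Fields -/

section fields

/-- The acceptance flag. -/
def fAcc (a : List Bool) : Bool := a.headD false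
/-- The mode (`false` only for the initial dummy claim). -/
def fMode (a : List Bool) : Bool := a.getD 1 false
/-- The time. -/
def fT (Q : ℕ) (a : List Bool) : List Bool := (a.drop 2).take Q
/-- The index. -/
def fJ (Q : ℕ) (a : List Bool) : List Bool := (a.drop (2 + Q)).take Q
/-- The finite part. -/
def fR (Q : ℕ) (a : List Bool) : List Bool := a.drop (2 + (Q + Q))

/-- Build a claim. -/
def mkCl (acc mode : Bool) (t j r : List Bool) : List Bool := acc :: mode :: (t ++ (j ++ r))

theorem fAcc_mk (acc mode : Bool) (t j r : List Bool) : fAcc (mkCl acc mode t j r) = acc := rfl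
theorem fMode_mk (acc mode : Bool) (t j r : List Bool) : fMode (mkCl acc mode t j r) = mode := rfl

theorem fT_mk {Q : ℕ} (acc mode : Bool) {t : List Bool} (j r : List Bool) (ht : t.length = Q) :
    fT Q (mkCl acc mode t j r) = t := by
  subst ht
  simp [fT, mkCl]

theorem fJ_mk {Q : ℕ} (acc mode : Bool) {t j : List Bool} (r : List Bool) (ht : t.length = Q)
    (hj : j.length = Q) : fJ Q (mkCl acc mode t j r) = j := by
  subst ht
  have : 2 + t.length = t.length + 2 := by omega
  rw [fJ, mkCl, this, List.drop_succ_cons, List.drop_succ_cons, List.drop_left, ← hj,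
    List.take_left]

theorem fR_mk {Q : ℕ} (acc mode : Bool) {t j : List Bool} (r : List Bool) (ht : t.length = Q)
    (hj : j.length = Q) : fR Q (mkCl acc mode t j r) = r := by
  have : 2 + (Q + Q) = (t.length + j.length) + 2 := by omega
  rw [fR, mkCl, this, List.drop_succ_cons, List.drop_succ_cons, ← List.append_assoc,
    ← List.length_append, List.drop_left]

theorem length_mk (acc mode : Bool) (t j r : List Bool) :
    (mkCl acc mode t j r).length = 2 + (t.length + (j.length + r.length)) := by
  simp [mkCl]; omega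

theorem length_fT {Q c : ℕ} {a : List Bool} (h : a.length = 2 + (Q + (Q + c))) :
    (fT Q a).length = Q := by
  simp [fT, h]

theorem length_fJ {Q c : ℕ} {a : List Bool} (h : a.length = 2 + (Q + (Q + c))) :
    (fJ Q a).length = Q := by
  simp [fJ, h]; omega

end fields

/-! ### The relation -/

section rel

variable {K : Type} [Fintype K] [DecidableEq K]

/-- The finite part of a claim: continuation, tops, stack and entry of the probe. -/
abbrev Fp (p : Prog K) := {c : List (Prog K) // c ∈ allc p} × (K → Option Bool) × K × Option Bool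

/-- The questions. -/
noncomputable def dirs (K : Type) [Fintype K] : List (Option K) :=
  none :: (Finset.univ : Finset K).toList.map some

/-- Question number `d`. -/
noncomputable def dirOf (K : Type) [Fintype K] (d : ℕ) : Option K := (dirs K).getD d none

theorem exists_dir (k : Option K) : ∃ d < (dirs K).length, dirOf K d = k := by
  have h : k ∈ dirs K := by
    unfold dirs
    cases k with
    | none => simp
    | some k => simp
  obtain ⟨d, hd, e⟩ := List.mem_iff_getElem.1 h
  exact ⟨d, hd, by rw [dirOf, List.getD_eq_getElem _ _ hd, e]⟩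

/-- Stack and entry asked for. -/
def askd {p : Prog K} (fa : Fp p) (dir : Option K) : K × Option Bool :=
  match dir with
  | none => (fa.2.2.1, fa.2.2.2)
  | some k => (k, fa.2.1 k)

/-- The finite part of the check of an entry. -/
def itemB {p : Prog K} (kv : K × Option Bool) (fb : Fp p) (e : Bool × Bool × Bool × Bool) : Prop :=
  match act fb.1.1 with
  | none => fb.2.2.1 = kv.1 ∧ e.2.1 = true ∧ fb.2.2.2 = kv.2
  | some (k', some bit) =>
    if k' = kv.1 then
      (if e.1 = true then kv.2 = some bit
      else fb.2.2.1 = kv.1 ∧ e.2.2.1 = true ∧ fb.2.2.2 = kv.2)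
    else fb.2.2.1 = kv.1 ∧ e.2.1 = true ∧ fb.2.2.2 = kv.2
  | some (k', none) =>
    if k' = kv.1 then fb.2.2.1 = kv.1 ∧ e.2.2.2 = true ∧ fb.2.2.2 = kv.2
    else fb.2.2.1 = kv.1 ∧ e.2.1 = true ∧ fb.2.2.2 = kv.2

open Classical in
/-- The finite part of the check of a step. -/
noncomputable def G1 {p : Prog K} (g : Fp p × Fp p × Option K × Bool × Bool × Bool × Bool) : Bool :=
  decide (g.1.1.1 = nxt (rds (act g.2.1.1.1) g.2.1.2.1) g.2.1.1.1 ∧
    itemB (askd g.1 g.2.2.1) g.2.1 g.2.2.2)

open Classical in
/-- The finite part of the check of the initial configuration. -/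
noncomputable def G0 (p : Prog K) (i : K) (g : Fp p × Option Bool × Option Bool) : Bool :=
  decide (g.1.1.1 = [p] ∧ (∀ k, g.1.2.1 k = if k = i then g.2.1 else none) ∧
    g.1.2.2.2 = if g.1.2.2.1 = i then g.2.2 else none)

open Classical in
/-- The finite part of the check of the final claim. -/
noncomputable def G2 {p : Prog K} (o : K) (g : Fp p) : Bool := decide (g.2.1 o = some true)

/-- Index asked for. -/
def jask (Q : ℕ) (a : List Bool) (dir : Option K) : List Bool :=
  if dir = none then fJ Q a else List.replicate Q false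

/-- Comparisons of indices. -/
def cmps (Q : ℕ) (j jb : List Bool) : Bool × Bool × Bool × Bool :=
  (decide (j = List.replicate Q false), decide (jb = j),
    decide (inc jb = j) && decide (jb ≠ List.replicate Q true),
    decide (jb = inc j) && decide (j ≠ List.replicate Q true))

/-- Check against the initial configuration. -/
noncomputable def initB (p : Prog K) (i : K) (dec : List Bool → Fp p) (Q : ℕ) (x b : List Bool) :
    Bool :=
  decide (fT Q b = List.replicate Q false) && G0 p i (dec (fR Q b), x.head?, x[val (fJ Q b)]?)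

/-- Check of the first claim. -/
noncomputable def startB (p : Prog K) (o : K) (dec : List Bool → Fp p) (Q : ℕ) (b : List Bool) :
    Bool :=
  decide (fT Q b = List.replicate Q true) && G2 o (dec (fR Q b))

/-- Check of a step. -/
noncomputable def stepB (p : Prog K) (dec : List Bool → Fp p) (Q : ℕ) (dir : Option K)
    (a b : List Bool) : Bool :=
  (decide (inc (fT Q b) = fT Q a) && decide (fT Q b ≠ List.replicate Q true)) &&
    G1 (dec (fR Q a), dec (fR Q b), dir, cmps Q (jask Q a dir) (fJ Q b))

/-- The whole relation. -/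
noncomputable def relB (p : Prog K) (i o : K) (dec : List Bool → Fp p) (Q : ℕ) (x : List Bool)
    (dir : Option K) (a b : List Bool) : Bool :=
  (fMode b && (!(fAcc b) || initB p i dec Q x b)) &&
    (bif fMode a then stepB p dec Q dir a b else startB p o dec Q b)

/-- The claim coded by a bit string. -/
def recOf {p : Prog K} (dec : List Bool → Fp p) (Q : ℕ) (b : List Bool) : Rc K where
  t := val (fT Q b)
  j := val (fJ Q b)
  c := (dec (fR Q b)).1.1
  s := (dec (fR Q b)).2.1
  k := (dec (fR Q b)).2.2.1
  v := (dec (fR Q b)).2.2.2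

/-- The run. -/
def runOf (p : Prog K) (i : K) (x : List Bool) (t : ℕ) : List (Prog K) × Mem K :=
  sstep^[t] ([p], single i x)

theorem runOf_succ (p : Prog K) (i : K) (x : List Bool) (t : ℕ) :
    runOf p i x (t + 1) = sstep (runOf p i x t) := iterate_succ_apply' _ _ _

theorem single_head (i : K) (x : List Bool) (k : K) :
    (single i x k).head? = if k = i then x.head? else none := by
  unfold single
  by_cases h : k = i
  · subst h; rw [update_self, if_pos rfl]
  · rw [update_of_ne h, if_neg h]; rfl

theorem single_get (i : K) (x : List Bool) (k : K) (j : ℕ) :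
    (single i x k)[j]? = if k = i then x[j]? else none := by
  unfold single
  by_cases h : k = i
  · subst h; rw [update_self, if_pos rfl]
  · rw [update_of_ne h, if_neg h]; rfl

section numbers

variable (hN : ClaimBin)
include hN

theorem eq_top_iff' {Q : ℕ} {l : List Bool} (hl : l.length = Q) :
    l = List.replicate Q true ↔ val l + 1 = 2 ^ Q := by
  have hp : 0 < 2 ^ Q := by positivity
  constructor
  · rintro rfl
    rw [hN.val_top]; omega
  · intro h
    refine hN.val_inj _ _ (by simp [hl]) ?_
    rw [hN.val_top]; omega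

theorem inc_iff {Q : ℕ} {l l' : List Bool} (hl : l.length = Q) (hl' : l'.length = Q) :
    (inc l = l' ∧ l ≠ List.replicate Q true) ↔ val l + 1 = val l' := by
  have h1 := hN.val_lt l
  have h2 := hN.val_lt l'
  rw [hl] at h1
  rw [hl'] at h2
  constructor
  · rintro ⟨rfl, h⟩
    rw [Ne, eq_top_iff' hN hl] at h
    rw [hN.val_inc l (by rw [hl]; omega)]
  · intro h
    refine ⟨?_, ?_⟩
    · refine hN.val_inj _ _ (by rw [hN.length_inc, hl, hl']) ?_
      rw [hN.val_inc l (by rw [hl]; omega), h]
    · rw [Ne, eq_top_iff' hN hl]; omega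

theorem eq_zero_iff' {Q : ℕ} {l : List Bool} (hl : l.length = Q) :
    l = List.replicate Q false ↔ val l = 0 := by
  constructor
  · rintro rfl; exact hN.val_zero Q
  · intro h
    exact hN.val_inj _ _ (by simp [hl]) (by rw [hN.val_zero, h])

theorem cmps_ok {Q : ℕ} {j jb : List Bool} (hj : j.length = Q) (hjb : jb.length = Q) :
    ((cmps Q j jb).1 = true ↔ val j = 0) ∧ ((cmps Q j jb).2.1 = true ↔ val jb = val j) ∧
    ((cmps Q j jb).2.2.1 = true ↔ val jb + 1 = val j) ∧
    ((cmps Q j jb).2.2.2 = true ↔ val jb = val j + 1) := by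
  unfold cmps
  refine ⟨?_, ?_, ?_, ?_⟩
  · simp only [decide_eq_true_eq]; exact eq_zero_iff' hN hj
  · simp only [decide_eq_true_eq]
    exact ⟨fun h => by rw [h], fun h => hN.val_inj _ _ (by rw [hj, hjb]) h⟩
  · simp only [Bool.and_eq_true, decide_eq_true_eq]; exact inc_iff hN hjb hj
  · simp only [Bool.and_eq_true, decide_eq_true_eq]
    rw [eq_comm (a := jb), eq_comm (a := val jb)]; exact inc_iff hN hj hjb

theorem itemB_iff {p : Prog K} {Q : ℕ} {j jb : List Bool} (hj : j.length = Q)
    (hjb : jb.length = Q) (kv : K × Option Bool) (fb : Fp p) (Y : Rc K)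
    (h1 : Y.j = val jb) (h2 : Y.k = fb.2.2.1) (h3 : Y.v = fb.2.2.2) :
    itemB kv fb (cmps Q j jb) ↔ ItemOK (act fb.1.1) kv.1 (val j) kv.2 Y := by
  obtain ⟨e1, e2, e3, e4⟩ := cmps_ok hN hj hjb
  unfold itemB ItemOK
  rw [h1, h2, h3]
  rcases act fb.1.1 with _ | ⟨k', _ | b⟩
  · simp only [e2]
  · simp only [e2, e4]
  · simp only [e1, e2, e3]

/-- A checked step is locally correct. -/
theorem stepB_iff {p : Prog K} {Q : ℕ} {dec : List Bool → Fp p} {dir : Option K}
    {a b : List Bool} (hTa : (fT Q a).length = Q) (hTb : (fT Q b).length = Q)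
    (hJa : (fJ Q a).length = Q) (hJb : (fJ Q b).length = Q) :
    stepB p dec Q dir a b = true ↔ Loc dir (recOf dec Q a) (recOf dec Q b) := by
  have hj : (jask Q a dir).length = Q := by
    unfold jask; split_ifs
    · exact hJa
    · simp
  unfold stepB Loc G1
  simp only [Bool.and_eq_true, decide_eq_true_eq]
  rw [inc_iff hN hTb hTa, itemB_iff hN hj hJb _ _ (recOf dec Q b) rfl rfl rfl]
  cases dir with
  | none => rfl
  | some k =>
    have : val (jask Q a (some k)) = 0 := by
      unfold jask; rw [if_neg (by simp)]; exact hN.val_zero Q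
    rw [this]
    rfl

/-- The check against the initial configuration. -/
theorem initB_iff {p : Prog K} {i : K} {Q : ℕ} {dec : List Bool → Fp p} {x b : List Bool}
    (hTb : (fT Q b).length = Q) :
    initB p i dec Q x b = true ↔ (recOf dec Q b).t = 0 ∧ (recOf dec Q b).Tr (runOf p i x) := by
  unfold initB G0 Rc.Tr
  simp only [Bool.and_eq_true, decide_eq_true_eq]
  rw [eq_zero_iff' hN hTb]
  constructor
  · rintro ⟨h0, h1, h2, h3⟩
    have h0' : (recOf dec Q b).t = 0 := h0
    refine ⟨h0', ?_, ?_, ?_⟩
    · rw [h0']; exact h1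
    · intro k
      rw [h0']
      show _ = (single i x k).head?
      rw [single_head]
      exact h2 k
    · rw [h0']
      show _ = (single i x _)[_]?
      rw [single_get]
      exact h3
  · rintro ⟨h0, h1, h2, h3⟩
    rw [h0] at h1 h2 h3
    refine ⟨h0, h1, fun k => ?_, ?_⟩
    · have := h2 k
      change _ = (single i x k).head? at this
      rw [single_head] at this
      exact this
    · change _ = (single i x _)[_]? at h3
      rw [single_get] at h3
      exact h3

end numbers

/-! ### The dialogue game decides the output bit -/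

section main

variable {p : Prog K} {i o : K} {c0 : ℕ} {code : Fp p → List Bool} {dec : List Bool → Fp p}

/-- The relation of the dialogue game. -/
def RelD (p : Prog K) (i o : K) (dec : List Bool → Fp p) (c0 Q : ℕ) (x : List Bool) (d : ℕ)
    (a b : List Bool) : Prop :=
  a.length = 2 + (Q + (Q + c0)) ∧ b.length = 2 + (Q + (Q + c0)) ∧
    relB p i o dec Q x (dirOf K d) a b = true

theorem relD_true (hN : ClaimBin) {Q : ℕ} {x : List Bool} {d : ℕ} {a b : List Bool}
    (h : RelD p i o dec c0 Q x d a b) : b.length = 2 + (Q + (Q + c0)) ∧ fMode b = true ∧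
      (fAcc b = true → (recOf dec Q b).t = 0 ∧ (recOf dec Q b).Tr (runOf p i x)) ∧
      (fMode a = true → Loc (dirOf K d) (recOf dec Q a) (recOf dec Q b)) ∧
      (fMode a = false → fT Q b = List.replicate Q true ∧ (recOf dec Q b).s o = some true) := by
  obtain ⟨ha, hb, h⟩ := h
  unfold relB at h
  rw [Bool.and_eq_true, Bool.and_eq_true] at h
  obtain ⟨⟨h1, h2⟩, h3⟩ := h
  refine ⟨hb, h1, fun hacc => ?_, fun hm => ?_, fun hm => ?_⟩
  · rw [hacc] at h2
    exact (initB_iff hN (length_fT hb)).1 (by simpa using h2)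
  · rw [hm] at h3
    exact (stepB_iff hN (length_fT ha) (length_fT hb) (length_fJ ha) (length_fJ hb)).1 h3
  · rw [hm] at h3
    change startB p o dec Q b = true at h3
    unfold startB G2 at h3
    simp only [Bool.and_eq_true, decide_eq_true_eq] at h3
    exact h3

theorem dlg_sound (hN : ClaimBin) (hL : ClaimLocal) {Q : ℕ} {x a : List Bool}
    (h : Dlg (dirs K).length (RelD p i o dec c0 Q x) a) :
    fMode a = true → (fAcc a = true → (recOf dec Q a).t = 0 ∧ (recOf dec Q a).Tr (runOf p i x)) →
      (recOf dec Q a).Tr (runOf p i x) := by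
  induction h with
  | acc a h => intro _ h2; exact (h2 h).2
  | step a y h h' ih =>
    intro hm _
    have key : ∀ dir : Option K, ∃ Y, Loc dir (recOf dec Q a) Y ∧ Y.Tr (runOf p i x) := by
      intro dir
      obtain ⟨d, hd, e⟩ := exists_dir dir
      obtain ⟨_, k1, k2, k3, _⟩ := relD_true hN (h d hd)
      refine ⟨recOf dec Q (y d), ?_, ih d hd k1 k2⟩
      rw [← e]; exact k3 hm
    obtain ⟨Y, hY, _⟩ := key none
    have ht : 0 < (recOf dec Q a).t := by have := hY.1; omega
    exact (hL K inferInstance (runOf p i x) (runOf_succ p i x) _ ht).1 key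

theorem exists_code (hN : ClaimBin) (hc : ∀ f, (code f).length = c0) (hd : ∀ f, dec (code f) = f)
    {Q : ℕ} {x : List Bool} (Y : Rc K) (hY : Y.Tr (runOf p i x)) (ht : Y.t < 2 ^ Q)
    (hj : Y.j < 2 ^ Q) : ∃ b : List Bool, b.length = 2 + (Q + (Q + c0)) ∧ recOf dec Q b = Y ∧
      fMode b = true ∧ fAcc b = decide (Y.t = 0) ∧
      (!(fAcc b) || initB p i dec Q x b) = true := by
  obtain ⟨t, t1, t2⟩ := hN.exists_val Q Y.t ht
  obtain ⟨j, j1, j2⟩ := hN.exists_val Q Y.j hj
  have hcm : Y.c ∈ allc p := by rw [hY.1]; exact run_mem_allc _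
  refine ⟨mkCl (decide (Y.t = 0)) true t j (code (⟨Y.c, hcm⟩, Y.s, Y.k, Y.v)), ?_, ?_, rfl, rfl, ?_⟩
  · rw [length_mk, t1, j1, hc]
  · unfold recOf
    rw [fT_mk _ _ _ _ t1, fJ_mk _ _ _ t1 j1, fR_mk _ _ _ t1 j1, hd, t2, j2]
  · rw [fAcc_mk]
    by_cases h0 : Y.t = 0
    · have e : recOf dec Q (mkCl (decide (Y.t = 0)) true t j
          (code (⟨Y.c, hcm⟩, Y.s, Y.k, Y.v))) = Y := by
        unfold recOf
        rw [fT_mk _ _ _ _ t1, fJ_mk _ _ _ t1 j1, fR_mk _ _ _ t1 j1, hd, t2, j2]
      have := (initB_iff (p := p) (i := i) (dec := dec) (x := x) hN (Q := Q)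
        (b := mkCl (decide (Y.t = 0)) true t j (code (⟨Y.c, hcm⟩, Y.s, Y.k, Y.v)))
        (by rw [fT_mk _ _ _ _ t1]; exact t1)).2 ⟨by rw [e]; exact h0, by rw [e]; exact hY⟩
      rw [this]; simp
    · simp [h0]

theorem dlg_complete (hN : ClaimBin) (hL : ClaimLocal) (hc : ∀ f, (code f).length = c0)
    (hd : ∀ f, dec (code f) = f) {Q : ℕ} {x : List Bool} : ∀ (n : ℕ) (a : List Bool),
    a.length = 2 + (Q + (Q + c0)) → (recOf dec Q a).t = n → fMode a = true →
    fAcc a = decide (n = 0) → (recOf dec Q a).j + n < 2 ^ Q →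
    (recOf dec Q a).Tr (runOf p i x) → Dlg (dirs K).length (RelD p i o dec c0 Q x) a := by
  intro n
  induction n with
  | zero => intro a _ _ _ hacc _ _; exact Dlg.acc a (by change fAcc a = true; rw [hacc]; simp)
  | succ n ih =>
    intro a ha hn hm _ hj hT
    have hpos : 0 < (recOf dec Q a).t := by omega
    have key : ∀ d : ℕ, ∃ b, RelD p i o dec c0 Q x d a b ∧
        Dlg (dirs K).length (RelD p i o dec c0 Q x) b := by
      intro d
      obtain ⟨Y, y1, y2, y3⟩ := (hL K inferInstance (runOf p i x) (runOf_succ p i x) _ hpos).2 hT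
        (dirOf K d)
      have y4 := y1.1
      obtain ⟨b, b1, b2, b3, b4, b5⟩ := exists_code (code := code) (dec := dec) (i := i) (Q := Q)
        (x := x) hN hc hd Y y2 (by omega) (by omega)
      have hYt : Y.t = n := by omega
      refine ⟨b, ⟨ha, b1, ?_⟩, ih b b1 (by rw [b2, hYt]) b3 (by rw [b4, hYt])
        (by rw [b2]; omega) (by rw [b2]; exact y2)⟩
      unfold relB
      rw [b3, b5, hm]
      simp only [Bool.true_and, cond_true]
      exact (stepB_iff hN (length_fT ha) (length_fT b1) (length_fJ ha) (length_fJ b1)).2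
        (by rw [b2]; exact y1)
    choose y hy1 hy2 using key
    exact Dlg.step a y (fun d _ => hy1 d) (fun d _ => hy2 d)

theorem dlg_iff (hN : ClaimBin) (hL : ClaimLocal) (hc : ∀ f, (code f).length = c0)
    (hd : ∀ f, dec (code f) = f) {Q : ℕ} {x : List Bool} :
    Dlg (dirs K).length (RelD p i o dec c0 Q x) (List.replicate (2 + (Q + (Q + c0))) false) ↔
      ((runOf p i x (2 ^ Q - 1)).2 o).head? = some true := by
  have hp : 0 < 2 ^ Q := by positivity
  have hm0 : fMode (List.replicate (2 + (Q + (Q + c0))) false) = false := by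
    have : 2 + (Q + (Q + c0)) = (Q + (Q + c0)) + 1 + 1 := by omega
    rw [this, List.replicate_succ, List.replicate_succ]
    rfl
  have ha0 : (List.replicate (2 + (Q + (Q + c0))) false).headD false = false := by
    have : 2 + (Q + (Q + c0)) = (Q + (Q + c0)) + 1 + 1 := by omega
    rw [this, List.replicate_succ]
    rfl
  constructor
  · intro h
    cases h with
    | acc _ h => rw [ha0] at h; cases h
    | step _ y h h' =>
      have h0 : 0 < (dirs K).length := by simp [dirs]
      obtain ⟨k0, k1, k2, _, k4⟩ := relD_true hN (h 0 h0)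
      obtain ⟨k5, k6⟩ := k4 hm0
      have k7 := dlg_sound hN hL (h' 0 h0) k1 k2
      have k8 := k7.2.1 o
      rw [k6] at k8
      have k9 : (recOf dec Q (y 0)).t = 2 ^ Q - 1 := by
        unfold recOf
        rw [k5]
        exact hN.val_top Q
      rw [k9] at k8
      exact k8.symm
  · intro h
    let Y : Rc K := ⟨2 ^ Q - 1, 0, (runOf p i x (2 ^ Q - 1)).1,
      fun k => ((runOf p i x (2 ^ Q - 1)).2 k).head?, o,
      ((runOf p i x (2 ^ Q - 1)).2 o)[0]?⟩
    have hY : Y.Tr (runOf p i x) := ⟨rfl, fun k => rfl, rfl⟩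
    obtain ⟨b, b1, b2, b3, b4, b5⟩ := exists_code (code := code) (dec := dec) (i := i) (Q := Q)
      (x := x) hN hc hd Y hY (by show 2 ^ Q - 1 < _; omega) (by show 0 < _; omega)
    refine Dlg.step _ (fun _ => b) (fun d _ => ⟨by simp, b1, ?_⟩) (fun d _ => ?_)
    · unfold relB
      rw [b3, b5, hm0]
      simp only [Bool.true_and, cond_false]
      unfold startB G2
      simp only [Bool.and_eq_true, decide_eq_true_eq]
      constructor
      · rw [eq_top_iff' hN (length_fT b1)]
        have : val (fT Q b) = 2 ^ Q - 1 := congrArg Rc.t b2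
        omega
      · have : (dec (fR Q b)).2.1 = fun k => ((runOf p i x (2 ^ Q - 1)).2 k).head? :=
          congrArg Rc.s b2
        rw [this]
        exact h
    · exact dlg_complete hN hL hc hd (2 ^ Q - 1) b b1 (by rw [b2]) b3 b4
        (by rw [b2]; show 0 + (2 ^ Q - 1) < _; omega) (by rw [b2]; exact hY)

end main

/-! ### Polynomial time -/

section ptf

variable {α : Type} [Enc α] {p : Prog K} {i o : K}

theorem ptf_fAcc {a : α → List Bool} (ha : PTF a) : PTF (fun s => fAcc (a s)) := by
  unfold fAcc; fun_prop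

theorem ptf_fMode {a : α → List Bool} (ha : PTF a) : PTF (fun s => fMode (a s)) := by
  unfold fMode; fun_prop

theorem ptf_fT {Q : α → ℕ} {a : α → List Bool} (hQ : PTF Q) (ha : PTF a) :
    PTF (fun s => fT (Q s) (a s)) := by
  unfold fT; fun_prop

theorem ptf_fJ {Q : α → ℕ} {a : α → List Bool} (hQ : PTF Q) (ha : PTF a) :
    PTF (fun s => fJ (Q s) (a s)) := by
  unfold fJ; fun_prop

theorem ptf_fR {Q : α → ℕ} {a : α → List Bool} (hQ : PTF Q) (ha : PTF a) :
    PTF (fun s => fR (Q s) (a s)) := by
  unfold fR; fun_prop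

theorem ptf_jask [Enc K] {Q : α → ℕ} {a : α → List Bool} {dir : α → Option K} (hQ : PTF Q)
    (ha : PTF a) (hdir : PTF dir) : PTF (fun s => jask (Q s) (a s) (dir s)) := by
  unfold jask
  exact PTF.ite (PTF.eq hdir (PTF.const none)) (ptf_fJ hQ ha) (PTF.replicate hQ (PTF.const false))

theorem ptf_cmps (hN : ClaimBin) {Q : α → ℕ} {j jb : α → List Bool} (hQ : PTF Q) (hj : PTF j)
    (hjb : PTF jb) : PTF (fun s => cmps (Q s) (j s) (jb s)) := by
  have h1 : PTF (fun s => inc (j s)) := hN.ptf_inc.comp hj
  have h2 : PTF (fun s => inc (jb s)) := hN.ptf_inc.comp hjb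
  have h3 : PTF (fun s => List.replicate (Q s) false) := PTF.replicate hQ (PTF.const false)
  have h4 : PTF (fun s => List.replicate (Q s) true) := PTF.replicate hQ (PTF.const true)
  unfold cmps
  exact (PTF.eq hj h3).pair ((PTF.eq hjb hj).pair (((PTF.eq h2 hj).and (PTF.ne hjb h4)).pair
    ((PTF.eq hjb h1).and (PTF.ne hj h4))))

theorem ptf_relB (hN : ClaimBin) [Enc K] [Enc {c : List (Prog K) // c ∈ allc p}]
    [Enc (K → Option Bool)] {dec : List Bool → Fp p} (hdec : PTF dec) {Q : α → ℕ}
    {x a b : α → List Bool} {dir : α → Option K} (hQ : PTF Q) (hx : PTF x) (ha : PTF a)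
    (hb : PTF b) (hdir : PTF dir) :
    PTF (fun s => relB p i o dec (Q s) (x s) (dir s) (a s) (b s)) := by
  have : Finite {c : List (Prog K) // c ∈ allc p} := List.finite_toSet (allc p)
  have hfa : PTF (fun s => dec (fR (Q s) (a s))) := hdec.comp (ptf_fR hQ ha)
  have hfb : PTF (fun s => dec (fR (Q s) (b s))) := hdec.comp (ptf_fR hQ hb)
  have hTa := ptf_fT hQ ha
  have hTb := ptf_fT hQ hb
  have hJb := ptf_fJ hQ hb
  have hz : PTF (fun s => List.replicate (Q s) false) := PTF.replicate hQ (PTF.const false)
  have ho : PTF (fun s => List.replicate (Q s) true) := PTF.replicate hQ (PTF.const true)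
  have h1 : PTF (fun s => initB p i dec (Q s) (x s) (b s)) := by
    unfold initB
    refine (PTF.eq hTb hz).and ?_
    exact (PTF.of_finite (G0 p i)).comp (hfb.pair ((PTF.head? hx).pair
      (hN.ptf_look.comp (hx.pair hJb))))
  have h2 : PTF (fun s => startB p o dec (Q s) (b s)) := by
    unfold startB
    exact (PTF.eq hTb ho).and ((PTF.of_finite (G2 o)).comp hfb)
  have h3 : PTF (fun s => stepB p dec (Q s) (dir s) (a s) (b s)) := by
    unfold stepB
    refine ((PTF.eq (hN.ptf_inc.comp hTb) hTa).and (PTF.ne hTb ho)).and ?_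
    exact (PTF.of_finite (G1 (p := p))).comp (hfa.pair (hfb.pair (hdir.pair
      (ptf_cmps hN hQ (ptf_jask hQ ha hdir) hJb))))
  unfold relB
  exact ((ptf_fMode hb).and ((ptf_fAcc hb).not.or h1)).and ((ptf_fMode ha).cond' h3 h2)

end ptf

end rel

theorem claimDialogue (hN : ClaimBin) (hL : ClaimLocal) : ClaimDialogue := by
  intro K _ _ p i o q hq
  classical
  have hf : Finite {c : List (Prog K) // c ∈ allc p} := List.finite_toSet (allc p)
  let _ : Enc K := Enc.ofFinite K
  let _ : Enc {c : List (Prog K) // c ∈ allc p} := Enc.ofFinite _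
  let _ : Enc (K → Option Bool) := Enc.ofFinite _
  obtain ⟨c0, code, dec, hdec, hc, hd⟩ := fin_code (Fp p)
    (⟨[p], run_mem_allc (S := single i []) 0⟩, fun _ => none, i, none)
  have hl : PTF (fun x => 2 + (q x + (q x + c0))) := by fun_prop
  refine ⟨(dirs K).length, fun x => 2 + (q x + (q x + c0)),
    fun s => relB p i o dec (q s.1.1) s.1.1 (dirOf K s.1.2)
      (s.2.take (2 + (q s.1.1 + (q s.1.1 + c0)))) (s.2.drop (2 + (q s.1.1 + (q s.1.1 + c0)))),
    hl, fun x => by positivity, ?_, fun x => ?_⟩
  · refine ptf_relB hN hdec (hq.comp PTF.fst.fst') PTF.fst.fst' ?_ ?_ ?_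
    · exact PTF.take PTF.snd (hl.comp PTF.fst.fst')
    · exact PTF.drop PTF.snd (hl.comp PTF.fst.fst')
    · unfold dirOf
      exact PTF.getD (PTF.const _) PTF.fst.snd' (PTF.const _)
  · have key := dlg_iff (p := p) (i := i) (o := o) (c0 := c0) (code := code) (dec := dec) hN hL hc
      hd (Q := q x) (x := x)
    refine Iff.trans ?_ key
    have e : (fun (d : ℕ) (a b : List Bool) => a.length = 2 + (q x + (q x + c0)) ∧
        b.length = 2 + (q x + (q x + c0)) ∧
        relB p i o dec (q x) x (dirOf K d) ((a ++ b).take (2 + (q x + (q x + c0))))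
          ((a ++ b).drop (2 + (q x + (q x + c0)))) = true) =
        RelD p i o dec c0 (q x) x := by
      funext d a b
      apply propext
      unfold RelD
      refine and_congr_right fun ha => and_congr_right fun _ => ?_
      rw [← ha, List.take_left, List.drop_left]
    dsimp only
    rw [e]

end Pool.Agent.Work.MP_817c3f_lc
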