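import Pool.Agent.Work.MP_817c3f_lc.Core2

/-!
# Codes of positions
-/

set_option autoImplicit false

namespace Pool.Agent.Work.MP_817c3f_lc

open Pool.Agent.PT Turing Function

namespace Encode

/-! ### Lists of rows -/

lemma rows_getD {α β : Type} (f : α → List β) (n : ℕ) (d : β) : ∀ (l : List α)
    (_ : ∀ a ∈ l, (f a).length = n) (i j : ℕ) (hi : i < l.length) (_ : j < n),
    (l.flatMap f).getD (i * n + j) d = (f (l[i])).getD j d := by
  intro l
  induction l with
  | nil =>
    intro _ i j hi _
    exact absurd hi (Nat.not_lt_zero _)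
  | cons a l ih =>
    intro hl i j hi hj
    have ha : (f a).length = n := hl a List.mem_cons_self
    rw [List.flatMap_cons]
    cases i with
    | zero =>
      rw [Nat.zero_mul, Nat.zero_add, List.getD_append _ _ _ _ (by rw [ha]; exact hj)]
      rfl
    | succ i =>
      have h1 : (i + 1) * n + j = (i * n + j) + (f a).length := by rw [ha]; ring
      rw [h1, List.getD_append_right _ _ _ _ (Nat.le_add_left _ _), Nat.add_sub_cancel]
      rw [ih (fun b hb => hl b (List.mem_cons_of_mem _ hb)) i j (by simpa using hi) hj]
      rfl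

lemma matBits_length {n : ℕ} (M : Fin n → Fin n → Bool) : (matBits M).length = n * n := by
  unfold matBits
  rw [List.length_flatMap]
  simp

lemma matBits_getD {n : ℕ} (M : Fin n → Fin n → Bool) (u v : Fin n) :
    (matBits M).getD (u * n + v) false = M u v := by
  unfold matBits
  rw [rows_getD _ n false _ (by intro a _; simp) u v (by simp) v.2]
  rw [List.getD_eq_getElem _ _ (by simp)]
  simp

lemma mat_of_list {n : ℕ} (y : List Bool) (hy : y.length = n * n) :
    matBits (fun u v : Fin n => y.getD (u * n + v) false) = y := by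
  apply List.ext_getElem
  · rw [matBits_length, hy]
  · intro i h1 h2
    rw [matBits_length] at h1
    have hn : 0 < n := by
      rcases Nat.eq_zero_or_pos n with h | h
      · subst h
        simp at h1
      · exact h
    have hu : i / n < n := Nat.div_lt_of_lt_mul h1
    have hv : i % n < n := Nat.mod_lt _ hn
    have h3 := matBits_getD (fun u v : Fin n => y.getD (u * n + v) false) ⟨i / n, hu⟩ ⟨i % n, hv⟩
    have h4 : i / n * n + i % n = i := by
      rw [Nat.mul_comm]
      exact Nat.div_add_mod i n
    simp only [h4] at h3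
    rw [List.getD_eq_getElem _ _ (by rw [matBits_length]; exact h1),
      List.getD_eq_getElem _ _ h2] at h3
    exact h3

lemma occ_of_list {n : ℕ} (y : List Bool) (hy : y.length = n) :
    (List.finRange n).map (fun u : Fin n => y.getD u false) = y := by
  apply List.ext_getElem
  · simp [hy]
  · intro i h1 h2
    rw [List.getElem_map, List.getElem_finRange]
    exact List.getD_eq_getElem _ _ h2

/-! ### Structure of a code -/

/-- The part of the code after the unary number. -/
def tail (P : Position) : List Bool :=
  matBits P.E ++ (matBits P.EL ++ (matBits P.ER ++ ((List.finRange P.n).map P.occ ++ [P.left])))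

lemma encode_eq (P : Position) : P.encode = List.replicate P.n true ++ (false :: tail P) := rfl

lemma decN_unary (n : ℕ) (l : List Bool) : decN (List.replicate n true ++ (false :: l)) = n := by
  unfold decN
  rw [List.idxOf_append_of_notMem]
  · simp
  · intro h
    exact absurd (List.eq_of_mem_replicate h) (by simp)

lemma decN_encode (P : Position) : decN P.encode = P.n := decN_unary _ _

lemma encode_length (P : Position) :
    P.encode.length = P.n + 1 + 3 * (P.n * P.n) + P.n + 1 := by
  rw [encode_eq, tail]
  simp only [List.length_append, List.length_cons, List.length_replicate, matBits_length,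
    List.length_map, List.length_finRange, List.length_nil]
  ring

lemma getD_encode (P : Position) (i : ℕ) :
    P.encode.getD (P.n + 1 + i) false = (tail P).getD i false := by
  rw [encode_eq, List.getD_append_right _ _ _ _ (by simp; omega)]
  simp only [List.length_replicate]
  have h : P.n + 1 + i - P.n = i + 1 := by omega
  rw [h, List.getD_cons_succ]

lemma getD_encode' (P : Position) (j i : ℕ) (h : j = P.n + 1 + i) :
    P.encode.getD j false = (tail P).getD i false := by
  rw [h, getD_encode]

lemma app_right {l l' : List Bool} {i m : ℕ} (h : l.length = m) :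
    (l ++ l').getD (m + i) false = l'.getD i false := by
  subst h
  rw [List.getD_append_right _ _ _ _ (Nat.le_add_right _ _), Nat.add_sub_cancel_left]

lemma uv_lt {n : ℕ} (u v : Fin n) : (u : ℕ) * n + v < n * n := by
  have hu := u.2
  have hv := v.2
  calc (u : ℕ) * n + v < u * n + n := by omega
    _ = (u + 1) * n := by ring
    _ ≤ n * n := Nat.mul_le_mul_right n hu

end Encode

open Encode

theorem decN_encode (P : Position) : decN P.encode = P.n := Encode.decN_encode P

theorem matE_encode0 (P : Position) (u v : Fin P.n) : matE P.encode 0 u v = P.E u v := by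
  rw [matE, Encode.decN_encode, Nat.zero_mul, Nat.add_zero, getD_encode, Encode.tail,
    List.getD_append _ _ _ _ (by rw [matBits_length]; exact uv_lt u v), matBits_getD]

theorem matE_encode1 (P : Position) (u v : Fin P.n) : matE P.encode 1 u v = P.EL u v := by
  rw [matE, Encode.decN_encode, Nat.one_mul]
  rw [getD_encode' P _ (P.n * P.n + (u * P.n + v)) (by ring), Encode.tail,
    app_right (matBits_length _),
    List.getD_append _ _ _ _ (by rw [matBits_length]; exact uv_lt u v), matBits_getD]

theorem matE_encode2 (P : Position) (u v : Fin P.n) : matE P.encode 2 u v = P.ER u v := by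
  rw [matE, Encode.decN_encode]
  rw [getD_encode' P _ (P.n * P.n + (P.n * P.n + (u * P.n + v))) (by ring), Encode.tail,
    app_right (matBits_length _), app_right (matBits_length _),
    List.getD_append _ _ _ _ (by rw [matBits_length]; exact uv_lt u v), matBits_getD]

theorem matE_encode (P : Position) (b : Bool) (u v : Fin P.n) :
    matE P.encode (if b then 1 else 2) u v = bif b then P.EL u v else P.ER u v := by
  cases b
  · exact matE_encode2 P u v
  · exact matE_encode1 P u v

theorem occ_encode (P : Position) (u : Fin P.n) :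
    P.encode.getD (decN P.encode + 1 + 3 * (decN P.encode * decN P.encode) + u) false
      = P.occ u := by
  rw [Encode.decN_encode]
  rw [getD_encode' P _ (P.n * P.n + (P.n * P.n + (P.n * P.n + u))) (by ring), Encode.tail,
    app_right (matBits_length _), app_right (matBits_length _), app_right (matBits_length _),
    List.getD_append _ _ _ _ (by simp), List.getD_eq_getElem _ _ (by simp)]
  simp

theorem occL_encode (P : Position) : occL P.encode = (List.finRange P.n).map P.occ := by
  unfold occL
  apply List.ext_getElem
  · simp [Encode.decN_encode]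
  · intro i h1 h2
    have hi : i < P.n := by simpa using h2
    rw [List.getElem_map, List.getElem_map, List.getElem_range, List.getElem_finRange]
    exact occ_encode P ⟨i, hi⟩

theorem leftB_encode (P : Position) : leftB P.encode = P.left := by
  unfold leftB
  rw [Encode.decN_encode]
  rw [getD_encode' P _ (P.n * P.n + (P.n * P.n + (P.n * P.n + (P.n + 0)))) (by ring), Encode.tail,
    app_right (matBits_length _), app_right (matBits_length _), app_right (matBits_length _),
    app_right (by simp)]
  rfl

theorem valid_encode (P : Position) : valid P.encode = true := by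
  unfold valid
  rw [Bool.and_eq_true]
  refine ⟨?_, ?_⟩
  · rw [decide_eq_true_eq, Encode.decN_encode, encode_length]
  · rw [List.all_eq_true]
    intro u hu
    rw [List.all_eq_true]
    intro v hv
    rw [Encode.decN_encode, List.mem_range] at hu hv
    have h0 := matE_encode0 P ⟨u, hu⟩ ⟨v, hv⟩
    have h1 := matE_encode1 P ⟨u, hu⟩ ⟨v, hv⟩
    have h2 := matE_encode2 P ⟨u, hu⟩ ⟨v, hv⟩
    simp only at h0 h1 h2
    rw [h0, h1, h2]
    have s1 := P.subL ⟨u, hu⟩ ⟨v, hv⟩
    have s2 := P.subR ⟨u, hu⟩ ⟨v, hv⟩
    revert s1 s2
    cases P.E ⟨u, hu⟩ ⟨v, hv⟩ <;> cases P.EL ⟨u, hu⟩ ⟨v, hv⟩ <;>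
      cases P.ER ⟨u, hu⟩ ⟨v, hv⟩ <;> simp

theorem encode_inj (P Q : Position) (h : P.encode = Q.encode) : P = Q := by
  have hn : P.n = Q.n := by rw [← Encode.decN_encode P, h, Encode.decN_encode]
  have hE : ∀ (u v : ℕ) (hu : u < P.n) (hv : v < P.n), P.E ⟨u, hu⟩ ⟨v, hv⟩
      = Q.E ⟨u, hn ▸ hu⟩ ⟨v, hn ▸ hv⟩ := by
    intro u v hu hv
    have h1 := matE_encode0 P ⟨u, hu⟩ ⟨v, hv⟩
    have h2 := matE_encode0 Q ⟨u, hn ▸ hu⟩ ⟨v, hn ▸ hv⟩
    rw [← h1, ← h2, h]
  have hEL : ∀ (u v : ℕ) (hu : u < P.n) (hv : v < P.n), P.EL ⟨u, hu⟩ ⟨v, hv⟩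
      = Q.EL ⟨u, hn ▸ hu⟩ ⟨v, hn ▸ hv⟩ := by
    intro u v hu hv
    have h1 := matE_encode1 P ⟨u, hu⟩ ⟨v, hv⟩
    have h2 := matE_encode1 Q ⟨u, hn ▸ hu⟩ ⟨v, hn ▸ hv⟩
    rw [← h1, ← h2, h]
  have hER : ∀ (u v : ℕ) (hu : u < P.n) (hv : v < P.n), P.ER ⟨u, hu⟩ ⟨v, hv⟩
      = Q.ER ⟨u, hn ▸ hu⟩ ⟨v, hn ▸ hv⟩ := by
    intro u v hu hv
    have h1 := matE_encode2 P ⟨u, hu⟩ ⟨v, hv⟩
    have h2 := matE_encode2 Q ⟨u, hn ▸ hu⟩ ⟨v, hn ▸ hv⟩
    rw [← h1, ← h2, h]
  have hocc : ∀ (u : ℕ) (hu : u < P.n), P.occ ⟨u, hu⟩ = Q.occ ⟨u, hn ▸ hu⟩ := by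
    intro u hu
    have h1 := occ_encode P ⟨u, hu⟩
    have h2 := occ_encode Q ⟨u, hn ▸ hu⟩
    rw [← h1, ← h2, h]
  have hl : P.left = Q.left := by rw [← leftB_encode P, ← leftB_encode Q, h]
  clear h
  obtain ⟨⟨n, E, EL, ER, sL, sR⟩, occ, left⟩ := P
  obtain ⟨⟨n', E', EL', ER', sL', sR'⟩, occ', left'⟩ := Q
  simp only at hn
  subst hn
  simp only at hE hEL hER hocc hl
  have e1 : E = E' := by
    funext u v
    exact hE u v u.2 v.2
  have e2 : EL = EL' := by
    funext u v
    exact hEL u v u.2 v.2
  have e3 : ER = ER' := by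
    funext u v
    exact hER u v u.2 v.2
  have e4 : occ = occ' := by
    funext u
    exact hocc u u.2
  subst e1 e2 e3 e4 hl
  rfl

/-- The list splits after the unary number. -/
theorem unary_split (x : List Bool) (h : decN x < x.length) :
    x = List.replicate (decN x) true ++ (false :: x.drop (decN x + 1)) := by
  induction x with
  | nil => simp at h
  | cons b l ih =>
    cases b with
    | false => simp [decN]
    | true =>
      have h1 : decN (true :: l) = decN l + 1 := by
        unfold decN
        rw [List.idxOf_cons_ne _ (by simp)]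
      rw [h1] at h ⊢
      have h2 : decN l < l.length := by simpa using h
      rw [List.replicate_succ, List.cons_append, List.drop_succ_cons]
      congr 1
      exact ih h2

theorem exists_of_valid (x : List Bool) (h : valid x = true) : ∃ P : Position, P.encode = x := by
  unfold valid at h
  rw [Bool.and_eq_true, decide_eq_true_eq] at h
  obtain ⟨hlen, hall⟩ := h
  rw [List.all_eq_true] at hall
  have hall' : ∀ u v : ℕ, u < decN x → v < decN x →
      (matE x 1 u v = true → matE x 0 u v = true) ∧
      (matE x 2 u v = true → matE x 0 u v = true) := by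
    intro u v hu hv
    have h1 := hall u (List.mem_range.mpr hu)
    rw [List.all_eq_true] at h1
    have h2 := h1 v (List.mem_range.mpr hv)
    revert h2
    cases matE x 0 u v <;> cases matE x 1 u v <;> cases matE x 2 u v <;> simp
  have hsplit := unary_split x (by omega)
  set n := decN x with hn
  set y := x.drop (n + 1) with hy
  have hylen : y.length = 3 * (n * n) + n + 1 := by
    rw [hy, List.length_drop, hlen]
    omega
  have hget : ∀ i, x.getD (n + 1 + i) false = y.getD i false := by
    intro i
    conv_lhs => rw [hsplit]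
    rw [List.getD_append_right _ _ _ _ (by simp; omega)]
    simp only [List.length_replicate]
    have h : n + 1 + i - n = i + 1 := by omega
    rw [h, List.getD_cons_succ]
  -- the parts
  set y0 := y.take (n * n) with hy0
  set r1 := y.drop (n * n) with hr1
  set y1 := r1.take (n * n) with hy1
  set r2 := r1.drop (n * n) with hr2
  set y2 := r2.take (n * n) with hy2
  set r3 := r2.drop (n * n) with hr3
  set y3 := r3.take n with hy3
  set r4 := r3.drop n with hr4
  have e0 : y = y0 ++ r1 := (List.take_append_drop _ _).symm
  have e1 : r1 = y1 ++ r2 := (List.take_append_drop _ _).symm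
  have e2 : r2 = y2 ++ r3 := (List.take_append_drop _ _).symm
  have e3 : r3 = y3 ++ r4 := (List.take_append_drop _ _).symm
  have l0 : y0.length = n * n := by rw [hy0, List.length_take]; omega
  have lr1 : r1.length = 2 * (n * n) + n + 1 := by rw [hr1, List.length_drop]; omega
  have l1 : y1.length = n * n := by rw [hy1, List.length_take]; omega
  have lr2 : r2.length = n * n + n + 1 := by rw [hr2, List.length_drop]; omega
  have l2 : y2.length = n * n := by rw [hy2, List.length_take]; omega
  have lr3 : r3.length = n + 1 := by rw [hr3, List.length_drop]; omega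
  have l3 : y3.length = n := by rw [hy3, List.length_take]; omega
  have lr4 : r4.length = 1 := by rw [hr4, List.length_drop]; omega
  have g0 : ∀ i, i < n * n → y.getD i false = y0.getD i false := by
    intro i hi
    rw [e0, List.getD_append _ _ _ _ (by rw [l0]; exact hi)]
  have g1 : ∀ i, i < n * n → y.getD (n * n + i) false = y1.getD i false := by
    intro i hi
    rw [e0, app_right l0, e1, List.getD_append _ _ _ _ (by rw [l1]; exact hi)]
  have g2 : ∀ i, i < n * n → y.getD (n * n + (n * n + i)) false = y2.getD i false := by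
    intro i hi
    rw [e0, app_right l0, e1, app_right l1, e2, List.getD_append _ _ _ _ (by rw [l2]; exact hi)]
  have m0 : ∀ u v : Fin n, matE x 0 u v = y0.getD (u * n + v) false := by
    intro u v
    rw [matE, ← hn, Nat.zero_mul, Nat.add_zero, hget, g0 _ (uv_lt u v)]
  have m1 : ∀ u v : Fin n, matE x 1 u v = y1.getD (u * n + v) false := by
    intro u v
    rw [matE, ← hn, Nat.one_mul, Nat.add_assoc (n + 1), hget, g1 _ (uv_lt u v)]
  have m2 : ∀ u v : Fin n, matE x 2 u v = y2.getD (u * n + v) false := by
    intro u v
    rw [matE, ← hn]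
    have : n + 1 + 2 * (n * n) + (u * n + v) = n + 1 + (n * n + (n * n + (u * n + v))) := by ring
    rw [this, hget, g2 _ (uv_lt u v)]
  refine ⟨⟨⟨n, fun u v => y0.getD (u * n + v) false, fun u v => y1.getD (u * n + v) false,
    fun u v => y2.getD (u * n + v) false, ?_, ?_⟩, fun u => y3.getD u false,
    r4.getD 0 false⟩, ?_⟩
  · intro u v huv
    rw [← m0]
    rw [← m1] at huv
    exact (hall' u v u.2 v.2).1 huv
  · intro u v huv
    rw [← m0]
    rw [← m2] at huv
    exact (hall' u v u.2 v.2).2 huv
  · rw [encode_eq, Encode.tail]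
    simp only
    rw [mat_of_list y0 l0, mat_of_list y1 l1, mat_of_list y2 l2, occ_of_list y3 l3]
    have l5 : r4 = [r4.getD 0 false] := by
      obtain ⟨a, ha⟩ := List.length_eq_one_iff.mp lr4
      rw [ha]
      rfl
    rw [← l5, ← e3, ← e2, ← e1, ← e0]
    exact hsplit.symm

theorem claimEncode : ClaimEncode :=
  ⟨encode_inj, fun x => ⟨exists_of_valid x, fun ⟨P, hP⟩ => hP ▸ valid_encode P⟩⟩

end Pool.Agent.Work.MP_817c3f_lc
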