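import Pool.Agent.Work.PT.CookLevin
import Pool.Agent.Work.MP_817c3f_lc.Core

/-!
# Exponential time machines as stack programs
-/

set_option autoImplicit false

namespace Pool.Agent.Work.MP_817c3f_lc

open Pool.Agent.PT Turing Function

namespace EP

theorem ptf_pow {α : Type} [Enc α] {n : α → ℕ} (hn : PTF n) (k : ℕ) :
    PTF (fun a => n a ^ k) := by
  induction k with
  | zero => exact (PTF.const 1).congr (fun a => by simp)
  | succ k ih => exact (ih.mul hn).congr (fun a => by rw [pow_succ])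

theorem ptf_eval {α : Type} [Enc α] (p : Polynomial ℕ) {n : α → ℕ} (hn : PTF n) :
    PTF (fun a => p.eval (n a)) := by
  induction p using Polynomial.induction_on' with
  | add p q hp hq => exact (hp.add hq).congr (fun a => by rw [Polynomial.eval_add])
  | monomial k c =>
    exact ((PTF.const c).mul (ptf_pow hn k)).congr (fun a => by rw [Polynomial.eval_monomial])

theorem sz_le_length (x : List Bool) : sz x ≤ 4 * x.length + 1 := by
  induction x with
  | nil => simp [sz_nil]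
  | cons b x ih =>
    rw [sz_cons]
    have := sz_bool b
    simp only [List.length_cons]
    omega

theorem bound (S E k c : ℕ) : (20 * (S + (2 * 2 ^ E + 1) + 1 + 2) ^ k + 100 * S + 100 + 1) * c ≤
    2 ^ ((S + E + 3) * k + S + 9 + c) - 1 := by
  have hS : S < 2 ^ S := Nat.lt_two_pow_self
  have hc : c < 2 ^ c := Nat.lt_two_pow_self
  have hE : 1 ≤ 2 ^ E := Nat.one_le_two_pow
  have hS1 : 1 ≤ 2 ^ S := Nat.one_le_two_pow
  have h1 : S + (2 * 2 ^ E + 1) + 1 + 2 ≤ 2 ^ (S + E + 3) := by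
    rw [pow_add, pow_add]
    have h2 : S ≤ 2 ^ S * 2 ^ E := by nlinarith
    have h3 : 2 ^ E ≤ 2 ^ S * 2 ^ E := by nlinarith
    have h4 : 1 ≤ 2 ^ S * 2 ^ E := by nlinarith
    omega
  have h2 : (S + (2 * 2 ^ E + 1) + 1 + 2) ^ k ≤ 2 ^ ((S + E + 3) * k) := by
    rw [pow_mul]
    exact Nat.pow_le_pow_left h1 k
  have hk : 1 ≤ 2 ^ ((S + E + 3) * k) := Nat.one_le_two_pow
  have h3 : 20 * (S + (2 * 2 ^ E + 1) + 1 + 2) ^ k + 100 * S + 100 + 1 ≤
      2 ^ ((S + E + 3) * k + S + 8) := by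
    rw [pow_add, pow_add]
    have a1 : 2 ^ ((S + E + 3) * k) ≤ 2 ^ ((S + E + 3) * k) * 2 ^ S := by nlinarith
    have a2 : S ≤ 2 ^ ((S + E + 3) * k) * 2 ^ S := by nlinarith
    have a3 : 1 ≤ 2 ^ ((S + E + 3) * k) * 2 ^ S := by nlinarith
    omega
  have h4 : (20 * (S + (2 * 2 ^ E + 1) + 1 + 2) ^ k + 100 * S + 100 + 1) * c ≤
      2 ^ ((S + E + 3) * k + S + 8) * 2 ^ c := Nat.mul_le_mul h3 hc.le
  have h5 : 2 ^ ((S + E + 3) * k + S + 9 + c) =
      2 * (2 ^ ((S + E + 3) * k + S + 8) * 2 ^ c) := by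
    rw [← pow_add, ← pow_succ']
    congr 1
    ring
  have h6 : 1 ≤ 2 ^ ((S + E + 3) * k + S + 8) * 2 ^ c := by
    rw [← pow_add]
    exact Nat.one_le_two_pow
  rw [h5]
  omega

end EP

/-- **Module E**. -/
theorem claimExp : ClaimExp := by
  intro L hL
  obtain ⟨P, f, M, hf, hM⟩ := hL
  obtain ⟨R, hR, hRs⟩ := clock M.tm M.inputAlphabet M.outputAlphabet
  have he : PTF (fun x : List Bool => P.eval x.length) := EP.ptf_eval P PTF.id.length
  set e : List Bool → ℕ := fun x => P.eval x.length with hedef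
  have hg : PTF (fun p : List Bool × ℕ =>
      if R (p.2, p.1) = some [true] then [true] else [false]) :=
    PTF.ite (PTF.eq (hR.comp (PTF.snd.pair PTF.fst)) (PTF.const _)) (PTF.const _) (PTF.const _)
  obtain ⟨B, ⟨k, hB⟩, hT⟩ := TimeF.fpt hg he
  obtain ⟨K, i1, i2, p, i, o, hp⟩ := hT.raw_prog
  have hval : ∀ x, (if R (2 ^ e x, x) = some [true] then [true] else [false]) = [f x] := by
    intro x
    have h1 : R (2 ^ e x, x) = some [f x] := by
      rw [hRs]
      have h2 := M.outputsFun x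
      exact ⟨⟨h2.toEvalsTo, h2.steps_le_m.trans (hM _)⟩⟩
    rw [h1]
    cases f x <;> simp
  refine ⟨K, i1, i2, p, i, o, fun x => (4 * x.length + 1 + e x + 3) * k + (4 * x.length + 1) + 9 +
    p.psize, ?_, fun x => ⟨single o [f x], ?_, ?_⟩⟩
  · have hl : PTF (fun x : List Bool => 4 * x.length + 1) :=
      ((PTF.const 4).mul PTF.id.length).add (PTF.const 1)
    exact (((((hl.add he).add (PTF.const 3)).mul (PTF.const k)).add hl).add (PTF.const 9)).add
      (PTF.const _)
  · obtain ⟨t, ht, hex⟩ := hp x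
    simp only at hex
    rw [hval x] at hex
    obtain ⟨n, hn, hs⟩ := hex.small
    have hB' := hB (x, 2 ^ e x)
    rw [sz_pair, sz_nat] at hB'
    have hsz := EP.sz_le_length x
    have h1 : B (x, 2 ^ e x) ≤ (4 * x.length + 1 + (2 * 2 ^ e x + 1) + 1 + 2) ^ k :=
      hB'.trans (Nat.pow_le_pow_left (by omega) k)
    have h2 : n ≤ (20 * (4 * x.length + 1 + (2 * 2 ^ e x + 1) + 1 + 2) ^ k +
        100 * (4 * x.length + 1) + 100 + 1) * p.psize := by
      refine hn.trans (Nat.mul_le_mul_right _ ?_)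
      omega
    have h3 := h2.trans (EP.bound (4 * x.length + 1) (e x) k p.psize)
    obtain ⟨d, hd⟩ := Nat.exists_eq_add_of_le h3
    rw [hd, Nat.add_comm n d, iterate_add_apply, hs [], iterate_nil]
  · rw [hf x]
    cases f x <;> simp [single]

end Pool.Agent.Work.MP_817c3f_lc
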