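import Pool.Agent.Work.MP_817c3f_lc.Core2

/-!
# Assembly of the hardness proof
-/

set_option autoImplicit false

namespace Pool.Agent.Work.MP_817c3f_lc

open Pool.Agent.PT Turing Function

theorem hardness (hG : ClaimGadget) (hC : ClaimCode) (hW : ClaimWF) (hCh : ClaimChain)
    (hP : ClaimDfgPtf) (hB : ClaimCheck) (hE : ClaimExp) (hD : ClaimDialogue) : Hardness := by
  intro L hL
  obtain ⟨K, i1, i2, p, i, o, q, hq, h1⟩ := hE L hL
  obtain ⟨D, l, R, hl, hl0, hR, h2⟩ := hD K i1 i2 p i o q hq
  obtain ⟨M, chk, hM, hchk, h3⟩ := hB (List Bool) inferInstance l (fun _ => D) R hl (PTF.const D)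
    hR hl0
  obtain ⟨g1, g2, g3, g4⟩ := hP (List Bool) inferInstance l (fun _ => D) M chk hl (PTF.const D)
    hM hchk
  have hf := hC (List Bool) Vr Sg inferInstance inferInstance inferInstance inferInstance
    inferInstance (fun x => dfg (l x) D (M x) (chk x)) (fun _ _ => false) (fun _ => (1, 0, 0))
    g1 g2 g3 g4 (PTF.const false) (PTF.const (1, 0, 0))
  have main : ∀ x, (((dfg (l x) D (M x) (chk x)).toPos (fun _ => false) (1, 0, 0)).MoverWins ↔
      x ∈ L) ∧ ¬ ((dfg (l x) D (M x) (chk x)).toPos (fun _ => false) (1, 0, 0)).OtherWins := by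
    intro x
    obtain ⟨S, hS, hS2⟩ := h1 x
    have hwf := hW (l x) D (M x) (chk x) (hl0 x) (fun p hp d hd c hc y hy =>
      ((h3 x).vars p hp d hd c hc y hy).1)
    have hs : ((1, 0, 0) : Sg) ∈ (dfg (l x) D (M x) (chk x)).stages := by
      show _ ∈ dstages _ _ _ _
      unfold dstages
      simp
    obtain ⟨k1, k2⟩ := hG Vr Sg inferInstance inferInstance _ hwf (fun _ => false) (1, 0, 0) hs
    refine ⟨?_, k2⟩
    rw [k1, hCh (l x) D (M x) (chk x) _ (hl0 x) (h3 x), hS2]
    refine (h2 x).trans ?_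
    rw [hS]
  refine ⟨_, PTF.tm2_raw hf, fun x => ⟨_, rfl, rfl, fun hx => ?_, fun hx => ?_⟩⟩
  · unfold Position.outcome
    rw [if_pos ((main x).1.2 hx)]
  · unfold Position.outcome
    rw [if_neg (fun h => hx ((main x).1.1 h)), if_neg (main x).2]

/-- Edge Blocking is EXPTIME-complete, from the modules. -/
theorem complete (hH : Hardness) (hM : Membership) (hE : ClaimEncode) :
    ExpTimeComplete MoverWinsLang := by
  refine ⟨hM.2, fun L hL => ?_⟩
  obtain ⟨f, hf, h⟩ := hH L hL
  refine ⟨f, hf, fun x => ?_⟩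
  obtain ⟨P, e, _, h1, h2⟩ := h x
  constructor
  · intro hx
    refine ⟨P, e.symm, ?_⟩
    have := h1 hx
    unfold Position.outcome at this
    by_contra hc
    rw [if_neg hc] at this
    split_ifs at this
  · rintro ⟨P', e', h3⟩
    have : P' = P := hE.1 P' P (e'.trans e)
    subst this
    by_contra hx
    have := h2 hx
    unfold Position.outcome at this
    rw [if_pos h3] at this
    cases this

end Pool.Agent.Work.MP_817c3f_lc
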