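import Pool.Agent.Work.MP_817c3f_lc.Core2

/-!
# Local claims about a run of a stack program (module L)
-/

set_option autoImplicit false

namespace Pool.Agent.Work.MP_817c3f_lc

open Pool.Agent.PT Turing Function

namespace Local

variable {K : Type} [DecidableEq K]

omit [DecidableEq K] in
/-- The tops are read correctly. -/
lemma rds_eq (a : Option (K × Option Bool)) (S : Mem K) (s : K → Option Bool)
    (h : ∀ k, s k = (S k).head?) : rds a s = rd a S := by
  rcases a with _ | ⟨k, _ | b⟩
  · rfl
  · exact h k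
  · rfl

/-- A correct local answer gives the correct entry after the action. -/
lemma item_sound (a : Option (K × Option Bool)) (S : Mem K) (k : K) (j : ℕ) (v : Option Bool)
    (Y : Rc K) (hv : Y.v = (S Y.k)[Y.j]?) (h : ItemOK a k j v Y) : v = (app a S k)[j]? := by
  rcases a with _ | ⟨k', _ | b⟩
  · obtain ⟨h1, h2, h3⟩ := h
    rw [← h3, hv, h1, h2]
    rfl
  · simp only [ItemOK] at h
    simp only [app]
    split_ifs at h with hk
    · obtain ⟨h1, h2, h3⟩ := h
      subst hk
      rw [update_self, ← h3, hv, h1, h2, List.getElem?_tail]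
    · obtain ⟨h1, h2, h3⟩ := h
      rw [update_of_ne (Ne.symm hk), ← h3, hv, h1, h2]
  · simp only [ItemOK] at h
    simp only [app]
    split_ifs at h with hk hj
    · subst hk hj
      rw [update_self, h]
      rfl
    · obtain ⟨h1, h2, h3⟩ := h
      subst hk
      rw [update_self, ← h3, hv, h1, ← h2, List.getElem?_cons_succ]
    · obtain ⟨h1, h2, h3⟩ := h
      rw [update_of_ne (Ne.symm hk), ← h3, hv, h1, h2]

/-- There is a correct local answer about each entry after the action. -/
lemma item_exists (a : Option (K × Option Bool)) (S : Mem K) (k : K) (j : ℕ) (t : ℕ)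
    (c : List (Prog K)) (s : K → Option Bool) : ∃ j', j' ≤ j + 1 ∧
      ItemOK a k j ((app a S k)[j]?) ⟨t, j', c, s, k, (S k)[j']?⟩ := by
  rcases a with _ | ⟨k', _ | b⟩
  · exact ⟨j, Nat.le_succ j, rfl, rfl, rfl⟩
  · by_cases hk : k' = k
    · subst hk
      refine ⟨j + 1, le_rfl, ?_⟩
      simp only [ItemOK, app, if_pos, update_self, List.getElem?_tail]
      exact ⟨trivial, trivial, trivial⟩
    · refine ⟨j, Nat.le_succ j, ?_⟩
      simp only [ItemOK, app, if_neg hk, update_of_ne (Ne.symm hk)]
      exact ⟨trivial, trivial, trivial⟩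
  · by_cases hk : k' = k
    · subst hk
      rcases j with _ | j
      · refine ⟨0, Nat.zero_le _, ?_⟩
        simp only [ItemOK, app, if_pos, update_self]
        rfl
      · refine ⟨j, by omega, ?_⟩
        simp only [ItemOK, app, if_pos, update_self, List.getElem?_cons_succ]
        rw [if_neg (Nat.succ_ne_zero j)]
        exact ⟨trivial, trivial, trivial⟩
    · refine ⟨j, Nat.le_succ j, ?_⟩
      simp only [ItemOK, app, if_neg hk, update_of_ne (Ne.symm hk)]
      exact ⟨trivial, trivial, trivial⟩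

end Local

open Local in
theorem claimLocal : ClaimLocal := by
  intro K _ run hrun X hX
  constructor
  · intro h
    refine ⟨?_, ?_, ?_⟩
    · obtain ⟨Y, ⟨h1, h2, -⟩, h4, h5, -⟩ := h none
      rw [h2, ← h1, hrun, h4, rds_eq _ _ _ h5]
      rfl
    · intro k
      obtain ⟨Y, ⟨h1, -, h3⟩, h4, -, h6⟩ := h (some k)
      rw [List.head?_eq_getElem?, ← h1, hrun]
      rw [h4] at h3
      exact item_sound _ _ _ _ _ Y h6 h3
    · obtain ⟨Y, ⟨h1, -, h3⟩, h4, -, h6⟩ := h none
      rw [← h1, hrun]
      rw [h4] at h3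
      exact item_sound _ _ _ _ _ Y h6 h3
  · rintro ⟨h1, h2, h3⟩ d
    obtain ⟨t, ht⟩ : ∃ t, X.t = t + 1 := ⟨X.t - 1, by omega⟩
    rw [ht, hrun] at h1 h2 h3
    have hc : X.c = nxt (rds (act (run t).1) (fun k => ((run t).2 k).head?)) (run t).1 := by
      rw [h1, rds_eq _ _ _ (fun k => rfl)]
      rfl
    rcases d with _ | k
    · obtain ⟨j', hj, hi⟩ := item_exists (act (run t).1) (run t).2 X.k X.j t (run t).1
        (fun k => ((run t).2 k).head?)
      refine ⟨⟨t, j', (run t).1, fun k => ((run t).2 k).head?, X.k, ((run t).2 X.k)[j']?⟩,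
        ⟨ht.symm, hc, ?_⟩, ⟨rfl, fun _ => rfl, rfl⟩, hj⟩
      show ItemOK (act (run t).1) X.k X.j X.v _
      rw [h3]
      exact hi
    · obtain ⟨j', hj, hi⟩ := item_exists (act (run t).1) (run t).2 k 0 t (run t).1
        (fun k => ((run t).2 k).head?)
      refine ⟨⟨t, j', (run t).1, fun k => ((run t).2 k).head?, k, ((run t).2 k)[j']?⟩,
        ⟨ht.symm, hc, ?_⟩, ⟨rfl, fun _ => rfl, rfl⟩, hj.trans (by omega)⟩
      show ItemOK (act (run t).1) k 0 (X.s k) _
      rw [h2 k, List.head?_eq_getElem?]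
      exact hi

end Pool.Agent.Work.MP_817c3f_lc
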