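import Pool.Agent.Work.MP_817c3f_lc.Core2

/-!
# Membership: the outcome is computed in exponential time
-/

set_option autoImplicit false

namespace Pool.Agent.Work.MP_817c3f_lc

open Pool.Agent.PT Turing Function

namespace Mem

/-- The exponent of the time bound. -/
noncomputable def pol (k : ℕ) : Polynomial ℕ :=
  Polynomial.C k * (Polynomial.X + 4) + Polynomial.X + 10

theorem pol_eval (k n : ℕ) : (pol k).eval n = k * (n + 4) + n + 10 := by
  simp [pol]

theorem time_bound (k n : ℕ) :
    20 * (4 * n + 2 * 2 ^ n + 9) ^ k + 100 * (4 * n + 1) + 100 ≤ 2 ^ (pol k).eval n := by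
  have h0 : n < 2 ^ n := Nat.lt_two_pow_self
  have h1 : 4 * n + 2 * 2 ^ n + 9 ≤ 2 ^ (n + 4) := by
    rw [pow_add]
    omega
  have h2 : (4 * n + 2 * 2 ^ n + 9) ^ k ≤ 2 ^ (k * (n + 4)) := by
    rw [mul_comm k, pow_mul]
    exact Nat.pow_le_pow_left h1 k
  have h3 : 1 ≤ 2 ^ (k * (n + 4)) := Nat.one_le_two_pow
  rw [pol_eval, show k * (n + 4) + n + 10 = k * (n + 4) + (n + 10) by ring, pow_add, pow_add]
  generalize 2 ^ (k * (n + 4)) = A at *
  generalize (4 * n + 2 * 2 ^ n + 9) ^ k = C at *
  generalize 2 ^ n = E at *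
  have h4 : E ≤ A * E := Nat.le_mul_of_pos_left _ h3
  have h5 : A ≤ A * E := Nat.le_mul_of_pos_right _ (by omega)
  have h6 : A * (E * 2 ^ 10) = 1024 * (A * E) := by ring
  rw [h6]
  omega

theorem sz_bits (x : List Bool) : sz x ≤ 4 * x.length + 1 := by
  induction x with
  | nil => simp [sz_nil]
  | cons b x ih =>
    rw [sz_cons]
    have := sz_bool b
    simp only [List.length_cons]
    omega

theorem machine {g : List Bool × ℕ → List Bool} (hg : PTF g) :
    ∃ (k : ℕ) (M : TM2ComputableAux Bool Bool), ∀ x : List Bool,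
      Nonempty (TM2OutputsInTime M.tm (x.map M.inputAlphabet.invFun)
        (some ((g (x, 2 ^ x.length)).map M.outputAlphabet.invFun))
        (2 ^ (pol k).eval x.length)) := by
  obtain ⟨B, ⟨k, hk⟩, h⟩ := TimeF.fpt hg (e := fun x : List Bool => x.length) (by fun_prop)
  obtain ⟨M, hM⟩ := h.tm2_raw
  refine ⟨k, M, fun x => ?_⟩
  obtain ⟨⟨h4, h5⟩⟩ := hM x
  refine ⟨⟨h4, h5.trans ?_⟩⟩
  have h6 := hk (x, 2 ^ x.length)
  have h7 := sz_bits x
  have h8 : sz (x, 2 ^ x.length) + 2 ≤ 4 * x.length + 2 * 2 ^ x.length + 9 := by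
    rw [sz_pair, sz_nat]
    omega
  have h9 := Nat.pow_le_pow_left h8 k
  have h10 := time_bound k x.length
  omega

theorem outcome_eq {P : Position} : P.outcome.code = [true, false] ↔ P.MoverWins := by
  classical
  unfold Position.outcome
  split_ifs with h1 h2
  · simp [Outcome.code, h1]
  · simp [Outcome.code, h1]
  · simp [Outcome.code, h1]

end Mem

open Mem

theorem membership (h1 : ClaimAlgPtf) (h2 : ClaimAlg) (h3 : ClaimEncode) : Membership := by
  have e1 : ∀ x : List Bool, alg (x, 2 ^ x.length) = outcomeFun x := fun x => h2 x _ le_rfl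
  constructor
  · obtain ⟨k, M, hM⟩ := machine h1
    refine ⟨pol k, { M with
      time := fun n => 2 ^ (pol k).eval n
      outputsFun := fun x => Classical.choice ?_ }, fun n => le_rfl⟩
    have := hM x
    rw [e1] at this
    exact this
  · have hp : PTF (fun q : List Bool × ℕ => [decide (alg q = [true, false])]) := by
      have h1' : PTF alg := h1
      fun_prop
    obtain ⟨k, M, hM⟩ := machine hp
    refine ⟨pol k, fun x => decide (outcomeFun x = [true, false]), { M with
      time := fun n => 2 ^ (pol k).eval n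
      outputsFun := fun x => Classical.choice ?_ }, fun x => ?_, fun n => le_rfl⟩
    · have := hM x
      rw [e1] at this
      exact this
    · rw [decide_eq_true_iff]
      constructor
      · rintro ⟨P, rfl, hP⟩
        have hex : ∃ Q : Position, Q.encode = P.encode := ⟨P, rfl⟩
        have hq : hex.choose = P := h3.1 _ _ hex.choose_spec
        rw [outcomeFun, dif_pos hex, hq]
        exact outcome_eq.mpr hP
      · intro h
        by_cases hex : ∃ Q : Position, Q.encode = x
        · rw [outcomeFun, dif_pos hex] at h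
          exact ⟨hex.choose, hex.choose_spec, outcome_eq.mp h⟩
        · rw [outcomeFun, dif_neg hex] at h
          exact absurd h (by simp)

end Pool.Agent.Work.MP_817c3f_lc
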