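import Pool.Agent.Work.MP_817c3f_lc.Core2

/-!
# The labelling algorithm computes the result of a position (module M3)
-/

set_option autoImplicit false

namespace Pool.Agent.Work.MP_817c3f_lc

open Turing Function

/-! ### Reading the code of a position -/

lemma m3_idxOf (n : ℕ) (t : List Bool) : (List.replicate n true ++ (false :: t)).idxOf false = n := by
  induction n with
  | zero => simp
  | succ n ih =>
    rw [List.replicate_succ, List.cons_append, List.idxOf_cons_ne _ (by decide), ih]

lemma m3_decN (P : Position) : decN P.encode = P.n := m3_idxOf _ _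

lemma m3_getD_skip (n k : ℕ) (t : List Bool) (d : Bool) :
    (List.replicate n true ++ (false :: t)).getD (n + 1 + k) d = t.getD k d := by
  rw [List.getD_append_right _ _ _ _ (by simp; omega)]
  rw [List.length_replicate, show n + 1 + k - n = k + 1 by omega]
  rfl

lemma m3_matBits_length {n : ℕ} (M : Fin n → Fin n → Bool) : (matBits M).length = n * n := by
  unfold matBits
  simp [List.length_flatMap]

lemma m3_flatMap_getD {n m : ℕ} (f : Fin n → List Bool) (hf : ∀ u, (f u).length = m) (u : Fin n)
    (v : ℕ) (hv : v < m) : ((List.finRange n).flatMap f).getD (u * m + v) false =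
      (f u).getD v false := by
  induction n with
  | zero => exact u.elim0
  | succ n ih =>
    rw [List.finRange_succ, List.flatMap_cons]
    refine Fin.cases ?_ (fun u => ?_) u
    · rw [Fin.val_zero, zero_mul, zero_add, List.getD_append _ _ _ _ (by rw [hf]; exact hv)]
    · rw [List.getD_append_right _ _ _ _ (by rw [hf, Fin.val_succ, add_mul]; omega), hf,
        Fin.val_succ, show (↑u + 1) * m + v - m = ↑u * m + v by rw [add_mul]; omega,
        List.flatMap_map]
      exact ih (fun u => f u.succ) (fun u => hf _) u

lemma m3_matBits_getD {n : ℕ} (M : Fin n → Fin n → Bool) (u v : Fin n) :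
    (matBits M).getD (u * n + v) false = M u v := by
  unfold matBits
  rw [m3_flatMap_getD _ (m := n) (fun u => by simp) u v v.2]
  simp [List.getD_eq_getElem?_getD]

lemma m3_mat_lt {n : ℕ} (u v : Fin n) : (u : ℕ) * n + v < n * n := by
  have h1 := u.2
  have h2 := v.2
  calc (u : ℕ) * n + v < u * n + n := by omega
    _ = (u + 1) * n := by ring
    _ ≤ n * n := Nat.mul_le_mul_right _ h1

lemma m3_matE_L (P : Position) (u v : Fin P.n) : matE P.encode 1 u v = P.EL u v := by
  unfold matE
  rw [m3_decN]
  unfold Position.encode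
  rw [one_mul, add_assoc (P.n + 1), m3_getD_skip,
    List.getD_append_right _ _ _ _ (by rw [m3_matBits_length]; omega), m3_matBits_length,
    Nat.add_sub_cancel_left,
    List.getD_append _ _ _ _ (by rw [m3_matBits_length]; exact m3_mat_lt u v),
    m3_matBits_getD]

lemma m3_matE_R (P : Position) (u v : Fin P.n) : matE P.encode 2 u v = P.ER u v := by
  unfold matE
  rw [m3_decN]
  unfold Position.encode
  rw [add_assoc (P.n + 1), m3_getD_skip,
    List.getD_append_right _ _ _ _ (by rw [m3_matBits_length]; omega), m3_matBits_length,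
    List.getD_append_right _ _ _ _ (by rw [m3_matBits_length]; omega), m3_matBits_length,
    show 2 * (P.n * P.n) + (↑u * P.n + ↑v) - P.n * P.n - P.n * P.n = ↑u * P.n + ↑v by omega,
    List.getD_append _ _ _ _ (by rw [m3_matBits_length]; exact m3_mat_lt u v),
    m3_matBits_getD]

lemma m3_tail (P : Position) (k : ℕ) :
    P.encode.getD (P.n + 1 + 3 * (P.n * P.n) + k) false =
      ((List.finRange P.n).map P.occ ++ [P.left]).getD k false := by
  unfold Position.encode
  rw [show P.n + 1 + 3 * (P.n * P.n) + k = P.n + 1 + (3 * (P.n * P.n) + k) by omega, m3_getD_skip,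
    List.getD_append_right _ _ _ _ (by rw [m3_matBits_length]; omega), m3_matBits_length,
    List.getD_append_right _ _ _ _ (by rw [m3_matBits_length]; omega), m3_matBits_length,
    List.getD_append_right _ _ _ _ (by rw [m3_matBits_length]; omega), m3_matBits_length]
  congr 1
  omega

/-- The list of an occupied set. -/
def Lo {n : ℕ} (o : Fin n → Bool) : List Bool := List.ofFn o

lemma m3_occL (P : Position) : occL P.encode = Lo P.occ := by
  unfold occL Lo
  rw [m3_decN]
  refine List.ext_getElem (by simp) fun i h1 h2 => ?_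
  have hi : i < P.n := by simpa using h1
  rw [List.getElem_map, List.getElem_range, m3_tail, List.getElem_ofFn,
    List.getD_append _ _ _ _ (by simpa using hi)]
  simp [List.getD_eq_getElem?_getD, hi]

lemma m3_leftB (P : Position) : leftB P.encode = P.left := by
  unfold leftB
  rw [m3_decN, m3_tail, List.getD_append_right _ _ _ _ (by simp)]
  simp

lemma m3_n_le (P : Position) : P.n ≤ P.encode.length := by
  unfold Position.encode
  rw [List.length_append, List.length_replicate]
  omega

/-! ### States -/

lemma Lo_length {n : ℕ} (o : Fin n → Bool) : (Lo o).length = n := List.length_ofFn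

lemma Lo_inj {n : ℕ} {o o' : Fin n → Bool} (h : Lo o = Lo o') : o = o' := List.ofFn_injective h

lemma Lo_surj {n : ℕ} (l : List Bool) (h : l.length = n) : ∃ o : Fin n → Bool, Lo o = l := by
  subst h
  exact ⟨l.get, List.ofFn_get l⟩

lemma Lo_getD {n : ℕ} (o : Fin n → Bool) (u : Fin n) : (Lo o).getD u false = o u := by
  unfold Lo
  rw [List.getD_eq_getElem _ _ (by simp)]
  simp

lemma Lo_set {n : ℕ} (o : Fin n → Bool) (u : Fin n) (b : Bool) :
    (Lo o).set u b = Lo (Function.update o u b) := by
  unfold Lo
  refine List.ext_getElem (by simp) fun i h1 h2 => ?_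
  rw [List.getElem_set, List.getElem_ofFn, List.getElem_ofFn]
  by_cases h : (u : ℕ) = i
  · rw [if_pos h]
    have : (⟨i, by simpa using h2⟩ : Fin n) = u := Fin.ext h.symm
    rw [this, Function.update_self]
  · rw [if_neg h, Function.update_of_ne]
    intro h3
    exact h (congrArg Fin.val h3).symm

lemma m3_move (P : Position) (b : Bool) (o : Fin P.n → Bool) (s : Bool × List Bool) :
    s ∈ movesL P.encode (b, Lo o) ↔
      ∃ u v, P.toBoard.Legal b o u v ∧ s = (!b, Lo (moveTok o u v)) := by
  unfold movesL
  rw [m3_decN]
  simp only [List.mem_flatMap, List.mem_range]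
  constructor
  · rintro ⟨u, hu, v, hv, hs⟩
    by_cases hc : (matE P.encode (if b then 1 else 2) u v &&
        ((Lo o).getD u false && !((Lo o).getD v false))) = true
    · rw [if_pos hc, List.mem_singleton] at hs
      simp only [Bool.and_eq_true, Bool.not_eq_true'] at hc
      obtain ⟨h1, h2, h3⟩ := hc
      have e1 := Lo_getD o ⟨u, hu⟩
      have e2 := Lo_getD o ⟨v, hv⟩
      simp only at e1 e2
      refine ⟨⟨u, hu⟩, ⟨v, hv⟩, ⟨?_, by rw [← e1]; exact h2, by rw [← e2]; exact h3⟩, ?_⟩
      · cases b
        · have := m3_matE_R P ⟨u, hu⟩ ⟨v, hv⟩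
          simp only at this
          rw [cond_false, ← this]
          simpa using h1
        · have := m3_matE_L P ⟨u, hu⟩ ⟨v, hv⟩
          simp only at this
          rw [cond_true, ← this]
          simpa using h1
      · rw [hs]
        unfold moveTok
        rw [← Lo_set, ← Lo_set]
    · rw [if_neg hc] at hs
      simp at hs
  · rintro ⟨u, v, ⟨h1, h2, h3⟩, rfl⟩
    refine ⟨u, u.2, v, v.2, ?_⟩
    rw [if_pos, List.mem_singleton]
    · unfold moveTok
      rw [← Lo_set, ← Lo_set]
    · simp only [Bool.and_eq_true, Bool.not_eq_true']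
      refine ⟨?_, by rw [Lo_getD]; exact h2, by rw [Lo_getD]; exact h3⟩
      cases b
      · rw [cond_false] at h1
        simpa [m3_matE_R] using h1
      · rw [cond_true] at h1
        simpa [m3_matE_L] using h1

lemma m3_iter_half (j i : ℕ) : (fun m => m / 2)^[j] i = i / 2 ^ j := by
  induction j generalizing i with
  | zero => simp
  | succ j ih => rw [Function.iterate_succ_apply, ih, Nat.div_div_eq_div_mul, pow_succ']

lemma m3_digits_length (n i : ℕ) : (digits n i).length = n := by unfold digits; simp

lemma m3_digits {n : ℕ} (o : Fin n → Bool) : digits n (Nat.ofBits o) = Lo o := by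
  unfold digits Lo
  refine List.ext_getElem (by simp) fun i h1 h2 => ?_
  have hi : i < n := by simpa using h1
  rw [List.getElem_map, List.getElem_range, List.getElem_ofFn, m3_iter_half]
  have h := Nat.testBit_ofBits_lt o i hi
  rw [← h, Nat.testBit_eq_decide_div_mod_eq]

lemma m3_mem_allS {n N : ℕ} (h : 2 ^ n ≤ N) (b : Bool) (o : Fin n → Bool) :
    (b, Lo o) ∈ allS n N := by
  unfold allS
  rw [List.mem_flatMap]
  refine ⟨Nat.ofBits o, List.mem_range.2 ((Nat.ofBits_lt_two_pow o).trans_le h), ?_⟩
  rw [m3_digits]
  cases b <;> simp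

lemma m3_allS_length (n N : ℕ) : (allS n N).length = 2 * N := by
  unfold allS
  rw [List.length_flatMap]
  simp [mul_comm]

lemma m3_allS_len {n N : ℕ} {s : Bool × List Bool} (h : s ∈ allS n N) : s.2.length = n := by
  unfold allS at h
  rw [List.mem_flatMap] at h
  obtain ⟨i, -, hi⟩ := h
  simp only [List.mem_cons, List.not_mem_nil, or_false] at hi
  rcases hi with rfl | rfl <;> exact m3_digits_length _ _

/-! ### The labelling -/

lemma m3_stepW_mono (x : List Bool) (N : ℕ) {W W' : List (Bool × List Bool)} (h : ∀ s ∈ W, s ∈ W') :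
    (stepW x N W).Sublist (stepW x N W') := by
  unfold stepW
  refine List.monotone_filter_right _ fun s hs => ?_
  rw [List.any_eq_true] at hs ⊢
  obtain ⟨s', h1, h2⟩ := hs
  refine ⟨s', h1, ?_⟩
  rw [List.all_eq_true] at h2 ⊢
  intro s'' h3
  exact decide_eq_true (h _ (of_decide_eq_true (h2 s'' h3)))

lemma m3_iter_sub (x : List Bool) (N i : ℕ) :
    ((stepW x N)^[i] []).Sublist ((stepW x N)^[i + 1] []) := by
  induction i with
  | zero => exact List.nil_sublist _
  | succ i ih =>
    rw [Function.iterate_succ_apply', Function.iterate_succ_apply' _ (i + 1)]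
    exact m3_stepW_mono x N fun s hs => ih.subset hs

lemma m3_iter_len (x : List Bool) (N i : ℕ) : ((stepW x N)^[i] []).length ≤ 2 * N := by
  cases i with
  | zero => simp
  | succ i =>
    rw [Function.iterate_succ_apply', ← m3_allS_length (decN x) N]
    exact List.length_filter_le _ _

lemma m3_fix (x : List Bool) (N : ℕ) : stepW x N (winL x N) = winL x N := by
  have key : ∃ i ≤ 2 * N, (stepW x N)^[i + 1] [] = (stepW x N)^[i] [] := by
    by_contra hcon
    push Not at hcon
    have h : ∀ i ≤ 2 * N + 1, i ≤ ((stepW x N)^[i] []).length := by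
      intro i
      induction i with
      | zero => intro _; omega
      | succ i ih =>
        intro hi
        have h1 := ih (by omega)
        have h2 := m3_iter_sub x N i
        have h3 := h2.length_le
        by_contra hlt
        have h4 : ((stepW x N)^[i] []).length = ((stepW x N)^[i + 1] []).length := by omega
        exact hcon i (by omega) (h2.eq_of_length h4).symm
    have := h (2 * N + 1) le_rfl
    have := m3_iter_len x N (2 * N + 1)
    omega
  obtain ⟨i, hi, he⟩ := key
  have h : ∀ d, (stepW x N)^[i + d] [] = (stepW x N)^[i] [] := by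
    intro d
    induction d with
    | zero => rfl
    | succ d ih =>
      rw [← add_assoc, Function.iterate_succ_apply', ih, ← Function.iterate_succ_apply' (stepW x N),
        he]
  have h5 : winL x N = (stepW x N)^[i] [] := by
    unfold winL
    rw [show 2 * N + 1 = i + (2 * N + 1 - i) by omega, h]
  rw [h5, ← Function.iterate_succ_apply' (stepW x N)]
  exact he

lemma m3_stepW_mem (P : Position) {N : ℕ} (hN : 2 ^ P.n ≤ N) (W : List (Bool × List Bool))
    (b : Bool) (o : Fin P.n → Bool) :
    (b, Lo o) ∈ stepW P.encode N W ↔ ∃ u v, P.toBoard.Legal b o u v ∧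
      ∀ u' v', P.toBoard.Legal (!b) (moveTok o u v) u' v' →
        (b, Lo (moveTok (moveTok o u v) u' v')) ∈ W := by
  unfold stepW
  rw [List.mem_filter, m3_decN]
  simp only [m3_mem_allS hN, true_and, List.any_eq_true, List.all_eq_true, decide_eq_true_eq]
  constructor
  · rintro ⟨s', h1, h2⟩
    obtain ⟨u, v, hl, rfl⟩ := (m3_move P b o s').1 h1
    refine ⟨u, v, hl, fun u' v' hl' => ?_⟩
    have := h2 (!(!b), Lo (moveTok (moveTok o u v) u' v')) ((m3_move P _ _ _).2 ⟨u', v', hl', rfl⟩)
    rwa [Bool.not_not] at this
  · rintro ⟨u, v, hl, h⟩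
    refine ⟨(!b, Lo (moveTok o u v)), (m3_move P b o _).2 ⟨u, v, hl, rfl⟩, fun s'' hs => ?_⟩
    obtain ⟨u', v', hl', rfl⟩ := (m3_move P _ _ _).1 hs
    rw [Bool.not_not]
    exact h u' v' hl'

lemma m3_win (P : Position) {N : ℕ} (hN : 2 ^ P.n ≤ N) (b : Bool) (o : Fin P.n → Bool) :
    (b, Lo o) ∈ winL P.encode N ↔ P.toBoard.Wins b o := by
  constructor
  · have h : ∀ i b (o : Fin P.n → Bool), (b, Lo o) ∈ (stepW P.encode N)^[i] [] →
        P.toBoard.Wins b o := by
      intro i
      induction i with
      | zero => intro b o h; simp at h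
      | succ i ih =>
        intro b o h
        rw [Function.iterate_succ_apply', m3_stepW_mem P hN] at h
        obtain ⟨u, v, hl, h2⟩ := h
        exact Board.Wins.intro b o u v hl fun u' v' hl' => ih _ _ (h2 u' v' hl')
    exact h _ b o
  · intro h
    induction h with
    | intro occ u v hl h ih =>
      rw [← m3_fix, m3_stepW_mem P hN]
      exact ⟨u, v, hl, fun u' v' hl' => ih u' v' hl'⟩

/-- **Module M3**. The labelling algorithm computes the result. -/
theorem claimAlg (h : ClaimEncode) : ClaimAlg := by
  classical
  intro x N hN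
  obtain ⟨hinj, hval⟩ := h
  by_cases hv : valid x = true
  · obtain ⟨P, hP⟩ := (hval x).1 hv
    have hex : ∃ P : Position, P.encode = x := ⟨P, hP⟩
    have hch : hex.choose = P := hinj _ _ (hex.choose_spec.trans hP.symm)
    have h1 : outcomeFun x = P.outcome.code := by
      unfold outcomeFun
      rw [dif_pos hex, hch]
    rw [h1]
    subst hP
    have hN' : 2 ^ P.n ≤ N := (Nat.pow_le_pow_right (by omega) (m3_n_le P)).trans hN
    unfold alg
    rw [if_pos hv]
    simp only [m3_occL, m3_leftB]
    have hM : (P.left, Lo P.occ) ∈ winL P.encode N ↔ P.MoverWins := m3_win P hN' _ _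
    have hO : (movesL P.encode (P.left, Lo P.occ)).all
        (fun s => decide (s ∈ winL P.encode N)) = true ↔ P.OtherWins := by
      simp only [List.all_eq_true, decide_eq_true_eq]
      unfold Position.OtherWins
      constructor
      · intro h u v hl
        rw [← m3_win P hN']
        exact h _ ((m3_move P _ _ _).2 ⟨u, v, hl, rfl⟩)
      · intro h s hs
        obtain ⟨u, v, hl, rfl⟩ := (m3_move P _ _ _).1 hs
        rw [m3_win P hN']
        exact h u v hl
    unfold Position.outcome
    by_cases c1 : P.MoverWins
    · rw [if_pos (hM.2 c1), if_pos c1]; rfl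
    · rw [if_neg (fun h => c1 (hM.1 h)), if_neg c1]
      by_cases c2 : P.OtherWins
      · rw [if_pos (hO.2 c2), if_pos c2]; rfl
      · rw [if_neg (fun h => c2 (hO.1 h)), if_neg c2]; rfl
  · have hex : ¬ ∃ P : Position, P.encode = x := fun he => hv ((hval x).2 he)
    unfold outcomeFun alg
    rw [dif_neg hex]
    simp only
    rw [if_neg hv]

end Pool.Agent.Work.MP_817c3f_lc
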