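import Pool.Agent.Work.MP_817c3f_lc.Core

/-!
# Core definitions, part 2: binary numbers, local claims about runs, the exponential time algorithm
-/

set_option autoImplicit false

namespace Pool.Agent.Work.MP_817c3f_lc

open Pool.Agent.PT Turing Function

/-! ### Binary numbers of fixed length (least significant bit first) -/

/-- Increment. -/
def inc : List Bool → List Bool
  | [] => []
  | false :: l => true :: l
  | true :: l => false :: inc l

/-- Value. -/
def val : List Bool → ℕ
  | [] => 0
  | b :: l => (bif b then 1 else 0) + 2 * val l

/-- **Module N**. -/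
structure ClaimBin : Prop where
  ptf_inc : PTF inc
  length_inc : ∀ l, (inc l).length = l.length
  val_lt : ∀ l, val l < 2 ^ l.length
  val_inc : ∀ l, val l + 1 < 2 ^ l.length → val (inc l) = val l + 1
  val_inj : ∀ l l' : List Bool, l.length = l'.length → val l = val l' → l = l'
  val_zero : ∀ q, val (List.replicate q false) = 0
  val_top : ∀ q, val (List.replicate q true) = 2 ^ q - 1
  exists_val : ∀ q n, n < 2 ^ q → ∃ l : List Bool, l.length = q ∧ val l = n
  ptf_look : PTF (fun p : List Bool × List Bool => p.1[val p.2]?)

/-! ### Local claims about a run -/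

/-- A claim: at time `t` the continuation is `c`, the tops of the stacks are `s`, and the entry
number `j` (counted from the top) of the stack `k` is `v`. -/
structure Rc (K : Type) where
  t : ℕ
  j : ℕ
  c : List (Prog K)
  s : K → Option Bool
  k : K
  v : Option Bool

/-- All parts of the claim are true. -/
def Rc.Tr {K : Type} (run : ℕ → List (Prog K) × Mem K) (X : Rc K) : Prop :=
  X.c = (run X.t).1 ∧ (∀ k, X.s k = ((run X.t).2 k).head?) ∧ X.v = ((run X.t).2 X.k)[X.j]?

/-- The bit read according to claimed tops. -/
def rds {K : Type} (a : Option (K × Option Bool)) (s : K → Option Bool) : Option Bool :=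
  match a with
  | some (k, none) => s k
  | _ => none

/-- Entry number `j` of the stack `k` is `v` after the action `a`, according to the claim `Y` about
the entries before the action. -/
def ItemOK {K : Type} [DecidableEq K] (a : Option (K × Option Bool)) (k : K) (j : ℕ)
    (v : Option Bool) (Y : Rc K) : Prop :=
  match a with
  | none => Y.k = k ∧ Y.j = j ∧ Y.v = v
  | some (k', some b) =>
    if k' = k then (if j = 0 then v = some b else Y.k = k ∧ Y.j + 1 = j ∧ Y.v = v)
    else Y.k = k ∧ Y.j = j ∧ Y.v = v
  | some (k', none) =>
    if k' = k then Y.k = k ∧ Y.j = j + 1 ∧ Y.v = v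
    else Y.k = k ∧ Y.j = j ∧ Y.v = v

/-- The answer `Y` to the question `d` about the claim `X` is locally correct: `d = none` asks for
the entry `X.j` of the stack `X.k`, `d = some k` for the top of the stack `k`. -/
def Loc {K : Type} [DecidableEq K] (d : Option K) (X Y : Rc K) : Prop :=
  Y.t + 1 = X.t ∧ X.c = nxt (rds (act Y.c) Y.s) Y.c ∧
  match d with
  | none => ItemOK (act Y.c) X.k X.j X.v Y
  | some k => ItemOK (act Y.c) k 0 (X.s k) Y

/-- **Module L**. -/
def ClaimLocal : Prop :=
  ∀ (K : Type) (_ : DecidableEq K) (run : ℕ → List (Prog K) × Mem K),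
    (∀ t, run (t + 1) = sstep (run t)) → ∀ X : Rc K, 0 < X.t →
      ((∀ d : Option K, ∃ Y, Loc d X Y ∧ Y.Tr run) → X.Tr run) ∧
      (X.Tr run → ∀ d : Option K, ∃ Y, Loc d X Y ∧ Y.Tr run ∧ Y.j ≤ X.j + 1)

/-! ### The exponential time algorithm -/

/-- Number of leading ones. -/
def decN (x : List Bool) : ℕ := x.idxOf false

/-- Entry of the matrix number `k`. -/
def matE (x : List Bool) (k u v : ℕ) : Bool :=
  x.getD (decN x + 1 + k * (decN x * decN x) + (u * decN x + v)) false

/-- Occupied vertices. -/
def occL (x : List Bool) : List Bool :=
  (List.range (decN x)).map (fun u => x.getD (decN x + 1 + 3 * (decN x * decN x) + u) false)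

/-- Player to move. -/
def leftB (x : List Bool) : Bool := x.getD (decN x + 1 + 3 * (decN x * decN x) + decN x) false

/-- The string is the code of a position. -/
def valid (x : List Bool) : Bool :=
  decide (x.length = decN x + 1 + 3 * (decN x * decN x) + decN x + 1) &&
    (List.range (decN x)).all (fun u => (List.range (decN x)).all (fun v =>
      (!(matE x 1 u v) || matE x 0 u v) && (!(matE x 2 u v) || matE x 0 u v)))

/-- Binary digits. -/
def digits (n i : ℕ) : List Bool :=
  (List.range n).map (fun j => decide (((fun m => m / 2)^[j] i) % 2 = 1))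

/-- All states (player to move, occupied vertices), if `2 ^ n ≤ N`. -/
def allS (n N : ℕ) : List (Bool × List Bool) :=
  (List.range N).flatMap (fun i => [(false, digits n i), (true, digits n i)])

/-- The states after one move. -/
def movesL (x : List Bool) (s : Bool × List Bool) : List (Bool × List Bool) :=
  (List.range (decN x)).flatMap (fun u => (List.range (decN x)).flatMap (fun v =>
    if (matE x (if s.1 then 1 else 2) u v && (s.2.getD u false && !(s.2.getD v false))) = true
    then [(!s.1, (s.2.set u false).set v true)] else []))

/-- One step of the labelling: states from which the player to move reaches `W`. -/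
def stepW (x : List Bool) (N : ℕ) (W : List (Bool × List Bool)) : List (Bool × List Bool) :=
  (allS (decN x) N).filter (fun s => (movesL x s).any (fun s' =>
    (movesL x s').all (fun s'' => decide (s'' ∈ W))))

/-- The winning states. -/
def winL (x : List Bool) (N : ℕ) : List (Bool × List Bool) := (stepW x N)^[2 * N + 1] []

/-- The algorithm. -/
def alg (q : List Bool × ℕ) : List Bool :=
  if valid q.1 then
    (if (leftB q.1, occL q.1) ∈ winL q.1 q.2 then [true, false]
    else if (movesL q.1 (leftB q.1, occL q.1)).all (fun s => decide (s ∈ winL q.1 q.2)) then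
      [false, true]
    else [false, false])
  else []

/-- **Module M1**. The code determines the position; `valid` recognises the codes. -/
def ClaimEncode : Prop :=
  (∀ P Q : Position, P.encode = Q.encode → P = Q) ∧
  ∀ x, valid x = true ↔ ∃ P : Position, P.encode = x

/-- **Module M2**. -/
def ClaimAlgPtf : Prop := PTF alg

/-- **Module M3**. -/
def ClaimAlg : Prop := ∀ x N, 2 ^ (x.length) ≤ N → alg (x, N) = outcomeFun x

end Pool.Agent.Work.MP_817c3f_lc
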