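import Pool.Agent.Work.MP_817c3f_lc.Core

/-!
# The Edge Blocking position of a flip game (module G1)
-/

set_option autoImplicit false
set_option linter.unusedSectionVars false

namespace Pool.Agent.Work.MP_817c3f_lc

open Function

section gadget

variable {ν σ : Type} [DecidableEq ν] [DecidableEq σ]

/-- The board of a flip game. -/
def FG.board (G : FG ν σ) : Board where
  n := G.verts.length
  E i j := G.eL (G.verts.get i) (G.verts.get j) || G.eR (G.verts.get i) (G.verts.get j)
  EL i j := G.eL (G.verts.get i) (G.verts.get j)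
  ER i j := G.eR (G.verts.get i) (G.verts.get j)
  subL := fun _ _ h => Bool.or_eq_true_iff.2 (Or.inl h)
  subR := fun _ _ h => Bool.or_eq_true_iff.2 (Or.inr h)

/-- The occupied vertices at a valuation and a stage. -/
def FG.st (G : FG ν σ) (v : ν → Bool) (s : σ) : Fin G.board.n → Bool :=
  fun i => FG.occV v s (G.verts.get i)

theorem FG.toPos_board (G : FG ν σ) (v : ν → Bool) (s : σ) : (G.toPos v s).toBoard = G.board := rfl

theorem FG.mem_verts (G : FG ν σ) (a : Vtx ν σ) : a ∈ G.verts ↔
    (∃ x ∈ G.vars, ∃ b, a = (some (x, b), none)) ∨ (∃ s ∈ G.stages, a = (none, some s)) := by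
  unfold FG.verts
  simp only [List.mem_append, List.mem_flatMap, List.mem_map, List.mem_cons, List.not_mem_nil,
    or_false]
  constructor
  · rintro (⟨x, hx, h | h⟩ | ⟨s, hs, h⟩)
    · exact Or.inl ⟨x, hx, false, h⟩
    · exact Or.inl ⟨x, hx, true, h⟩
    · exact Or.inr ⟨s, hs, h.symm⟩
  · rintro (⟨x, hx, b, h⟩ | ⟨s, hs, h⟩)
    · cases b
      · exact Or.inl ⟨x, hx, Or.inl h⟩
      · exact Or.inl ⟨x, hx, Or.inr h⟩
    · exact Or.inr ⟨s, hs, h.symm⟩

theorem FG.WF.nodup {G : FG ν σ} (hG : G.WF) : G.verts.Nodup := by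
  unfold FG.verts
  rw [List.nodup_append]
  refine ⟨?_, ?_, ?_⟩
  · rw [List.nodup_flatMap]
    refine ⟨?_, ?_⟩
    · intro x _
      simp
    · refine hG.vars_nodup.imp ?_
      intro x y hxy
      simp only [Function.onFun, List.disjoint_left, List.mem_cons, List.not_mem_nil, or_false]
      rintro a (rfl | rfl) <;> simp [hxy]
  · refine hG.stages_nodup.map ?_
    intro a b h
    simpa using h
  · intro a ha b hb hab
    subst hab
    simp only [List.mem_flatMap, List.mem_map, List.mem_cons, List.not_mem_nil,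
      or_false] at ha hb
    obtain ⟨x, -, h⟩ := ha
    obtain ⟨s, -, rfl⟩ := hb
    rcases h with h | h <;> simp at h

theorem FG.WF.get_inj {G : FG ν σ} (hG : G.WF) : Injective G.verts.get :=
  List.nodup_iff_injective_get.1 hG.nodup

theorem FG.exIdx (G : FG ν σ) {a : Vtx ν σ} (ha : a ∈ G.verts) :
    ∃ i : Fin G.board.n, G.verts.get i = a := List.get_of_mem ha

theorem FG.WF.moveTok_apply {G : FG ν σ} (hG : G.WF) (v : ν → Bool) (s : σ)
    (i j k : Fin G.board.n) : moveTok (G.st v s) i j k =
      if G.verts.get k = G.verts.get j then true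
      else if G.verts.get k = G.verts.get i then false else FG.occV v s (G.verts.get k) := by
  unfold moveTok
  rw [Function.update_apply, Function.update_apply]
  have h1 : (G.verts.get k = G.verts.get j) ↔ k = j := hG.get_inj.eq_iff
  have h2 : (G.verts.get k = G.verts.get i) ↔ k = i := hG.get_inj.eq_iff
  by_cases hj : k = j
  · rw [if_pos hj, if_pos (h1.2 hj)]
  · rw [if_neg hj, if_neg (fun h => hj (h1.1 h))]
    by_cases hi : k = i
    · rw [if_pos hi, if_pos (h2.2 hi)]
    · rw [if_neg hi, if_neg (fun h => hi (h2.1 h))]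
      rfl

theorem FG.WF.move_flip {G : FG ν σ} (hG : G.WF) (v : ν → Bool) (s : σ) (x : ν)
    (i j : Fin G.board.n) (hi : G.verts.get i = (some (x, v x), none))
    (hj : G.verts.get j = (some (x, !(v x)), none)) :
    moveTok (G.st v s) i j = G.st (flipAt v x) s := by
  funext k
  rw [hG.moveTok_apply, hi, hj]
  have hk : G.verts.get k ∈ G.verts := List.get_mem _ _
  show _ = FG.occV (flipAt v x) s (G.verts.get k)
  rcases (G.mem_verts _).1 hk with ⟨y, -, b, h⟩ | ⟨s', -, h⟩
  · rw [h]
    by_cases hxy : y = x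
    · subst hxy
      cases b <;> cases hv : v y <;> simp [FG.occV, flipAt, hv]
    · simp [FG.occV, flipAt, hxy]
  · rw [h]
    simp [FG.occV]

theorem FG.WF.move_ctrl {G : FG ν σ} (hG : G.WF) (v : ν → Bool) (s s' : σ) (hss : s ≠ s')
    (i j : Fin G.board.n) (hi : G.verts.get i = (none, some s))
    (hj : G.verts.get j = (none, some s')) :
    moveTok (G.st v s) i j = G.st v s' := by
  funext k
  rw [hG.moveTok_apply, hi, hj]
  have hk : G.verts.get k ∈ G.verts := List.get_mem _ _
  show _ = FG.occV v s' (G.verts.get k)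
  rcases (G.mem_verts _).1 hk with ⟨y, -, b, h⟩ | ⟨t, -, h⟩
  · rw [h]
    simp [FG.occV]
  · rw [h]
    by_cases h1 : t = s'
    · subst h1
      simp [FG.occV]
    · by_cases h2 : t = s
      · subst h2
        simp [FG.occV, h1]
      · simp [FG.occV, h1, h2]

/-- Left's legal moves. -/
theorem FG.legalL (G : FG ν σ) (v : ν → Bool) (s : σ) (i j : Fin G.board.n)
    (h : G.board.Legal true (G.st v s) i j) :
    (∃ x ∈ G.vars, G.verts.get i = (some (x, v x), none) ∧
      G.verts.get j = (some (x, !(v x)), none)) ∨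
    (∃ l ∈ G.lits s, v l.2 = l.1) := by
  obtain ⟨h1, h2, h3⟩ := h
  change G.eL (G.verts.get i) (G.verts.get j) = true at h1
  change FG.occV v s (G.verts.get i) = true at h2
  change FG.occV v s (G.verts.get j) = false at h3
  have hki : G.verts.get i ∈ G.verts := List.get_mem _ _
  have hkj : G.verts.get j ∈ G.verts := List.get_mem _ _
  rcases (G.mem_verts _).1 hkj with ⟨y, hy, c, hj⟩ | ⟨t, -, hj⟩
  · rcases (G.mem_verts _).1 hki with ⟨x, hx, b, hi⟩ | ⟨s', -, hi⟩
    · left
      rw [hi] at h1 h2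
      rw [hj] at h1 h3
      simp only [FG.eL, Bool.and_eq_true, decide_eq_true_eq, bne_iff_ne, ne_eq] at h1
      obtain ⟨hxy, hbc⟩ := h1
      subst hxy
      simp only [FG.occV, beq_iff_eq] at h2
      refine ⟨x, hx, ?_, ?_⟩
      · rw [hi, h2]
      · rw [hj, h2]
        cases b <;> cases c <;> simp_all
    · right
      rw [hi] at h1 h2
      rw [hj] at h1 h3
      simp only [FG.eL, decide_eq_true_eq] at h1
      simp only [FG.occV, decide_eq_true_eq, Option.some.injEq] at h2
      subst h2
      refine ⟨_, h1, ?_⟩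
      simp only [FG.occV] at h3
      cases c <;> cases hv : v y <;> simp_all
  · rw [hj] at h1
    simp [FG.eL] at h1

/-- A flip is a legal move of Left. -/
theorem FG.legal_flip (G : FG ν σ) (v : ν → Bool) (s : σ) (x : ν) (i j : Fin G.board.n)
    (hi : G.verts.get i = (some (x, v x), none))
    (hj : G.verts.get j = (some (x, !(v x)), none)) : G.board.Legal true (G.st v s) i j := by
  refine ⟨?_, ?_, ?_⟩
  · show G.eL (G.verts.get i) (G.verts.get j) = true
    rw [hi, hj]
    cases hv : v x <;> simp [FG.eL]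
  · show FG.occV v s (G.verts.get i) = true
    rw [hi]
    simp [FG.occV]
  · show FG.occV v s (G.verts.get j) = false
    rw [hj]
    cases hv : v x <;> simp [FG.occV, hv]

theorem FG.exFlip (G : FG ν σ) (v : ν → Bool) (x : ν) (hx : x ∈ G.vars) :
    ∃ i j : Fin G.board.n, G.verts.get i = (some (x, v x), none) ∧
      G.verts.get j = (some (x, !(v x)), none) := by
  obtain ⟨i, hi⟩ := G.exIdx (a := (some (x, v x), none))
    ((G.mem_verts _).2 (Or.inl ⟨x, hx, _, rfl⟩))
  obtain ⟨j, hj⟩ := G.exIdx (a := (some (x, !(v x)), none))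
    ((G.mem_verts _).2 (Or.inl ⟨x, hx, _, rfl⟩))
  exact ⟨i, j, hi, hj⟩

/-- Right's legal moves. -/
theorem FG.legalR (G : FG ν σ) (v : ν → Bool) (s : σ) (i j : Fin G.board.n)
    (h : G.board.Legal false (G.st v s) i j) :
    ∃ s' ∈ G.next s, G.verts.get i = (none, some s) ∧ G.verts.get j = (none, some s') := by
  obtain ⟨h1, h2, h3⟩ := h
  change G.eR (G.verts.get i) (G.verts.get j) = true at h1
  change FG.occV v s (G.verts.get i) = true at h2
  have hki : G.verts.get i ∈ G.verts := List.get_mem _ _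
  have hkj : G.verts.get j ∈ G.verts := List.get_mem _ _
  rcases (G.mem_verts _).1 hki with ⟨x, hx, b, hi⟩ | ⟨s', -, hi⟩
  · rw [hi] at h1
    simp [FG.eR] at h1
  · rcases (G.mem_verts _).1 hkj with ⟨y, hy, c, hj⟩ | ⟨t, -, hj⟩
    · rw [hi, hj] at h1
      simp [FG.eR] at h1
    · rw [hi, hj] at h1
      rw [hi] at h2
      simp only [FG.eR, decide_eq_true_eq] at h1
      simp only [FG.occV, decide_eq_true_eq, Option.some.injEq] at h2
      subst h2
      exact ⟨t, h1, hi, hj⟩

/-- Going to a next stage is a legal move of Right. -/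
theorem FG.legal_ctrl (G : FG ν σ) (v : ν → Bool) (s s' : σ) (hs' : s' ∈ G.next s) (hss : s ≠ s')
    (i j : Fin G.board.n) (hi : G.verts.get i = (none, some s))
    (hj : G.verts.get j = (none, some s')) : G.board.Legal false (G.st v s) i j := by
  refine ⟨?_, ?_, ?_⟩
  · show G.eR (G.verts.get i) (G.verts.get j) = true
    rw [hi, hj]
    simp [FG.eR, hs']
  · show FG.occV v s (G.verts.get i) = true
    rw [hi]
    simp [FG.occV]
  · show FG.occV v s (G.verts.get j) = false
    rw [hj]
    simp [FG.occV, Ne.symm hss]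

theorem FG.exCtrl (G : FG ν σ) (s : σ) (hs : s ∈ G.stages) :
    ∃ i : Fin G.board.n, G.verts.get i = (none, some s) :=
  G.exIdx ((G.mem_verts _).2 (Or.inr ⟨s, hs, rfl⟩))

theorem FG.WF.ne_next {G : FG ν σ} (hG : G.WF) {s s' : σ} (hs : s ∈ G.stages)
    (h : s' ∈ G.next s) : s ≠ s' := by
  rintro rfl
  exact hG.next_ne s hs h

theorem FG.WF.win_of_wins {G : FG ν σ} (hG : G.WF) (b : Bool) (occ : Fin G.board.n → Bool)
    (h : G.board.Wins b occ) : ∀ (v : ν → Bool) (s : σ), s ∈ G.stages → b = true →
      occ = G.st v s → G.Win v s := by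
  induction h with
  | intro occ u w hl _ ih =>
    rintro v s hs rfl rfl
    rcases G.legalL v s u w hl with ⟨x, hx, hi, hj⟩ | ⟨l, hl, hv⟩
    · refine FG.Win.flip v s x hx ?_
      intro s' hs'
      have hss := hG.ne_next hs hs'
      have hs2 := hG.next_stages s hs s' hs'
      obtain ⟨i', hi'⟩ := G.exCtrl s hs
      obtain ⟨j', hj'⟩ := G.exCtrl s' hs2
      have e1 := hG.move_flip v s x u w hi hj
      refine ih i' j' ?_ (flipAt v x) s' hs2 rfl ?_
      · rw [e1]
        exact G.legal_ctrl _ s s' hs' hss i' j' hi' hj'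
      · rw [e1]
        exact hG.move_ctrl _ s s' hss i' j' hi' hj'
    · exact FG.Win.lit v s l hl hv

theorem FG.WF.wins_of_win {G : FG ν σ} (hG : G.WF) (v : ν → Bool) (s : σ) (h : G.Win v s) :
    s ∈ G.stages → G.board.Wins true (G.st v s) := by
  induction h with
  | lit v s l hl h =>
    intro hs
    have hx := hG.lits_vars s hs l hl
    obtain ⟨i, hi⟩ := G.exCtrl s hs
    obtain ⟨j, hj⟩ := G.exIdx (a := (some (l.2, !l.1), none))
      ((G.mem_verts _).2 (Or.inl ⟨l.2, hx, _, rfl⟩))
    refine Board.Wins.intro true _ i j ⟨?_, ?_, ?_⟩ ?_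
    · show G.eL (G.verts.get i) (G.verts.get j) = true
      rw [hi, hj]
      simp only [FG.eL, Bool.not_not, decide_eq_true_eq]
      exact hl
    · show FG.occV v s (G.verts.get i) = true
      rw [hi]
      simp [FG.occV]
    · show FG.occV v s (G.verts.get j) = false
      rw [hj]
      simp only [FG.occV, h]
      cases l.1 <;> rfl
    · rintro i' j' ⟨h1, h2, -⟩
      exfalso
      change G.eR (G.verts.get i') (G.verts.get j') = true at h1
      rw [hG.moveTok_apply, hi, hj] at h2
      have hki : G.verts.get i' ∈ G.verts := List.get_mem _ _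
      rcases (G.mem_verts _).1 hki with ⟨x, hx, b, hi'⟩ | ⟨s', -, hi'⟩
      · rw [hi'] at h1
        simp [FG.eR] at h1
      · rw [hi'] at h2
        by_cases hss : s' = s
        · subst hss
          simp at h2
        · simp [FG.occV, hss] at h2
  | flip v s x hx _ ih =>
    intro hs
    obtain ⟨i, j, hi, hj⟩ := G.exFlip v x hx
    refine Board.Wins.intro true _ i j (G.legal_flip v s x i j hi hj) ?_
    rw [hG.move_flip v s x i j hi hj]
    intro i' j' hl
    obtain ⟨s', hs', hi', hj'⟩ := G.legalR (flipAt v x) s i' j' hl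
    rw [hG.move_ctrl _ s s' (hG.ne_next hs hs') i' j' hi' hj']
    exact ih s' hs' (hG.next_stages s hs s' hs')

theorem FG.WF.not_right {G : FG ν σ} (hG : G.WF) (b : Bool) (occ : Fin G.board.n → Bool)
    (h : G.board.Wins b occ) : ∀ (v : ν → Bool) (s : σ), s ∈ G.stages → b = false →
      occ = G.st v s → False := by
  induction h with
  | intro occ u w hl _ ih =>
    rintro v s hs rfl rfl
    obtain ⟨s', hs', hi, hj⟩ := G.legalR v s u w hl
    have hss := hG.ne_next hs hs'
    have hs2 := hG.next_stages s hs s' hs'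
    obtain ⟨x, hx⟩ := List.exists_mem_of_ne_nil _ hG.vars_ne
    obtain ⟨i', j', hi', hj'⟩ := G.exFlip v x hx
    have e1 := hG.move_ctrl v s s' hss u w hi hj
    refine ih i' j' ?_ (flipAt v x) s' hs2 rfl ?_
    · rw [e1]
      exact G.legal_flip v s' x i' j' hi' hj'
    · rw [e1]
      exact hG.move_flip v s' x i' j' hi' hj'

end gadget

/-- **Module G1**. -/
theorem claimGadget : ClaimGadget := by
  intro ν σ _ _ G hG v s hs
  refine ⟨⟨fun h => ?_, fun h => ?_⟩, fun h => ?_⟩
  · exact hG.win_of_wins true (G.st v s) h v s hs rfl rfl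
  · exact hG.wins_of_win v s h hs
  · obtain ⟨x, hx⟩ := List.exists_mem_of_ne_nil _ hG.vars_ne
    obtain ⟨i, j, hi, hj⟩ := G.exFlip v x hx
    have h1 : G.board.Wins false (moveTok (G.st v s) i j) := h i j (G.legal_flip v s x i j hi hj)
    rw [hG.move_flip v s x i j hi hj] at h1
    exact hG.not_right false _ h1 (flipAt v x) s hs rfl rfl

end Pool.Agent.Work.MP_817c3f_lc
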